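import Pool.Agent.Lib.MP_0edfa1_lc.PortCmp

/-!
# Evaluation of pointers on graphs coding pointer structures
-/

set_option autoImplicit false

namespace Pool.Agent.Lib.MP_0edfa1_lc

instance : Inhabited OLab := ⟨⟨.X, false, false, false, false, false, false⟩⟩

open Classical in
/-- The label of an object node. -/
noncomputable def olabOfF : Feat OLab := fun K v =>
  if h : ∃ l, K.G.HasLab v (.obj l) then h.choose else default

theorem olabOf_eq {K : KG} {v : K.V} {l : OLab} (h : K.G.HasLab v (.obj l)) :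
    olabOfF K v = l := by
  have h' : ∃ l, K.G.HasLab v (.obj l) := ⟨l, h⟩
  unfold olabOfF
  rw [dif_pos h']
  have := h'.choose_spec.unique h
  exact NLab.obj.inj this

theorem Cmp.olabOf : Cmp olabOfF := by
  classical
  refine ((Cmp.pi fun l => Cmp.hasLab (.obj l)).map fun b : OLab → Prop =>
    if h : ∃ l, b l then h.choose else default).congr fun K v => ?_
  rfl

/-- Follow the pointer `i`. -/
noncomputable def pullF {α : Type} [Inhabited α] (i : Ptr) (F : Feat α) : Feat α :=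
  lookF (fun K v => K.G.HasLab v (.out i))
    (lookF (fun K v => K.G.HasLab v (.inn i)) (lookF (fun K v => K.G.IsObj v) F))

theorem Cmp.pull {α : Type} [Inhabited α] [Emb α] (i : Ptr) {F : Feat α} (hF : Cmp F) :
    Cmp (pullF i F) :=
  (Cmp.hasLab (.out i)).look ((Cmp.hasLab (.inn i)).look (Cmp.isObj.look hF))

/-- Follow the pointers in `w`. -/
noncomputable def pullwF {α : Type} [Inhabited α] : List Ptr → Feat α → Feat α
  | [], F => F
  | i :: w, F => pullF i (pullwF w F)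

theorem Cmp.pullw {α : Type} [Inhabited α] [Emb α] {F : Feat α} (hF : Cmp F) :
    ∀ w : List Ptr, Cmp (pullwF w F)
  | [] => hF
  | i :: w => (Cmp.pullw hF w).pull i

/-- From an incoming port back to the source of the pointer. -/
noncomputable def backF {α : Type} [Inhabited α] (i : Ptr) (F : Feat α) : Feat α :=
  lookF (fun K v => K.G.HasLab v (.out i)) (lookF (fun K v => K.G.IsObj v) F)

theorem Cmp.back {α : Type} [Inhabited α] [Emb α] (i : Ptr) {F : Feat α} (hF : Cmp F) :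
    Cmp (backF i F) :=
  (Cmp.hasLab (.out i)).look (Cmp.isObj.look hF)

section codes

variable {K : KG} {u : K.V} {O : Type} {M : PStr O} {f : O → K.V}

theorem Codes.adj_of (h : Codes K.G u M f) {v w : K.V} {p : NLab} (hv : K.G.adj u v)
    (hw : K.G.adj v w) (hp : K.G.HasLab w p) (hpt : p ≠ .top) : K.G.adj u w := by
  rcases h.closed v w hv hw with h1 | h1
  · subst h1
    exact absurd (hp.unique h.top) hpt
  · exact h1

theorem Codes.isObj (h : Codes K.G u M f) (o : O) : K.G.IsObj (f o) :=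
  ⟨_, (h.obj o).2⟩

theorem Codes.olabOf (h : Codes K.G u M f) (o : O) : olabOfF K (f o) = M.lab o :=
  olabOf_eq (h.obj o).2

theorem Codes.pull {α : Type} [Inhabited α] (h : Codes K.G u M f) (i : Ptr) (F : Feat α) (o : O) :
    pullF i F K (f o) = F K (f (M.ptr i o)) := by
  obtain ⟨y, ⟨hy1, hy2⟩, -⟩ := id (h.obj_out o i)
  have hy := h.adj_of (h.obj o).1 hy1 hy2 (by simp)
  obtain ⟨z, ⟨hz1, hz2⟩, -⟩ := id (h.out_inn y i hy hy2)
  have hz := h.adj_of hy hz1 hz2 (by simp)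
  unfold pullF
  rw [look_eq (h.obj_out o i) hy1 hy2, look_eq (h.out_inn y i hy hy2) hz1 hz2,
    look_eq (h.inn_obj z i hz hz2) (h.ptr o i y z hy1 hy2 hz1 hz2) (h.isObj _)]

theorem Codes.pullw {α : Type} [Inhabited α] (h : Codes K.G u M f) (F : Feat α) :
    ∀ (w : List Ptr) (o : O), pullwF w F K (f o) = F K (f (M.walk w o))
  | [], _ => rfl
  | i :: w, o => by
    rw [pullwF, h.pull, h.pullw F w]
    rfl

theorem Codes.exists_inn (h : Codes K.G u M f) (i : Ptr) (o : O) :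
    ∃ z, K.G.adj (f (M.ptr i o)) z ∧ K.G.HasLab z (.inn i) ∧
      ∀ {α : Type} [Inhabited α] (F : Feat α), backF i F K z = F K (f o) := by
  obtain ⟨y, ⟨hy1, hy2⟩, -⟩ := id (h.obj_out o i)
  have hy := h.adj_of (h.obj o).1 hy1 hy2 (by simp)
  obtain ⟨z, ⟨hz1, hz2⟩, -⟩ := id (h.out_inn y i hy hy2)
  have hz := h.adj_of hy hz1 hz2 (by simp)
  refine ⟨z, K.symm _ _ (h.ptr o i y z hy1 hy2 hz1 hz2), hz2, fun F => ?_⟩
  unfold backF
  rw [look_eq (h.inn_out z i hz hz2) (K.symm _ _ hz1) hy2,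
    look_eq (h.out_obj y i hy hy2) (K.symm _ _ hy1) (h.isObj o)]

theorem Codes.of_inn (h : Codes K.G u M f) (i : Ptr) (x : O) (z : K.V)
    (hz1 : K.G.adj (f x) z) (hz2 : K.G.HasLab z (.inn i)) :
    ∃ o, M.ptr i o = x ∧ ∀ {α : Type} [Inhabited α] (F : Feat α), backF i F K z = F K (f o) := by
  have hz := h.adj_of (h.obj x).1 hz1 hz2 (by simp)
  obtain ⟨y, ⟨hy1, hy2⟩, -⟩ := id (h.inn_out z i hz hz2)
  have hy := h.adj_of hz hy1 hy2 (by simp)
  obtain ⟨v, ⟨hv1, hv2⟩, -⟩ := id (h.out_obj y i hy hy2)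
  obtain ⟨l, hl⟩ := id hv2
  have hv := h.adj_of hy hv1 hl (by simp)
  obtain ⟨o, rfl⟩ := h.surj v hv hv2
  refine ⟨o, ?_, fun F => ?_⟩
  · apply h.inj
    exact (h.inn_obj z i hz hz2).unique
      ⟨h.ptr o i y z (K.symm _ _ hv1) hy2 (K.symm _ _ hy1) hz2, h.isObj _⟩
      ⟨K.symm _ _ hz1, h.isObj _⟩
  · unfold backF
    rw [look_eq (h.inn_out z i hz hz2) hy1 hy2, look_eq (h.out_obj y i hy hy2) hv1 hv2]

end codes

/-- Some object with property `B` has its pointer `i` at the given object. -/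
def exInF (i : Ptr) (B : Feat Prop) : Feat Prop := fun K v =>
  ∃ z, K.G.adj v z ∧ K.G.HasLab z (.inn i) ∧ backF i B K z

theorem Cmp.exIn (i : Ptr) {B : Feat Prop} (hB : Cmp B) : Cmp (exInF i B) :=
  ((Cmp.hasLab (.inn i)).and (hB.back i)).ex

/-- Maximum of `F` over the objects with property `B` and pointer `i` at the given object. -/
noncomputable def maxInF (i : Ptr) (B : Feat Prop) (F : Feat ℝ) : Feat (Option ℝ) :=
  maxOfF (fun K z => K.G.HasLab z (.inn i) ∧ backF i B K z) (backF i F)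

/-- Minimum of `F` over the objects with property `B` and pointer `i` at the given object. -/
noncomputable def minInF (i : Ptr) (B : Feat Prop) (F : Feat ℝ) : Feat (Option ℝ) :=
  minOfF (fun K z => K.G.HasLab z (.inn i) ∧ backF i B K z) (backF i F)

theorem Cmp.maxIn (i : Ptr) {B : Feat Prop} {F : Feat ℝ} (hB : Cmp B) (hF : Cmp F) :
    Cmp (maxInF i B F) :=
  ((Cmp.hasLab (.inn i)).and (hB.back i)).maxOf (hF.back i)

theorem Cmp.minIn (i : Ptr) {B : Feat Prop} {F : Feat ℝ} (hB : Cmp B) (hF : Cmp F) :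
    Cmp (minInF i B F) :=
  ((Cmp.hasLab (.inn i)).and (hB.back i)).minOf (hF.back i)

section codes2

variable {K : KG} {u : K.V} {O : Type} {M : PStr O} {f : O → K.V}

theorem Codes.exIn (h : Codes K.G u M f) (i : Ptr) (B : Feat Prop) (x : O) :
    exInF i B K (f x) ↔ ∃ o, M.ptr i o = x ∧ B K (f o) := by
  constructor
  · rintro ⟨z, hz1, hz2, hz3⟩
    obtain ⟨o, ho1, ho2⟩ := h.of_inn i x z hz1 hz2
    exact ⟨o, ho1, by rwa [ho2 B] at hz3⟩
  · rintro ⟨o, rfl, ho⟩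
    obtain ⟨z, hz1, hz2, hz3⟩ := h.exists_inn i o
    exact ⟨z, hz1, hz2, by rwa [hz3 B]⟩

theorem Codes.maxIn_none (h : Codes K.G u M f) (i : Ptr) (B : Feat Prop) (F : Feat ℝ) (x : O) :
    maxInF i B F K (f x) = none ↔ ¬ ∃ o, M.ptr i o = x ∧ B K (f o) := by
  rw [← h.exIn]
  exact maxOf_eq_none

theorem Codes.minIn_none (h : Codes K.G u M f) (i : Ptr) (B : Feat Prop) (F : Feat ℝ) (x : O) :
    minInF i B F K (f x) = none ↔ ¬ ∃ o, M.ptr i o = x ∧ B K (f o) := by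
  rw [← h.exIn]
  exact minOf_eq_none

theorem Codes.maxIn_some (h : Codes K.G u M f) (i : Ptr) (B : Feat Prop) (F : Feat ℝ) (x : O)
    (r : ℝ) : maxInF i B F K (f x) = some r ↔
      ∃ o, M.ptr i o = x ∧ B K (f o) ∧ F K (f o) = r ∧
        ∀ o', M.ptr i o' = x → B K (f o') → F K (f o') ≤ r := by
  unfold maxInF
  rw [maxOf_eq_some]
  constructor
  · rintro ⟨z, hz1, ⟨hz2, hz3⟩, hz4, hz5⟩
    obtain ⟨o, ho1, ho2⟩ := h.of_inn i x z hz1 hz2
    refine ⟨o, ho1, by rwa [ho2 B] at hz3, by rwa [ho2 F] at hz4, ?_⟩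
    rintro o' rfl ho'
    obtain ⟨z', hz1', hz2', hz3'⟩ := h.exists_inn i o'
    have := hz5 z' hz1' ⟨hz2', by rwa [hz3' B]⟩
    rwa [hz3' F] at this
  · rintro ⟨o, rfl, ho1, ho2, ho3⟩
    obtain ⟨z, hz1, hz2, hz3⟩ := h.exists_inn i o
    refine ⟨z, hz1, ⟨hz2, by rwa [hz3 B]⟩, by rwa [hz3 F], ?_⟩
    rintro z' hz1' ⟨hz2', hz3'⟩
    obtain ⟨o', ho1', ho2'⟩ := h.of_inn i _ z' hz1' hz2'
    rw [ho2' F]
    exact ho3 o' ho1' (by rwa [ho2' B] at hz3')

theorem Codes.minIn_some (h : Codes K.G u M f) (i : Ptr) (B : Feat Prop) (F : Feat ℝ) (x : O)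
    (r : ℝ) : minInF i B F K (f x) = some r ↔
      ∃ o, M.ptr i o = x ∧ B K (f o) ∧ F K (f o) = r ∧
        ∀ o', M.ptr i o' = x → B K (f o') → r ≤ F K (f o') := by
  unfold minInF
  rw [minOf_eq_some]
  constructor
  · rintro ⟨z, hz1, ⟨hz2, hz3⟩, hz4, hz5⟩
    obtain ⟨o, ho1, ho2⟩ := h.of_inn i x z hz1 hz2
    refine ⟨o, ho1, by rwa [ho2 B] at hz3, by rwa [ho2 F] at hz4, ?_⟩
    rintro o' rfl ho'
    obtain ⟨z', hz1', hz2', hz3'⟩ := h.exists_inn i o'
    have := hz5 z' hz1' ⟨hz2', by rwa [hz3' B]⟩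
    rwa [hz3' F] at this
  · rintro ⟨o, rfl, ho1, ho2, ho3⟩
    obtain ⟨z, hz1, hz2, hz3⟩ := h.exists_inn i o
    refine ⟨z, hz1, ⟨hz2, by rwa [hz3 B]⟩, by rwa [hz3 F], ?_⟩
    rintro z' hz1' ⟨hz2', hz3'⟩
    obtain ⟨o', ho1', ho2'⟩ := h.of_inn i _ z' hz1' hz2'
    rw [ho2' F]
    exact ho3 o' ho1' (by rwa [ho2' B] at hz3')

end codes2

end Pool.Agent.Lib.MP_0edfa1_lc
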