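import Pool.Agent.Lib.MP_0edfa1_lc.PortDefs

/-!
# Features which are computed by expressions
-/

set_option autoImplicit false

namespace Pool.Agent.Lib.MP_0edfa1_lc

/-- Types which embed into the real numbers. -/
class Emb (α : Type) : Prop where
  emb : ∃ f : α → ℝ, Function.Injective f

theorem emb_of_card {α : Type} (h : Cardinal.mk α ≤ Cardinal.continuum) : Emb α := by
  rw [← Cardinal.mk_real] at h
  obtain ⟨f⟩ := Cardinal.le_def α ℝ |>.mp h
  exact ⟨f, f.injective⟩

theorem Emb.card {α : Type} (h : Emb α) : Cardinal.mk α ≤ Cardinal.continuum := by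
  obtain ⟨f, hf⟩ := h.emb
  rw [← Cardinal.mk_real]
  exact Cardinal.mk_le_of_injective hf

instance {α : Type} [Countable α] : Emb α :=
  emb_of_card ((Cardinal.mk_le_aleph0 (α := α)).trans Cardinal.aleph0_le_continuum)

instance : Emb ℝ := ⟨id, Function.injective_id⟩

instance {α β : Type} [hα : Emb α] [hβ : Emb β] : Emb (α × β) := by
  apply emb_of_card
  rw [Cardinal.mk_prod, Cardinal.lift_id, Cardinal.lift_id]
  exact (mul_le_mul' hα.card hβ.card).trans (by rw [Cardinal.continuum_mul_self])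

instance {α : Type} [hα : Emb α] : Emb (Option α) := by
  apply emb_of_card
  rw [Cardinal.mk_option]
  refine (add_le_add_left hα.card 1).trans ?_
  exact le_of_eq (by exact_mod_cast Cardinal.continuum_add_nat 1)

instance {ι α : Type} [Countable ι] [hα : Emb α] : Emb (ι → α) := by
  apply emb_of_card
  rw [← Cardinal.power_def]
  calc Cardinal.mk α ^ Cardinal.mk ι ≤ Cardinal.continuum ^ Cardinal.mk ι :=
        Cardinal.power_le_power_right hα.card
    _ ≤ Cardinal.continuum ^ Cardinal.aleph0 :=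
        Cardinal.power_le_power_left Cardinal.continuum_ne_zero Cardinal.mk_le_aleph0
    _ = Cardinal.continuum := Cardinal.continuum_power_aleph0

/-- Finite undirected graphs with keys. -/
structure KG where
  V : Type
  fin : Finite V
  G : LGraph NLab V
  symm : G.Undirected
  key : V → ℝ
  inj : Function.Injective key

/-- Features with values in `α`. -/
abbrev Feat (α : Type) := (K : KG) → K.V → α

/-- The feature `F` is computed by an expression, up to an injective coding of the values. -/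
def Cmp {α : Type} (F : Feat α) : Prop :=
  ∃ (e : Expr NLab) (enc : α → ℝ), Function.Injective enc ∧
    ∀ (K : KG) (v : K.V), e.eval K.G K.key v = enc (F K v)

namespace Cmp

theorem map {α β : Type} [Emb β] (g : α → β) {F : Feat α} (hF : Cmp F) :
    Cmp fun K v => g (F K v) := by
  obtain ⟨e, enc, henc, he⟩ := hF
  obtain ⟨enc', henc'⟩ := Emb.emb (α := β)
  refine ⟨.comb 1 (fun x => Function.extend enc (fun a => enc' (g a)) 0 (x 0)) fun _ => e, enc',
    henc', fun K v => ?_⟩
  simp only [Expr.eval, he]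
  rw [henc.extend_apply]

theorem pi {ι α : Type} [Finite ι] [Emb α] {F : ι → Feat α} (hF : ∀ i, Cmp (F i)) :
    Cmp fun K v i => F i K v := by
  choose e enc henc he using hF
  obtain ⟨n, ⟨σ⟩⟩ := Finite.exists_equiv_fin ι
  obtain ⟨enc', henc'⟩ := Emb.emb (α := ι → α)
  set E : (ι → α) → (Fin n → ℝ) := fun a j => enc (σ.symm j) (a (σ.symm j)) with hE
  have hEinj : Function.Injective E := by
    intro a b hab
    funext i
    have := congrFun hab (σ i)
    simp only [hE, Equiv.symm_apply_apply] at this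
    exact henc i this
  refine ⟨.comb n (fun x => Function.extend E enc' 0 x) fun j => e (σ.symm j), enc', henc',
    fun K v => ?_⟩
  simp only [Expr.eval, he]
  exact hEinj.extend_apply enc' 0 (fun i => F i K v)

theorem prod {α β : Type} [Emb α] [Emb β] {F : Feat α} {F' : Feat β} (hF : Cmp F)
    (hF' : Cmp F') : Cmp fun K v => (F K v, F' K v) := by
  obtain ⟨e, enc, henc, he⟩ := hF
  obtain ⟨e', enc', henc', he'⟩ := hF'
  obtain ⟨f, hf⟩ := Emb.emb (α := α × β)
  have hinj : Function.Injective fun p : α × β => (enc p.1, enc' p.2) := by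
    rintro ⟨a, b⟩ ⟨c, d⟩ h
    simp only [Prod.mk.injEq] at h
    exact Prod.ext (henc h.1) (henc' h.2)
  refine ⟨.comb 2 (fun x => Function.extend (fun p : α × β => (enc p.1, enc' p.2)) f 0
    (x 0, x 1)) ![e, e'], f, hf, fun K v => ?_⟩
  simp only [Expr.eval, Matrix.cons_val_zero, Matrix.cons_val_one, he, he']
  exact hinj.extend_apply f 0 (F K v, F' K v)

theorem map₂ {α β γ : Type} [Emb α] [Emb β] [Emb γ] (g : α → β → γ) {F : Feat α} {F' : Feat β}
    (hF : Cmp F) (hF' : Cmp F') : Cmp fun K v => g (F K v) (F' K v) :=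
  (hF.prod hF').map fun p => g p.1 p.2

theorem const {α : Type} [Emb α] (a : α) : Cmp fun _ _ => a := by
  obtain ⟨f, hf⟩ := Emb.emb (α := α)
  exact ⟨.comb 0 (fun _ => f a) fun i => i.elim0, f, hf, fun K v => rfl⟩

theorem and {B B' : Feat Prop} (h : Cmp B) (h' : Cmp B') : Cmp fun K v => B K v ∧ B' K v :=
  map₂ And h h'

theorem or {B B' : Feat Prop} (h : Cmp B) (h' : Cmp B') : Cmp fun K v => B K v ∨ B' K v :=
  map₂ Or h h'

theorem imp {B B' : Feat Prop} (h : Cmp B) (h' : Cmp B') : Cmp fun K v => B K v → B' K v :=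
  map₂ (fun p q : Prop => p → q) h h'

theorem not {B : Feat Prop} (h : Cmp B) : Cmp fun K v => ¬ B K v :=
  h.map Not

theorem all {ι : Type} [Finite ι] {B : ι → Feat Prop} (h : ∀ i, Cmp (B i)) :
    Cmp fun K v => ∀ i, B i K v :=
  (pi h).map fun b : ι → Prop => ∀ i, b i

theorem exi {ι : Type} [Finite ι] {B : ι → Feat Prop} (h : ∀ i, Cmp (B i)) :
    Cmp fun K v => ∃ i, B i K v :=
  (pi h).map fun b : ι → Prop => ∃ i, b i

theorem eq {α : Type} [Emb α] {F F' : Feat α} (h : Cmp F) (h' : Cmp F') :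
    Cmp fun K v => F K v = F' K v :=
  map₂ (fun a b : α => a = b) h h'

theorem congr {α : Type} {F F' : Feat α} (h : Cmp F) (hF : ∀ K v, F K v = F' K v) : Cmp F' := by
  have : F = F' := by funext K v; exact hF K v
  exact this ▸ h

theorem key : Cmp fun K v => K.key v := ⟨.val, id, Function.injective_id, fun _ _ => rfl⟩

theorem lab (p : NLab) : Cmp fun K v => K.G.lab v p := by
  classical
  refine ⟨.atom p, fun b => if b then 1 else 0, ?_, fun K v => rfl⟩
  intro a b h
  by_cases ha : a <;> by_cases hb : b <;> simp_all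

end Cmp

open Classical in
/-- The maximum of `F` over the neighbours with property `B`. -/
noncomputable def maxOfF (B : Feat Prop) (F : Feat ℝ) : Feat (Option ℝ) := fun K v =>
  if ∃ w, K.G.adj v w ∧ B K w then some (sSup {r | ∃ w, K.G.adj v w ∧ B K w ∧ F K w = r})
  else none

theorem maxOf_eq_none {B : Feat Prop} {F : Feat ℝ} {K : KG} {v : K.V} :
    maxOfF B F K v = none ↔ ¬ ∃ w, K.G.adj v w ∧ B K w := by
  unfold maxOfF
  split_ifs with h <;> simp [h]

theorem exists_max_nbr (B : Feat Prop) (F : Feat ℝ) (K : KG) (v : K.V)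
    (h : ∃ w, K.G.adj v w ∧ B K w) :
    ∃ w, K.G.adj v w ∧ B K w ∧ ∀ w', K.G.adj v w' → B K w' → F K w' ≤ F K w := by
  have := K.fin
  obtain ⟨w0, hw0⟩ := h
  have : Nonempty {w // K.G.adj v w ∧ B K w} := ⟨⟨w0, hw0⟩⟩
  obtain ⟨w, hw⟩ := Finite.exists_max fun w : {w // K.G.adj v w ∧ B K w} => F K w.1
  exact ⟨w.1, w.2.1, w.2.2, fun w' h1 h2 => hw ⟨w', h1, h2⟩⟩

theorem maxOf_eq_some {B : Feat Prop} {F : Feat ℝ} {K : KG} {v : K.V} {r : ℝ} :
    maxOfF B F K v = some r ↔
      ∃ w, K.G.adj v w ∧ B K w ∧ F K w = r ∧ ∀ w', K.G.adj v w' → B K w' → F K w' ≤ r := by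
  constructor
  · intro h
    have h1 : ∃ w, K.G.adj v w ∧ B K w := by
      by_contra h1
      rw [maxOf_eq_none.mpr h1] at h
      cases h
    obtain ⟨w, hw1, hw2, hw3⟩ := exists_max_nbr B F K v h1
    have : IsGreatest {r | ∃ w, K.G.adj v w ∧ B K w ∧ F K w = r} (F K w) := by
      refine ⟨⟨w, hw1, hw2, rfl⟩, ?_⟩
      rintro _ ⟨w', h1, h2, rfl⟩
      exact hw3 w' h1 h2
    unfold maxOfF at h
    rw [if_pos h1, this.csSup_eq] at h
    cases h
    exact ⟨w, hw1, hw2, rfl, hw3⟩
  · rintro ⟨w, hw1, hw2, rfl, hw3⟩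
    have : IsGreatest {r | ∃ w, K.G.adj v w ∧ B K w ∧ F K w = r} (F K w) := by
      refine ⟨⟨w, hw1, hw2, rfl⟩, ?_⟩
      rintro _ ⟨w', h1, h2, rfl⟩
      exact hw3 w' h1 h2
    unfold maxOfF
    rw [if_pos ⟨w, hw1, hw2⟩, this.csSup_eq]

theorem Cmp.maxOf {B : Feat Prop} {F : Feat ℝ} (hB : Cmp B) (hF : Cmp F) :
    Cmp (maxOfF B F) := by
  classical
  obtain ⟨e, enc, henc, he⟩ := hB
  obtain ⟨e', enc', henc', he'⟩ := hF
  have hinj : Function.Injective fun p : Prop × ℝ => (enc p.1, enc' p.2) := by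
    rintro ⟨a, b⟩ ⟨c, d⟩ h
    simp only [Prod.mk.injEq] at h
    exact Prod.ext (henc h.1) (henc' h.2)
  set g : Prop × ℝ → ℝ := fun p => if p.1 then Real.exp p.2 else 0 with hg
  set e2 : Expr NLab := .comb 2 (fun x => Function.extend
    (fun p : Prop × ℝ => (enc p.1, enc' p.2)) g 0 (x 0, x 1)) ![e, e'] with he2
  have hev : ∀ (K : KG) (v : K.V), e2.eval K.G K.key v = g (B K v, F K v) := by
    intro K v
    simp only [he2, Expr.eval, Matrix.cons_val_zero, Matrix.cons_val_one, he, he']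
    exact hinj.extend_apply g 0 (B K v, F K v)
  refine ⟨.localMax e2, fun o => o.elim 0 Real.exp, ?_, fun K v => ?_⟩
  · rintro (_ | a) (_ | b) h
    · rfl
    · exact absurd h (Real.exp_pos b).ne
    · exact absurd h (Real.exp_pos a).ne'
    · exact congrArg _ (Real.exp_injective h)
  · have := K.fin
    simp only [Expr.eval, hev]
    rcases hm : maxOfF B F K v with _ | r
    · rw [maxOf_eq_none] at hm
      have : ∀ w : {w // K.G.adj v w}, g (B K w, F K w) = 0 := by
        intro w
        have : ¬ B K w := fun h => hm ⟨w, w.2, h⟩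
        simp [hg, this]
      simp [this]
    · rw [maxOf_eq_some] at hm
      obtain ⟨w, hw1, hw2, hw3, hw4⟩ := hm
      apply le_antisymm
      · have : Nonempty {w // K.G.adj v w} := ⟨⟨w, hw1⟩⟩
        apply ciSup_le
        intro w'
        by_cases hb : B K w'
        · simpa [hg, hb] using hw4 w' w'.2 hb
        · simp only [hg, hb, if_false, Option.elim]
          exact (Real.exp_pos r).le
      · have h1 : g (B K w, F K w) = Real.exp r := by simp [hg, hw2, hw3]
        have h2 := le_ciSup (f := fun w : {w // K.G.adj v w} => g (B K w, F K w))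
          (Set.finite_range _).bddAbove ⟨w, hw1⟩
        simp only [h1] at h2
        exact h2

/-- The minimum of `F` over the neighbours with property `B`. -/
noncomputable def minOfF (B : Feat Prop) (F : Feat ℝ) : Feat (Option ℝ) := fun K v =>
  (maxOfF B (fun K v => - F K v) K v).map fun r => -r

theorem minOf_eq_none {B : Feat Prop} {F : Feat ℝ} {K : KG} {v : K.V} :
    minOfF B F K v = none ↔ ¬ ∃ w, K.G.adj v w ∧ B K w := by
  unfold minOfF
  rw [Option.map_eq_none_iff, maxOf_eq_none]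

theorem minOf_eq_some {B : Feat Prop} {F : Feat ℝ} {K : KG} {v : K.V} {r : ℝ} :
    minOfF B F K v = some r ↔
      ∃ w, K.G.adj v w ∧ B K w ∧ F K w = r ∧ ∀ w', K.G.adj v w' → B K w' → r ≤ F K w' := by
  unfold minOfF
  rw [Option.map_eq_some_iff]
  constructor
  · rintro ⟨a, ha, rfl⟩
    rw [maxOf_eq_some] at ha
    obtain ⟨w, hw1, hw2, hw3, hw4⟩ := ha
    refine ⟨w, hw1, hw2, by linarith, fun w' h1 h2 => ?_⟩
    have := hw4 w' h1 h2
    linarith
  · rintro ⟨w, hw1, hw2, hw3, hw4⟩
    refine ⟨-r, ?_, by ring⟩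
    rw [maxOf_eq_some]
    refine ⟨w, hw1, hw2, by rw [hw3], fun w' h1 h2 => ?_⟩
    have := hw4 w' h1 h2
    linarith

theorem Cmp.minOf {B : Feat Prop} {F : Feat ℝ} (hB : Cmp B) (hF : Cmp F) :
    Cmp (minOfF B F) :=
  (hB.maxOf (hF.map fun r => -r)).map fun o => o.map fun r => -r

theorem Cmp.ex {B : Feat Prop} (hB : Cmp B) : Cmp fun K v => ∃ w, K.G.adj v w ∧ B K w := by
  refine ((hB.maxOf (Cmp.const 0)).map fun o => o ≠ none).congr fun K v => ?_
  rw [Ne, maxOf_eq_none, not_not]

theorem Cmp.nbr {B : Feat Prop} (hB : Cmp B) : Cmp fun K v => ∀ w, K.G.adj v w → B K w := by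
  refine hB.not.ex.not.congr fun K v => ?_
  simp

theorem exu_iff {B : Feat Prop} {K : KG} {v : K.V} :
    (∃! w, K.G.adj v w ∧ B K w) ↔ maxOfF B (fun K v => K.key v) K v ≠ none ∧
      maxOfF B (fun K v => K.key v) K v = minOfF B (fun K v => K.key v) K v := by
  constructor
  · rintro ⟨w, ⟨hw1, hw2⟩, hw3⟩
    have h1 : maxOfF B (fun K v => K.key v) K v = some (K.key w) := by
      rw [maxOf_eq_some]
      exact ⟨w, hw1, hw2, rfl, fun w' h1 h2 => by rw [hw3 w' ⟨h1, h2⟩]⟩
    have h2 : minOfF B (fun K v => K.key v) K v = some (K.key w) := by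
      rw [minOf_eq_some]
      exact ⟨w, hw1, hw2, rfl, fun w' h1 h2 => by rw [hw3 w' ⟨h1, h2⟩]⟩
    rw [h1, h2]
    simp
  · rintro ⟨h1, h2⟩
    obtain ⟨r, hr⟩ := Option.ne_none_iff_exists'.mp h1
    have h3 := hr
    rw [h2] at h3
    rw [maxOf_eq_some] at hr
    rw [minOf_eq_some] at h3
    obtain ⟨w, hw1, hw2, hw3, hw4⟩ := hr
    obtain ⟨w', hw1', hw2', hw3', hw4'⟩ := h3
    refine ⟨w, ⟨hw1, hw2⟩, fun y hy => K.inj ?_⟩
    have h5 := hw4 y hy.1 hy.2
    have h6 := hw4' y hy.1 hy.2
    linarith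

theorem Cmp.exu {B : Feat Prop} (hB : Cmp B) : Cmp fun K v => ∃! w, K.G.adj v w ∧ B K w := by
  refine (((hB.maxOf Cmp.key).map fun o => o ≠ none).and
    ((hB.maxOf Cmp.key).eq (hB.minOf Cmp.key))).congr fun K v => ?_
  rw [exu_iff]

open Classical in
/-- The value of `F` at the unique neighbour with property `B`. -/
noncomputable def lookF {α : Type} [Inhabited α] (B : Feat Prop) (F : Feat α) : Feat α :=
  fun K v => if h : ∃! w, K.G.adj v w ∧ B K w then F K h.choose else default

theorem look_eq {α : Type} [Inhabited α] {B : Feat Prop} {F : Feat α} {K : KG} {v w : K.V}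
    (h : ∃! w, K.G.adj v w ∧ B K w) (h1 : K.G.adj v w) (h2 : B K w) :
    lookF B F K v = F K w := by
  unfold lookF
  rw [dif_pos h, h.unique h.choose_spec.1 ⟨h1, h2⟩]

theorem Cmp.look {α : Type} [Inhabited α] [Emb α] {B : Feat Prop} {F : Feat α} (hB : Cmp B)
    (hF : Cmp F) : Cmp (lookF B F) := by
  classical
  obtain ⟨f, hf⟩ := Emb.emb (α := α)
  refine ((hB.exu.prod (hB.maxOf (hF.map f))).map fun p =>
    if p.1 then p.2.elim default (fun r => Function.invFun f r) else default).congr fun K v => ?_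
  unfold lookF
  split_ifs with h
  · have : maxOfF B (fun K v => f (F K v)) K v = some (f (F K h.choose)) := by
      rw [maxOf_eq_some]
      exact ⟨h.choose, h.choose_spec.1.1, h.choose_spec.1.2, rfl, fun w' h1 h2 => by
        rw [h.unique h.choose_spec.1 ⟨h1, h2⟩]⟩
    simp only [this, Option.elim]
    exact Function.leftInverse_invFun hf _
  · rfl

end Pool.Agent.Lib.MP_0edfa1_lc
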