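import Pool.Agent.Lib.MP_0edfa1_lc.Graph

/-!
# The comb structures are valid
-/

set_option autoImplicit false

namespace Pool.Agent.Lib.MP_0edfa1_lc

section pts

variable {m n : ℕ}

theorem comb_par_dn (p : Pt m n) (h : p.2.val ≠ 0) : p.par.dn = p ∧ p.par.2.val < n := by
  obtain ⟨⟨j, hj⟩, ⟨l, hl⟩⟩ := p
  simp only [ne_eq] at h
  simp only [Pt.par, h, if_false, Pt.dn]
  have h1 : l - 1 < n := by omega
  simp only [h1, dif_pos, and_true]
  refine Prod.ext rfl (Fin.ext ?_)
  show l - 1 + 1 = l
  omega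

theorem comb_par_rt (p : Pt m n) (h : p.2.val = 0) (h' : p.1.val ≠ 0) :
    p.par.rt = p ∧ p.par.2.val = 0 ∧ p.par.1.val + 1 < m := by
  obtain ⟨⟨j, hj⟩, ⟨l, hl⟩⟩ := p
  simp only [ne_eq] at h h'
  subst h
  have h1 : j - 1 + 1 < m := by omega
  simp only [Pt.par, if_true, Pt.rt, h1, and_self, dif_pos, and_true]
  refine Prod.ext (Fin.ext ?_) rfl
  show j - 1 + 1 = j
  omega

theorem comb_lt_self (p : Pt m n) : Pt.lt p p = false := by
  simp [Pt.lt]

theorem comb_lt_par (p h : Pt m n) (hp : ¬ (p.1.val = 0 ∧ p.2.val = 0))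
    (hh : p = h ∨ Pt.lt p h = true) : Pt.lt p.par h = true := by
  obtain ⟨⟨j, hj⟩, ⟨l, hl⟩⟩ := p
  obtain ⟨⟨j', hj'⟩, ⟨l', hl'⟩⟩ := h
  simp only [Pt.lt, Pt.par, Prod.mk.injEq, Fin.mk.injEq, Bool.or_eq_true, decide_eq_true_eq,
    Bool.and_eq_true] at hp hh ⊢
  split_ifs with h0
  · simp only at h0 ⊢
    omega
  · simp only at h0 ⊢
    omega

theorem comb_flip_self (A b : Fin m → Bool) (p : Pt m n) (hp : Pt.isA A p = true) :
    Pt.flip A b p p.1 = !(b p.1) := by
  simp [Pt.flip, hp]

theorem comb_flip_ne (A b : Fin m → Bool) (p h : Pt m n) (hp : Pt.isA A p = true) (hne : p ≠ h) :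
    Pt.flip A b h p.1 = b p.1 := by
  unfold Pt.flip
  rw [if_neg]
  intro hh
  simp only [Bool.and_eq_true, decide_eq_true_eq, Pt.isA] at hh hp
  exact hne (Prod.ext hh.2 (Fin.ext (by omega)))

end pts

theorem comb_valid {m n : ℕ} (hm : 0 < m) (hn : 0 < n) (A : Fin m → Bool) :
    (comb m n A).Valid := by
  have hroot : ∀ p : Pt m n, (decide (p.1.val = 0) && decide (p.2.val = 0)) = false ↔
      ¬ (p.1.val = 0 ∧ p.2.val = 0) := by
    intro p
    rw [Bool.and_eq_false_iff]
    simp only [decide_eq_false_iff_not]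
    tauto
  refine ⟨?_, ?_, ?_, ?_, ?_⟩
  · intro o
    cases o with
    | x p =>
      intro hr
      have hr' := (hroot p).1 hr
      refine ⟨rfl, fun hk => ?_, fun hk => ?_⟩
      · have hk' : p.2.val ≠ 0 := by simpa [comb, PStr.walk, Pt.olab] using hk
        obtain ⟨h1, h2⟩ := comb_par_dn p hk'
        exact ⟨congrArg Obj.x h1, by simpa [comb, PStr.walk, Pt.olab] using h2⟩
      · have hk' : p.2.val = 0 := by simpa [comb, PStr.walk, Pt.olab] using hk
        obtain ⟨h1, h2, h3⟩ := comb_par_rt p hk' (by tauto)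
        exact ⟨congrArg Obj.x h1, by
          simpa [comb, PStr.walk, Pt.olab] using (⟨h2, h3⟩ : p.par.2.val = 0 ∧ p.par.1.val + 1 < m)⟩
    | k h p =>
      refine ⟨⟨rfl, ⟨rfl, rfl, rfl, rfl, rfl⟩, fun hr => ⟨rfl, rfl, rfl, fun hk => ?_, fun hk => ?_⟩,
        fun _ => ⟨rfl, rfl, rfl⟩, fun _ => ⟨rfl, rfl, rfl⟩⟩, rfl, fun he => ?_, fun hr he => ?_⟩
      · have hk' : p.2.val ≠ 0 := by simpa [comb, PStr.walk, Pt.olab] using hk
        exact congrArg (Obj.k h) (comb_par_dn p hk').1
      · have hk' : p.2.val = 0 := by simpa [comb, PStr.walk, Pt.olab] using hk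
        have hr' := (hroot p).1 hr
        exact congrArg (Obj.k h) (comb_par_rt p hk' (by tauto)).1
      · have he' : p = h := Obj.x.inj he
        subst he'
        exact comb_lt_self p
      · have hr' := (hroot p).1 hr
        refine comb_lt_par p h hr' ?_
        rcases he with he | he
        · exact Or.inl (Obj.x.inj he)
        · exact Or.inr he
    | s b => trivial
    | c b p =>
      refine ⟨⟨rfl, ⟨rfl, rfl, rfl, rfl, rfl⟩, fun hr => ⟨rfl, rfl, rfl, fun hk => ?_, fun hk => ?_⟩,
        fun _ => ⟨rfl, rfl, rfl⟩, fun _ => ⟨rfl, rfl, rfl⟩⟩, rfl, fun ha => ⟨rfl, rfl, ?_⟩⟩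
      · have hk' : p.2.val ≠ 0 := by simpa [comb, PStr.walk, Pt.olab] using hk
        exact congrArg (Obj.c b) (comb_par_dn p hk').1
      · have hk' : p.2.val = 0 := by simpa [comb, PStr.walk, Pt.olab] using hk
        have hr' := (hroot p).1 hr
        exact congrArg (Obj.c b) (comb_par_rt p hk' (by tauto)).1
      · have ha' : Pt.isA A p = true := ha
        show (Pt.isA A p && Pt.flip A b p p.1) ≠ (Pt.isA A p && b p.1)
        rw [ha', comb_flip_self A b p ha']
        cases b p.1 <;> simp
    | t b h p =>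
      refine ⟨⟨rfl, ⟨rfl, rfl, rfl, rfl, rfl⟩, fun hr => ⟨rfl, rfl, rfl, fun hk => ?_, fun hk => ?_⟩,
        fun _ => ⟨rfl, rfl, rfl⟩, fun _ => ⟨rfl, rfl, rfl⟩⟩, rfl, rfl, rfl, rfl, rfl, rfl, rfl,
        fun ha hne => ?_⟩
      · have hk' : p.2.val ≠ 0 := by simpa [comb, PStr.walk, Pt.olab] using hk
        exact congrArg (Obj.t b h) (comb_par_dn p hk').1
      · have hk' : p.2.val = 0 := by simpa [comb, PStr.walk, Pt.olab] using hk
        have hr' := (hroot p).1 hr
        exact congrArg (Obj.t b h) (comb_par_rt p hk' (by tauto)).1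
      · have ha' : Pt.isA A p = true := ha
        have hne' : p ≠ h := fun he => hne (congrArg Obj.x he)
        show (Pt.isA A p && b p.1) = (Pt.isA A p && Pt.flip A b h p.1)
        rw [comb_flip_ne A b p h ha' hne']
  · refine ⟨.x (⟨0, hm⟩, ⟨0, by omega⟩), ⟨rfl, rfl⟩, ?_⟩
    rintro y ⟨hy, hy'⟩
    cases y with
    | x p =>
      have : p.1.val = 0 ∧ p.2.val = 0 := by simpa [comb, Pt.olab] using hy'
      exact congrArg Obj.x (Prod.ext (Fin.ext this.1) (Fin.ext this.2))
    | k h p => exact absurd hy (by simp [comb, Pt.olab])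
    | s b => exact absurd hy (by simp [comb])
    | c b p => exact absurd hy (by simp [comb, Pt.olab])
    | t b h p => exact absurd hy (by simp [comb, Pt.olab])
  · intro y hy
    cases y with
    | x p => exact ⟨.k p p, rfl, rfl, rfl⟩
    | k h p => exact absurd hy (by simp [comb, Pt.olab])
    | s b => exact absurd hy (by simp [comb])
    | c b p => exact absurd hy (by simp [comb, Pt.olab])
    | t b h p => exact absurd hy (by simp [comb, Pt.olab])
  · intro y hy
    cases y with
    | x p => exact absurd hy (by simp [comb, Pt.olab])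
    | k h p => exact absurd hy (by simp [comb, Pt.olab])
    | s b =>
      refine ⟨.c b (⟨0, hm⟩, ⟨0, by omega⟩), ⟨rfl, rfl, rfl⟩, ?_⟩
      rintro z ⟨hz, hz', hz''⟩
      cases z with
      | x p => exact absurd hz' (by simp [comb, Pt.olab])
      | k h p => exact absurd hz' (by simp [comb, Pt.olab])
      | s b => exact absurd hz' (by simp [comb])
      | c b' p =>
        have h1 : b' = b := Obj.s.inj hz
        have : p.1.val = 0 ∧ p.2.val = 0 := by simpa [comb, Pt.olab] using hz''
        rw [h1]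
        exact congrArg (Obj.c b) (Prod.ext (Fin.ext this.1) (Fin.ext this.2))
      | t b h p => exact absurd hz' (by simp [comb, Pt.olab])
    | c b p => exact absurd hy (by simp [comb, Pt.olab])
    | t b h p => exact absurd hy (by simp [comb, Pt.olab])
  · intro y hy ha
    cases y with
    | x p => exact absurd hy (by simp [comb, Pt.olab])
    | k h p => exact absurd hy (by simp [comb, Pt.olab])
    | s b => exact absurd hy (by simp [comb])
    | c b p => exact ⟨.t b p (⟨0, hm⟩, ⟨0, by omega⟩), rfl, rfl, rfl⟩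
    | t b h p => exact absurd hy (by simp [comb, Pt.olab])

theorem comb_atoms {m n : ℕ} (A : Fin m → Bool) :
    (comb m n A).atoms.ncard = (Finset.univ.filter fun j => A j = true).card := by
  have h : (comb m n A).atoms =
      (fun j : Fin m => (Obj.x (j, Fin.last n) : Obj m n)) ''
        ((Finset.univ.filter fun j => A j = true : Finset (Fin m)) : Set (Fin m)) := by
    ext y
    simp only [PStr.atoms, Set.mem_ofPred_eq, Set.mem_image, Finset.coe_filter,
      Finset.mem_univ, true_and]
    constructor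
    · rintro ⟨hy, hy'⟩
      cases y with
      | x p =>
        have hh : p.2.val = n ∧ A p.1 = true := by simpa [comb, Pt.olab, Pt.isA] using hy'
        exact ⟨p.1, hh.2, congrArg Obj.x (Prod.ext rfl (Fin.ext hh.1.symm))⟩
      | k h p => exact absurd hy (by simp [comb, Pt.olab])
      | s b => exact absurd hy (by simp [comb])
      | c b p => exact absurd hy (by simp [comb, Pt.olab])
      | t b h p => exact absurd hy (by simp [comb, Pt.olab])
    · rintro ⟨j, hj, rfl⟩
      refine ⟨rfl, ?_⟩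
      simp [comb, Pt.olab, Pt.isA, hj]
  rw [h, Set.ncard_image_of_injective, Set.ncard_coe_finset]
  intro a b hab
  have := Obj.x.inj hab
  exact congrArg Prod.fst this

end Pool.Agent.Lib.MP_0edfa1_lc
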