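import Pool.Agent.Lib.MP_0edfa1_lc.Graph

/-!
# The invariant of the game on combs
-/

set_option autoImplicit false

namespace Pool.Agent.Lib.MP_0edfa1_lc

/-- The colour of a column. -/
def colour {m : ℕ} (A : Fin m → Bool) (S : List (Fin m → Bool)) (j : Fin m) : List Bool :=
  A j :: S.map fun b => b j

/-- The columns outside `D` with colour `c`. -/
def free {m : ℕ} (A : Fin m → Bool) (S : List (Fin m → Bool)) (D : Finset (Fin m)) (c : List Bool) :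
    Finset (Fin m) :=
  Finset.univ.filter fun j => j ∉ D ∧ colour A S j = c

/-- The invariant with `r` small moves left: `S` are the chosen pairs of sets, `L` the chosen
pairs of points. `D` is the partial injection of columns. -/
structure CInv (m n : ℕ) (A A' : Fin m → Bool) (r : ℕ)
    (S : List ((Fin m → Bool) × (Fin m → Bool))) (L : List (Pt m n × Pt m n))
    (α β : ℕ) (D : Finset (Fin m × Fin m)) : Prop where
  gap : α + 2 ^ (r + 1) ≤ β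
  le : β ≤ n
  inj : ∀ a ∈ D, ∀ b ∈ D, (a.1 = b.1 ↔ a.2 = b.2)
  col : ∀ a ∈ D, colour A (S.map Prod.fst) a.1 = colour A' (S.map Prod.snd) a.2
  pts : ∀ p ∈ L, (p.1 = p.2 ∧ p.1.2.val ≤ α) ∨
    (β ≤ p.1.2.val ∧ p.2.2 = p.1.2 ∧ (p.1.1, p.2.1) ∈ D)
  count : ∀ c : List Bool,
    (free A (S.map Prod.fst) (D.image Prod.fst) c).card =
      (free A' (S.map Prod.snd) (D.image Prod.snd) c).card ∨
    (2 ^ r ≤ (free A (S.map Prod.fst) (D.image Prod.fst) c).card ∧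
      2 ^ r ≤ (free A' (S.map Prod.snd) (D.image Prod.snd) c).card)

/-- The invariant for some choice of the gap and of the partial injection. -/
def CGame (m n : ℕ) (A A' : Fin m → Bool) (r : ℕ)
    (S : List ((Fin m → Bool) × (Fin m → Bool))) (L : List (Pt m n × Pt m n)) : Prop :=
  ∃ α β D, CInv m n A A' r S L α β D

/-- Atomic facts about chosen points and sets. -/
structure CFacts (m n : ℕ) (A A' : Fin m → Bool) (S : List ((Fin m → Bool) × (Fin m → Bool)))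
    (L : List (Pt m n × Pt m n)) : Prop where
  olab : ∀ p ∈ L, ∀ srt bit, Pt.olab A srt p.1 bit = Pt.olab A' srt p.2 bit
  lt : ∀ p ∈ L, ∀ h ∈ L, Pt.lt p.1 h.1 = Pt.lt p.2 h.2
  bit : ∀ p ∈ L, ∀ b ∈ S, (Pt.isA A p.1 && b.1 p.1.1) = (Pt.isA A' p.2 && b.2 p.2.1)
  eq : ∀ p ∈ L, ∀ h ∈ L, (p.1 = h.1 ↔ p.2 = h.2)
  par : ∀ p ∈ L, ∀ h ∈ L, (p.1.par = h.1 ↔ p.2.par = h.2)
  dn : ∀ p ∈ L, ∀ h ∈ L, (p.1.dn = h.1 ↔ p.2.dn = h.2)
  rt : ∀ p ∈ L, ∀ h ∈ L, (p.1.rt = h.1 ↔ p.2.rt = h.2)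
  seq : ∀ b ∈ S, ∀ d ∈ S, (b.1 = d.1 ↔ b.2 = d.2)
  flip : ∀ b ∈ S, ∀ d ∈ S, ∀ p ∈ L, (Pt.flip A b.1 p.1 = d.1 ↔ Pt.flip A' b.2 p.2 = d.2)

end Pool.Agent.Lib.MP_0edfa1_lc
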