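import Pool.Agent.Lib.MP_0edfa1_lc.CombDefs

/-!
# Atomic facts which follow from the invariant of the game on combs
-/

set_option autoImplicit false

namespace Pool.Agent.Lib.MP_0edfa1_lc

section

variable {m n : ℕ} {A A' : Fin m → Bool} {r : ℕ}
  {S : List ((Fin m → Bool) × (Fin m → Bool))} {L : List (Pt m n × Pt m n)}
  {α β : ℕ} {D : Finset (Fin m × Fin m)}

theorem colour_eq_iff {j j' : Fin m} :
    colour A (S.map Prod.fst) j = colour A' (S.map Prod.snd) j' ↔
      A j = A' j' ∧ ∀ b ∈ S, b.1 j = b.2 j' := by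
  unfold colour
  rw [List.cons.injEq, List.map_map, List.map_map]
  refine and_congr_right fun _ => ?_
  rw [List.map_inj_left]
  rfl

theorem CInv.exists_left (h : CInv m n A A' r S L α β D) (j' : Fin m) :
    ∃ j, colour A (S.map Prod.fst) j = colour A' (S.map Prod.snd) j' ∧
      ∀ a ∈ D, (a.1 = j ↔ a.2 = j') := by
  by_cases hj : j' ∈ D.image Prod.snd
  · obtain ⟨a, ha, rfl⟩ := Finset.mem_image.1 hj
    exact ⟨a.1, h.col a ha, fun b hb => h.inj b hb a ha⟩
  · have h1 : j' ∈ free A' (S.map Prod.snd) (D.image Prod.snd)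
        (colour A' (S.map Prod.snd) j') := by
      simp only [free, Finset.mem_filter, Finset.mem_univ, true_and]
      exact ⟨hj, trivial⟩
    have h2 := Finset.card_pos.2 ⟨_, h1⟩
    have h3 : 0 < (free A (S.map Prod.fst) (D.image Prod.fst)
        (colour A' (S.map Prod.snd) j')).card := by
      rcases h.count (colour A' (S.map Prod.snd) j') with h4 | h4
      · omega
      · exact lt_of_lt_of_le (Nat.two_pow_pos r) h4.1
    obtain ⟨j, hj1⟩ := Finset.card_pos.1 h3
    simp only [free, Finset.mem_filter, Finset.mem_univ, true_and] at hj1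
    refine ⟨j, hj1.2, fun a ha => iff_of_false ?_ ?_⟩
    · rintro rfl
      exact hj1.1 (Finset.mem_image_of_mem _ ha)
    · rintro rfl
      exact hj (Finset.mem_image_of_mem _ ha)

theorem CInv.exists_right (h : CInv m n A A' r S L α β D) (j : Fin m) :
    ∃ j', colour A (S.map Prod.fst) j = colour A' (S.map Prod.snd) j' ∧
      ∀ a ∈ D, (a.1 = j ↔ a.2 = j') := by
  by_cases hj : j ∈ D.image Prod.fst
  · obtain ⟨a, ha, rfl⟩ := Finset.mem_image.1 hj
    exact ⟨a.2, h.col a ha, fun b hb => h.inj b hb a ha⟩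
  · have h1 : j ∈ free A (S.map Prod.fst) (D.image Prod.fst)
        (colour A (S.map Prod.fst) j) := by
      simp only [free, Finset.mem_filter, Finset.mem_univ, true_and]
      exact ⟨hj, trivial⟩
    have h2 := Finset.card_pos.2 ⟨_, h1⟩
    have h3 : 0 < (free A' (S.map Prod.snd) (D.image Prod.snd)
        (colour A (S.map Prod.fst) j)).card := by
      rcases h.count (colour A (S.map Prod.fst) j) with h4 | h4
      · omega
      · exact lt_of_lt_of_le (Nat.two_pow_pos r) h4.2
    obtain ⟨j', hj1⟩ := Finset.card_pos.1 h3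
    simp only [free, Finset.mem_filter, Finset.mem_univ, true_and] at hj1
    refine ⟨j', hj1.2.symm, fun a ha => iff_of_false ?_ ?_⟩
    · rintro rfl
      exact hj (Finset.mem_image_of_mem _ ha)
    · rintro rfl
      exact hj1.1 (Finset.mem_image_of_mem _ ha)

theorem CInv.gap2 (h : CInv m n A A' r S L α β D) : α + 2 ≤ β := by
  have h1 := h.gap
  have h2 : 1 ≤ 2 ^ r := Nat.one_le_two_pow
  have h3 : 2 ^ (r + 1) = 2 * 2 ^ r := by ring
  omega

theorem CInv.level (h : CInv m n A A' r S L α β D) {p : Pt m n × Pt m n} (hp : p ∈ L) :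
    p.2.2.val = p.1.2.val := by
  rcases h.pts p hp with ⟨h1, -⟩ | ⟨-, h1, -⟩
  · rw [h1]
  · rw [h1]

theorem CInv.isA (h : CInv m n A A' r S L α β D) {p : Pt m n × Pt m n} (hp : p ∈ L) :
    Pt.isA A p.1 = Pt.isA A' p.2 := by
  have hg := h.gap2
  have hl := h.le
  unfold Pt.isA
  rw [h.level hp]
  rcases h.pts p hp with ⟨h1, h2⟩ | ⟨h1, -, h2⟩
  · have h3 : ¬ (p.1.2.val = n) := by omega
    simp [h3]
  · have := (colour_eq_iff.1 (h.col _ h2)).1
    simp only at this
    rw [this]

theorem pt_eq_iff {p h : Pt m n} : p = h ↔ p.1.val = h.1.val ∧ p.2.val = h.2.val := by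
  rw [Prod.ext_iff, Fin.ext_iff, Fin.ext_iff]

theorem par_val (x : Pt m n) (hx : 0 < x.2.val) :
    (x.par).1.val = x.1.val ∧ (x.par).2.val = x.2.val - 1 := by
  unfold Pt.par
  rw [if_neg (by omega)]
  exact ⟨rfl, rfl⟩

theorem par_level (x : Pt m n) : (x.par).2.val ≤ x.2.val := by
  unfold Pt.par
  split_ifs <;> simp

theorem dn_val (x : Pt m n) (hx : x.2.val < n) :
    (x.dn).1.val = x.1.val ∧ (x.dn).2.val = x.2.val + 1 := by
  unfold Pt.dn
  rw [dif_pos hx]
  exact ⟨rfl, rfl⟩

theorem dn_eq_self (x : Pt m n) (hx : ¬ x.2.val < n) : x.dn = x := by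
  unfold Pt.dn
  rw [dif_neg hx]

theorem rt_eq_self (x : Pt m n) (hx : x.2.val ≠ 0) : x.rt = x := by
  unfold Pt.rt
  rw [dif_neg (by tauto)]

theorem rt_level (x : Pt m n) : (x.rt).2.val = x.2.val := by
  unfold Pt.rt
  split_ifs <;> simp

theorem flip_of_not {B b : Fin m → Bool} {x : Pt m n} (hx : Pt.isA B x = false) :
    Pt.flip B b x = b := by
  funext j
  simp [Pt.flip, hx]

theorem CInv.col_iff (h : CInv m n A A' r S L α β D) {a b : Fin m × Fin m} (ha : a ∈ D)
    (hb : b ∈ D) : a.1.val = b.1.val ↔ a.2.val = b.2.val := by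
  rw [← Fin.ext_iff, ← Fin.ext_iff]
  exact h.inj a ha b hb

theorem CInv.seq (h : CInv m n A A' r S L α β D) {b d : (Fin m → Bool) × (Fin m → Bool)}
    (hb : b ∈ S) (hd : d ∈ S) : b.1 = d.1 ↔ b.2 = d.2 := by
  constructor
  · intro he
    funext j'
    obtain ⟨j, hj, -⟩ := h.exists_left j'
    have := (colour_eq_iff.1 hj).2
    rw [← this b hb, ← this d hd, he]
  · intro he
    funext j
    obtain ⟨j', hj, -⟩ := h.exists_right j
    have := (colour_eq_iff.1 hj).2
    rw [this b hb, this d hd, he]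

theorem CInv.flip (h : CInv m n A A' r S L α β D) {b d : (Fin m → Bool) × (Fin m → Bool)}
    (hb : b ∈ S) (hd : d ∈ S) {p : Pt m n × Pt m n} (hp : p ∈ L) :
    Pt.flip A b.1 p.1 = d.1 ↔ Pt.flip A' b.2 p.2 = d.2 := by
  have hA := h.isA hp
  have hg := h.gap2
  have hl := h.le
  rcases Bool.eq_false_or_eq_true (Pt.isA A p.1) with hT | hF
  · have hD : (p.1.1, p.2.1) ∈ D := by
      rcases h.pts p hp with ⟨h1, h2⟩ | ⟨-, -, h2⟩
      · exfalso
        have : p.1.2.val = n := by
          unfold Pt.isA at hT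
          simp only [Bool.and_eq_true, decide_eq_true_eq] at hT
          exact hT.1
        omega
      · exact h2
    have hT' : Pt.isA A' p.2 = true := hA ▸ hT
    constructor
    · intro he
      funext j'
      obtain ⟨j, hj, hj2⟩ := h.exists_left j'
      have h1 := (colour_eq_iff.1 hj).2
      have h2 := hj2 _ hD
      have h3 := congrFun he j
      simp only [Pt.flip, hT, hT', Bool.true_and, decide_eq_true_eq] at h3 ⊢
      simp only at h2
      rw [← h1 b hb, ← h1 d hd, ← h3]
      by_cases hc : j = p.1.1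
      · rw [if_pos hc, if_pos (h2.1 hc.symm).symm]
      · rw [if_neg hc, if_neg (fun h' => hc (h2.2 h'.symm).symm)]
    · intro he
      funext j
      obtain ⟨j', hj, hj2⟩ := h.exists_right j
      have h1 := (colour_eq_iff.1 hj).2
      have h2 := hj2 _ hD
      have h3 := congrFun he j'
      simp only [Pt.flip, hT, hT', Bool.true_and, decide_eq_true_eq] at h3 ⊢
      simp only at h2
      rw [h1 b hb, h1 d hd, ← h3]
      by_cases hc : j = p.1.1
      · rw [if_pos hc, if_pos (h2.1 hc.symm).symm]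
      · rw [if_neg hc, if_neg (fun h' => hc (h2.2 h'.symm).symm)]
  · rw [flip_of_not hF, flip_of_not (hA ▸ hF)]
    exact h.seq hb hd

end

theorem CGame.facts {m n : ℕ} {A A' : Fin m → Bool} {r : ℕ}
    {S : List ((Fin m → Bool) × (Fin m → Bool))} {L : List (Pt m n × Pt m n)}
    (h : CGame m n A A' r S L) : CFacts m n A A' S L := by
  obtain ⟨α, β, D, h⟩ := h
  have hg := h.gap2
  have hl := h.le
  have hn : α < n := by omega
  refine ⟨?_, ?_, ?_, ?_, ?_, ?_, ?_, fun b hb d hd => h.seq hb hd,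
    fun b hb d hd p hp => h.flip hb hd hp⟩
  · -- olab
    intro p hp srt bit
    have h1 := h.isA hp
    have h2 := h.level hp
    unfold Pt.olab
    rw [h1, h2]
    rcases h.pts p hp with ⟨h3, -⟩ | ⟨h3, -, -⟩
    · rw [h3]
    · have h4 : ¬ (p.1.2.val = 0) := by omega
      simp [h4]
  · -- lt
    intro p hp q hq
    unfold Pt.lt
    rw [h.level hp, h.level hq]
    by_cases h0 : p.1.2.val = 0 ∧ q.1.2.val = 0
    · have h1 : p.1 = p.2 := by
        rcases h.pts p hp with ⟨h3, -⟩ | ⟨h3, -, -⟩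
        · exact h3
        · omega
      have h2 : q.1 = q.2 := by
        rcases h.pts q hq with ⟨h3, -⟩ | ⟨h3, -, -⟩
        · exact h3
        · omega
      rw [h1, h2]
    · rcases not_and_or.1 h0 with h1 | h1 <;> simp [h1]
  · -- bit
    intro p hp b hb
    rw [← h.isA hp]
    rcases h.pts p hp with ⟨h1, h2⟩ | ⟨-, -, h2⟩
    · have h3 : Pt.isA A p.1 = false := by
        unfold Pt.isA
        have h3 : ¬ (p.1.2.val = n) := by omega
        simp [h3]
      rw [h3]
      rfl
    · have := (colour_eq_iff.1 (h.col _ h2)).2 b hb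
      simp only at this
      rw [this]
  · -- eq
    intro p hp q hq
    have l1 := h.level hp
    have l2 := h.level hq
    rcases h.pts p hp with ⟨h1, h2⟩ | ⟨h1, -, h2⟩ <;> rcases h.pts q hq with ⟨h3, h4⟩ | ⟨h3, -, h4⟩
    · rw [h1, h3]
    · rw [pt_eq_iff, pt_eq_iff]
      omega
    · rw [pt_eq_iff, pt_eq_iff]
      omega
    · have := h.col_iff h2 h4
      simp only at this
      rw [pt_eq_iff, pt_eq_iff, this, l1, l2]
  · -- par
    intro p hp q hq
    have l1 := h.level hp
    have l2 := h.level hq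
    rcases h.pts p hp with ⟨h1, h2⟩ | ⟨h1, -, h2⟩
    · have p1 := par_level p.1
      have p2 := par_level p.2
      rcases h.pts q hq with ⟨h3, h4⟩ | ⟨h3, -, h4⟩
      · rw [h1, h3]
      · rw [pt_eq_iff, pt_eq_iff]
        omega
    · have p1 := par_val p.1 (by omega)
      have p2 := par_val p.2 (by omega)
      rcases h.pts q hq with ⟨h3, h4⟩ | ⟨h3, -, h4⟩
      · rw [pt_eq_iff, pt_eq_iff]
        omega
      · have := h.col_iff h2 h4
        simp only at this
        rw [pt_eq_iff, pt_eq_iff, p1.1, p1.2, p2.1, p2.2, this, l1, l2]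
  · -- dn
    intro p hp q hq
    have l1 := h.level hp
    have l2 := h.level hq
    by_cases hpn : p.1.2.val < n
    · have p1 := dn_val p.1 hpn
      have p2 := dn_val p.2 (by omega)
      rcases h.pts p hp with ⟨h1, h2⟩ | ⟨h1, -, h2⟩ <;>
        rcases h.pts q hq with ⟨h3, h4⟩ | ⟨h3, -, h4⟩
      · rw [h1, h3]
      · rw [pt_eq_iff, pt_eq_iff]
        omega
      · rw [pt_eq_iff, pt_eq_iff]
        omega
      · have := h.col_iff h2 h4
        simp only at this
        rw [pt_eq_iff, pt_eq_iff, p1.1, p1.2, p2.1, p2.2, this, l1, l2]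
    · rw [dn_eq_self _ hpn, dn_eq_self _ (by omega : ¬ p.2.2.val < n)]
      rcases h.pts p hp with ⟨h1, h2⟩ | ⟨h1, -, h2⟩ <;>
        rcases h.pts q hq with ⟨h3, h4⟩ | ⟨h3, -, h4⟩
      · rw [h1, h3]
      · rw [pt_eq_iff, pt_eq_iff]
        omega
      · rw [pt_eq_iff, pt_eq_iff]
        omega
      · have := h.col_iff h2 h4
        simp only at this
        rw [pt_eq_iff, pt_eq_iff, this, l1, l2]
  · -- rt
    intro p hp q hq
    have l1 := h.level hp
    have l2 := h.level hq
    rcases h.pts p hp with ⟨h1, h2⟩ | ⟨h1, -, h2⟩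
    · have p1 := rt_level p.1
      have p2 := rt_level p.2
      rcases h.pts q hq with ⟨h3, h4⟩ | ⟨h3, -, h4⟩
      · rw [h1, h3]
      · rw [pt_eq_iff, pt_eq_iff]
        omega
    · rw [rt_eq_self _ (by omega : p.1.2.val ≠ 0), rt_eq_self _ (by omega : p.2.2.val ≠ 0)]
      rcases h.pts q hq with ⟨h3, h4⟩ | ⟨h3, -, h4⟩
      · rw [pt_eq_iff, pt_eq_iff]
        omega
      · have := h.col_iff h2 h4
        simp only at this
        rw [pt_eq_iff, pt_eq_iff, this, l1, l2]

end Pool.Agent.Lib.MP_0edfa1_lc
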