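import Pool.Agent.Lib.MP_0edfa1_lc.CombDefs

/-!
# The game invariant on combs: initial position and moves
-/

set_option autoImplicit false

namespace Pool.Agent.Lib.MP_0edfa1_lc

open Finset

section aux

variable {m n : ℕ}

theorem mem_free {A : Fin m → Bool} {S : List (Fin m → Bool)} {D : Finset (Fin m)} {c : List Bool}
    {j : Fin m} : j ∈ free A S D c ↔ j ∉ D ∧ colour A S j = c := by
  simp [free]

theorem card_lt_fin {K : ℕ} (hK : K ≤ m) :
    (univ.filter fun j : Fin m => decide (j.val < K) = true).card = K := by
  have h : (univ.filter fun j : Fin m => decide (j.val < K) = true) =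
      (univ : Finset (Fin K)).map (Fin.castLEEmb hK) := by
    ext j
    simp only [mem_filter, mem_univ, true_and, decide_eq_true_eq, mem_map, Fin.castLEEmb_apply]
    constructor
    · intro h
      exact ⟨⟨j.val, h⟩, Fin.ext rfl⟩
    · rintro ⟨i, rfl⟩
      exact i.2
  rw [h, card_map, card_univ, Fintype.card_fin]

theorem free_nil (A : Fin m → Bool) (c : List Bool) :
    free A [] ∅ c = univ.filter fun j => [A j] = c := by
  simp [free, colour]

theorem CInv.weaken {A A' : Fin m → Bool} {r : ℕ}
    {S : List ((Fin m → Bool) × (Fin m → Bool))} {L : List (Pt m n × Pt m n)} {α β : ℕ}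
    {D : Finset (Fin m × Fin m)} (h : CInv m n A A' (r + 1) S L α β D) :
    CInv m n A A' r S L α β D where
  gap := by
    have := h.gap
    have h2 : 2 ^ (r + 1 + 1) = 2 * 2 ^ (r + 1) := by rw [pow_succ]; ring
    omega
  le := h.le
  inj := h.inj
  col := h.col
  pts := h.pts
  count := fun c => by
    rcases h.count c with h' | ⟨h1, h2⟩
    · exact Or.inl h'
    · have h3 : 2 ^ (r + 1) = 2 * 2 ^ r := by rw [pow_succ]; ring
      right; constructor <;> omega

end aux

theorem CGame.init (r : ℕ) : ∃ (m n : ℕ) (A A' : Fin m → Bool), 0 < m ∧ 0 < n ∧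
    Even (Finset.univ.filter fun j => A j = true).card ∧
    ¬ Even (Finset.univ.filter fun j => A' j = true).card ∧ CGame m n A A' r [] [] := by
  set K := 2 ^ (r + 1) with hK
  have hKpos : 0 < K := by positivity
  have hK2 : K = 2 * 2 ^ r := by rw [hK, pow_succ]; ring
  have c1 : (univ.filter fun j : Fin (2 * K + 1) => decide (j.val < K) = true).card = K :=
    card_lt_fin (by omega)
  have c2 : (univ.filter fun j : Fin (2 * K + 1) => decide (j.val < K + 1) = true).card = K + 1 :=
    card_lt_fin (by omega)
  have c3 : (univ.filter fun j : Fin (2 * K + 1) => ¬ decide (j.val < K) = true).card = K + 1 := by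
    have := card_filter_add_card_filter_not (s := (univ : Finset (Fin (2 * K + 1))))
      (fun j => decide (j.val < K) = true)
    rw [c1, card_univ, Fintype.card_fin] at this
    omega
  have c4 : (univ.filter fun j : Fin (2 * K + 1) => ¬ decide (j.val < K + 1) = true).card = K := by
    have := card_filter_add_card_filter_not (s := (univ : Finset (Fin (2 * K + 1))))
      (fun j => decide (j.val < K + 1) = true)
    rw [c2, card_univ, Fintype.card_fin] at this
    omega
  refine ⟨2 * K + 1, K, fun j => decide (j.val < K), fun j => decide (j.val < K + 1), by omega,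
    hKpos, ?_, ?_, 0, K, ∅, ?_⟩
  · rw [c1, hK2]; exact even_two_mul _
  · rw [c2, Nat.even_add_one, not_not, hK2]; exact even_two_mul _
  · refine ⟨by omega, le_rfl, by simp, by simp, by simp, ?_⟩
    intro c
    simp only [List.map_nil, image_empty, free_nil]
    match c with
    | [] => left; simp
    | [true] =>
      right
      have e1 : (univ.filter fun j : Fin (2 * K + 1) => [decide (j.val < K)] = [true]) =
          univ.filter fun j : Fin (2 * K + 1) => decide (j.val < K) = true := by
        apply filter_congr; intro j _; simp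
      have e2 : (univ.filter fun j : Fin (2 * K + 1) => [decide (j.val < K + 1)] = [true]) =
          univ.filter fun j : Fin (2 * K + 1) => decide (j.val < K + 1) = true := by
        apply filter_congr; intro j _; simp
      rw [e1, e2, c1, c2]
      constructor <;> omega
    | [false] =>
      right
      have e1 : (univ.filter fun j : Fin (2 * K + 1) => [decide (j.val < K)] = [false]) =
          univ.filter fun j : Fin (2 * K + 1) => ¬ decide (j.val < K) = true := by
        apply filter_congr; intro j _; simp
      have e2 : (univ.filter fun j : Fin (2 * K + 1) => [decide (j.val < K + 1)] = [false]) =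
          univ.filter fun j : Fin (2 * K + 1) => ¬ decide (j.val < K + 1) = true := by
        apply filter_congr; intro j _; simp
      rw [e1, e2, c3, c4]
      constructor <;> omega
    | x :: y :: t => left; simp

theorem CGame.symm {m n : ℕ} {A A' : Fin m → Bool} {r : ℕ}
    {S : List ((Fin m → Bool) × (Fin m → Bool))} {L : List (Pt m n × Pt m n)}
    (h : CGame m n A A' r S L) : CGame m n A' A r (S.map Prod.swap) (L.map Prod.swap) := by
  obtain ⟨α, β, D, h⟩ := h
  have e1 : (S.map Prod.swap).map Prod.fst = S.map Prod.snd := by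
    rw [List.map_map]; rfl
  have e2 : (S.map Prod.swap).map Prod.snd = S.map Prod.fst := by
    rw [List.map_map]; rfl
  have e3 : (D.image Prod.swap).image Prod.fst = D.image Prod.snd := by
    rw [image_image]; rfl
  have e4 : (D.image Prod.swap).image Prod.snd = D.image Prod.fst := by
    rw [image_image]; rfl
  refine ⟨α, β, D.image Prod.swap, h.gap, h.le, ?_, ?_, ?_, ?_⟩
  · intro a ha b hb
    rw [mem_image] at ha hb
    obtain ⟨a', ha', rfl⟩ := ha
    obtain ⟨b', hb', rfl⟩ := hb
    exact (h.inj a' ha' b' hb').symm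
  · intro a ha
    rw [mem_image] at ha
    obtain ⟨a', ha', rfl⟩ := ha
    rw [e1, e2]
    exact (h.col a' ha').symm
  · intro p hp
    rw [List.mem_map] at hp
    obtain ⟨q, hq, rfl⟩ := hp
    rcases h.pts q hq with ⟨h1, h2⟩ | ⟨h1, h2, h3⟩
    · left
      refine ⟨h1.symm, ?_⟩
      change q.2.2.val ≤ α
      rw [← h1]; exact h2
    · right
      refine ⟨?_, h2.symm, ?_⟩
      · change β ≤ q.2.2.val
        rw [h2]; exact h1
      · rw [mem_image]
        exact ⟨(q.1.1, q.2.1), h3, rfl⟩
  · intro c
    rw [e1, e2, e3, e4]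
    rcases h.count c with h' | ⟨h1, h2⟩
    · exact Or.inl h'.symm
    · exact Or.inr ⟨h2, h1⟩

theorem CGame.pred {m n : ℕ} {A A' : Fin m → Bool} {r : ℕ}
    {S : List ((Fin m → Bool) × (Fin m → Bool))} {L : List (Pt m n × Pt m n)}
    (h : CGame m n A A' (r + 1) S L) : CGame m n A A' r S L := by
  obtain ⟨α, β, D, h⟩ := h
  exact ⟨α, β, D, h.weaken⟩

/-- a point that is treated as a bottom point -/
theorem CInv.bottom {m n : ℕ} {A A' : Fin m → Bool} {r : ℕ}
    {S : List ((Fin m → Bool) × (Fin m → Bool))} {L : List (Pt m n × Pt m n)} {α β : ℕ}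
    {D : Finset (Fin m × Fin m)} (h : CInv m n A A' (r + 1) S L α β D) {β' : ℕ}
    (h1 : β' ≤ β) (h2 : α + 2 ^ (r + 1) ≤ β') (p : Pt m n) (hp : β' ≤ p.2.val) :
    ∃ p', CGame m n A A' r S ((p, p') :: L) := by
  have hpow : 2 ^ (r + 1) = 2 * 2 ^ r := by rw [pow_succ]; ring
  have hpos : 0 < 2 ^ r := by positivity
  by_cases hj : ∃ j', (p.1, j') ∈ D
  · obtain ⟨j', hj'⟩ := hj
    refine ⟨(j', p.2), α, β', D, h2, h1.trans h.le, h.inj, h.col, ?_, h.weaken.count⟩
    intro q hq
    rw [List.mem_cons] at hq
    rcases hq with rfl | hq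
    · exact Or.inr ⟨hp, rfl, hj'⟩
    · rcases h.pts q hq with h' | ⟨a, b, c⟩
      · exact Or.inl h'
      · exact Or.inr ⟨h1.trans a, b, c⟩
  · have hnot : p.1 ∉ D.image Prod.fst := by
      intro hmem
      rw [mem_image] at hmem
      obtain ⟨a, ha, hap⟩ := hmem
      exact hj ⟨a.2, by rw [← hap]; exact ha⟩
    set c := colour A (S.map Prod.fst) p.1 with hc
    have hmem : p.1 ∈ free A (S.map Prod.fst) (D.image Prod.fst) c := mem_free.2 ⟨hnot, hc.symm⟩
    have hne : (free A' (S.map Prod.snd) (D.image Prod.snd) c).Nonempty := by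
      rw [← card_pos]
      rcases h.count c with h' | ⟨-, h'⟩
      · rw [← h']; exact card_pos.2 ⟨_, hmem⟩
      · exact lt_of_lt_of_le (by positivity) h'
    obtain ⟨j', hj'⟩ := hne
    have hj'' := mem_free.1 hj'
    refine ⟨(j', p.2), α, β', insert (p.1, j') D, h2, h1.trans h.le, ?_, ?_, ?_, ?_⟩
    · intro a ha b hb
      rw [mem_insert] at ha hb
      have key : ∀ d ∈ D, d.1 ≠ p.1 ∧ d.2 ≠ j' := by
        intro d hd
        constructor
        · intro e; exact hnot (mem_image.2 ⟨d, hd, e⟩)
        · intro e; exact hj''.1 (mem_image.2 ⟨d, hd, e⟩)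
      rcases ha with rfl | ha <;> rcases hb with rfl | hb
      · simp
      · have := key b hb
        exact ⟨fun e => absurd e.symm this.1, fun e => absurd e.symm this.2⟩
      · have := key a ha
        exact ⟨fun e => absurd e this.1, fun e => absurd e this.2⟩
      · exact h.inj a ha b hb
    · intro a ha
      rw [mem_insert] at ha
      rcases ha with rfl | ha
      · exact hj''.2.symm
      · exact h.col a ha
    · intro q hq
      rw [List.mem_cons] at hq
      rcases hq with rfl | hq
      · exact Or.inr ⟨hp, rfl, mem_insert_self _ _⟩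
      · rcases h.pts q hq with h' | ⟨a, b, c⟩
        · exact Or.inl h'
        · exact Or.inr ⟨h1.trans a, b, mem_insert_of_mem c⟩
    · intro d
      have e1 : free A (S.map Prod.fst) ((insert (p.1, j') D).image Prod.fst) d =
          (free A (S.map Prod.fst) (D.image Prod.fst) d).erase p.1 := by
        ext x
        rw [mem_free, mem_erase, mem_free, image_insert, mem_insert]
        tauto
      have e2 : free A' (S.map Prod.snd) ((insert (p.1, j') D).image Prod.snd) d =
          (free A' (S.map Prod.snd) (D.image Prod.snd) d).erase j' := by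
        ext x
        rw [mem_free, mem_erase, mem_free, image_insert, mem_insert]
        tauto
      rw [e1, e2]
      by_cases hd : d = c
      · subst hd
        rw [card_erase_of_mem hmem, card_erase_of_mem hj']
        rcases h.count c with h' | ⟨a1, a2⟩
        · left; rw [h']
        · right; omega
      · rw [erase_eq_of_notMem, erase_eq_of_notMem]
        · exact h.weaken.count d
        · rw [mem_free]
          rintro ⟨-, e⟩
          exact hd (e.symm.trans hj''.2)
        · rw [mem_free]
          rintro ⟨-, e⟩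
          exact hd e.symm

theorem CGame.point {m n : ℕ} {A A' : Fin m → Bool} {r : ℕ}
    {S : List ((Fin m → Bool) × (Fin m → Bool))} {L : List (Pt m n × Pt m n)}
    (h : CGame m n A A' (r + 1) S L) (p : Pt m n) :
    ∃ p', CGame m n A A' r S ((p, p') :: L) := by
  obtain ⟨α, β, D, h⟩ := h
  have hgap := h.gap
  have hpow : 2 ^ (r + 1 + 1) = 2 * 2 ^ (r + 1) := by rw [pow_succ]; ring
  have hpos : 0 < 2 ^ (r + 1) := by positivity
  by_cases h1 : p.2.val ≤ α
  · refine ⟨p, α, β, D, h.weaken.gap, h.le, h.inj, h.col, ?_, h.weaken.count⟩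
    intro q hq
    rw [List.mem_cons] at hq
    rcases hq with rfl | hq
    · exact Or.inl ⟨rfl, h1⟩
    · exact h.pts q hq
  · by_cases h2 : β ≤ p.2.val
    · exact h.bottom le_rfl (by omega) p h2
    · by_cases h3 : p.2.val + 2 ^ (r + 1) ≤ β
      · refine ⟨p, p.2.val, β, D, h3, h.le, h.inj, h.col, ?_, h.weaken.count⟩
        intro q hq
        rw [List.mem_cons] at hq
        rcases hq with rfl | hq
        · exact Or.inl ⟨rfl, le_rfl⟩
        · rcases h.pts q hq with ⟨a, b⟩ | h'
          · exact Or.inl ⟨a, by omega⟩
          · exact Or.inr h'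
      · exact h.bottom (β' := p.2.val) (by omega) (by omega) p le_rfl

/-- the number of elements to choose in the right class -/
theorem exists_split {r x y R : ℕ} (h : x + y = R ∨ (2 ^ (r + 1) ≤ x + y ∧ 2 ^ (r + 1) ≤ R)) :
    ∃ k ≤ R, (x = k ∨ (2 ^ r ≤ x ∧ 2 ^ r ≤ k)) ∧ (y = R - k ∨ (2 ^ r ≤ y ∧ 2 ^ r ≤ R - k)) := by
  have hpow : 2 ^ (r + 1) = 2 * 2 ^ r := by rw [pow_succ]; ring
  rcases h with h | ⟨h1, h2⟩
  · exact ⟨x, by omega, Or.inl rfl, Or.inl (by omega)⟩
  · by_cases hx : x < 2 ^ r
    · exact ⟨x, by omega, Or.inl rfl, Or.inr (by omega)⟩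
    · by_cases hy : y < 2 ^ r
      · exact ⟨R - y, by omega, Or.inr (by omega), Or.inl (by omega)⟩
      · exact ⟨2 ^ r, by omega, Or.inr (by omega), Or.inr (by omega)⟩

theorem free_cons {m : ℕ} (A : Fin m → Bool) (b : Fin m → Bool) (S : List (Fin m → Bool))
    (D : Finset (Fin m)) (x y : Bool) (t : List Bool) :
    free A (b :: S) D (x :: y :: t) = (free A S D (x :: t)).filter fun j => b j = y := by
  ext j
  rw [mem_free, mem_filter, mem_free]
  simp only [colour, List.map_cons, List.cons.injEq]
  tauto

theorem free_cons_nil {m : ℕ} (A : Fin m → Bool) (b : Fin m → Bool) (S : List (Fin m → Bool))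
    (D : Finset (Fin m)) (c : List Bool) (hc : ∀ x y t, c ≠ x :: y :: t) :
    free A (b :: S) D c = ∅ := by
  apply eq_empty_of_forall_notMem
  intro j hj
  rw [mem_free] at hj
  exact hc (A j) (b j) _ hj.2.symm

theorem CGame.set {m n : ℕ} {A A' : Fin m → Bool} {r : ℕ}
    {S : List ((Fin m → Bool) × (Fin m → Bool))} {L : List (Pt m n × Pt m n)}
    (h : CGame m n A A' (r + 1) S L) (b : Fin m → Bool) :
    ∃ b', CGame m n A A' r ((b, b') :: S) L := by
  classical
  obtain ⟨α, β, D, h⟩ := h
  have hsplit : ∀ c : List Bool, ∃ T ⊆ free A' (S.map Prod.snd) (D.image Prod.snd) c,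
      (((free A (S.map Prod.fst) (D.image Prod.fst) c).filter fun j => b j = true).card = T.card ∨
        (2 ^ r ≤ ((free A (S.map Prod.fst) (D.image Prod.fst) c).filter fun j => b j = true).card ∧
          2 ^ r ≤ T.card)) ∧
      (((free A (S.map Prod.fst) (D.image Prod.fst) c).filter fun j => b j = false).card =
          (free A' (S.map Prod.snd) (D.image Prod.snd) c).card - T.card ∨
        (2 ^ r ≤ ((free A (S.map Prod.fst) (D.image Prod.fst) c).filter fun j => b j = false).card ∧
          2 ^ r ≤ (free A' (S.map Prod.snd) (D.image Prod.snd) c).card - T.card)) := by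
    intro c
    have hsum : ((free A (S.map Prod.fst) (D.image Prod.fst) c).filter fun j => b j = true).card +
        ((free A (S.map Prod.fst) (D.image Prod.fst) c).filter fun j => b j = false).card =
        (free A (S.map Prod.fst) (D.image Prod.fst) c).card := by
      have := card_filter_add_card_filter_not (s := free A (S.map Prod.fst) (D.image Prod.fst) c)
        (fun j => b j = true)
      rw [← this]
      congr 2
      apply filter_congr
      intro j _
      simp
    have hcount := h.count c
    rw [← hsum] at hcount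
    obtain ⟨k, hk, h1, h2⟩ := exists_split hcount
    obtain ⟨T, hT, hTk⟩ := exists_subset_card_eq hk
    refine ⟨T, hT, ?_, ?_⟩
    · rw [hTk]; exact h1
    · rw [hTk]; exact h2
  choose T hT hT1 hT2 using hsplit
  let b' : Fin m → Bool := fun j' =>
    if hj : ∃ j, (j, j') ∈ D then b hj.choose else
      decide (j' ∈ T (colour A' (S.map Prod.snd) j'))
  have hb1 : ∀ a ∈ D, b' a.2 = b a.1 := by
    intro a ha
    have hex : ∃ j, (j, a.2) ∈ D := ⟨a.1, ha⟩
    have e : b' a.2 = b hex.choose := dif_pos hex
    rw [e]
    congr 1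
    exact (h.inj (hex.choose, a.2) hex.choose_spec a ha).2 rfl
  have hb2 : ∀ j' c, j' ∈ free A' (S.map Prod.snd) (D.image Prod.snd) c →
      b' j' = decide (j' ∈ T c) := by
    intro j' c hj'
    rw [mem_free] at hj'
    have hno : ¬ ∃ j, (j, j') ∈ D := by
      rintro ⟨j, hj⟩
      exact hj'.1 (mem_image.2 ⟨_, hj, rfl⟩)
    have e : b' j' = decide (j' ∈ T (colour A' (S.map Prod.snd) j')) := dif_neg hno
    rw [e, hj'.2]
  refine ⟨b', α, β, D, h.weaken.gap, h.le, h.inj, ?_, h.pts, ?_⟩
  · intro a ha
    have h1 := h.col a ha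
    simp only [colour, List.cons.injEq] at h1
    simp only [colour, List.map_cons, List.cons.injEq]
    exact ⟨h1.1, (hb1 a ha).symm, h1.2⟩
  · intro c
    by_cases hc : ∃ x y t, c = x :: y :: t
    · obtain ⟨x, y, t, rfl⟩ := hc
      simp only [List.map_cons]
      rw [free_cons, free_cons]
      have hr1 : ((free A' (S.map Prod.snd) (D.image Prod.snd) (x :: t)).filter
          fun j => b' j = true) = T (x :: t) := by
        ext j
        rw [mem_filter]
        constructor
        · rintro ⟨h1, h2⟩
          rw [hb2 j _ h1] at h2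
          exact of_decide_eq_true h2
        · intro hj
          have := hT (x :: t) hj
          exact ⟨this, by rw [hb2 j _ this]; exact decide_eq_true hj⟩
      have hr2 : ((free A' (S.map Prod.snd) (D.image Prod.snd) (x :: t)).filter
          fun j => b' j = false) =
          (free A' (S.map Prod.snd) (D.image Prod.snd) (x :: t)) \ T (x :: t) := by
        ext j
        rw [mem_filter, mem_sdiff]
        constructor
        · rintro ⟨h1, h2⟩
          rw [hb2 j _ h1] at h2
          exact ⟨h1, of_decide_eq_false h2⟩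
        · rintro ⟨h1, h2⟩
          exact ⟨h1, by rw [hb2 j _ h1]; exact decide_eq_false h2⟩
      cases y with
      | true => rw [hr1]; exact hT1 (x :: t)
      | false =>
        rw [hr2, card_sdiff_of_subset (hT (x :: t))]
        exact hT2 (x :: t)
    · push Not at hc
      left
      simp only [List.map_cons]
      rw [free_cons_nil _ _ _ _ _ (fun x y t => hc x y t),
        free_cons_nil _ _ _ _ _ (fun x y t => hc x y t)]

end Pool.Agent.Lib.MP_0edfa1_lc
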