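import Pool.Agent.Lib.MP_0edfa1_lc.EF
import Pool.Agent.Lib.MP_0edfa1_lc.CombInv
import Pool.Agent.Lib.MP_0edfa1_lc.CombFact

/-!
# The game on the graphs of two combs
-/

set_option autoImplicit false

namespace Pool.Agent.Lib.MP_0edfa1_lc

section

variable {m n : ℕ}

/-- Objects of the same shape whose points are pairs in `L` and whose sets are pairs in `S`. -/
inductive OM (S : List ((Fin m → Bool) × (Fin m → Bool))) (L : List (Pt m n × Pt m n)) :
    Obj m n → Obj m n → Prop
  | x (p : Pt m n × Pt m n) (hp : p ∈ L) : OM S L (.x p.1) (.x p.2)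
  | k (h p : Pt m n × Pt m n) (hh : h ∈ L) (hp : p ∈ L) : OM S L (.k h.1 p.1) (.k h.2 p.2)
  | s (b : (Fin m → Bool) × (Fin m → Bool)) (hb : b ∈ S) : OM S L (.s b.1) (.s b.2)
  | c (b : (Fin m → Bool) × (Fin m → Bool)) (p : Pt m n × Pt m n) (hb : b ∈ S) (hp : p ∈ L) :
      OM S L (.c b.1 p.1) (.c b.2 p.2)
  | t (b : (Fin m → Bool) × (Fin m → Bool)) (h p : Pt m n × Pt m n) (hb : b ∈ S) (hh : h ∈ L)
      (hp : p ∈ L) : OM S L (.t b.1 h.1 p.1) (.t b.2 h.2 p.2)

/-- Nodes of the same shape over matching objects. -/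
inductive NM (S : List ((Fin m → Bool) × (Fin m → Bool))) (L : List (Pt m n × Pt m n)) :
    Node (Obj m n) → Node (Obj m n) → Prop
  | top : NM S L .top .top
  | obj (o o' : Obj m n) (h : OM S L o o') : NM S L (.obj o) (.obj o')
  | out (o o' : Obj m n) (i : Ptr) (h : OM S L o o') : NM S L (.out o i) (.out o' i)
  | inn (o o' : Obj m n) (i : Ptr) (h : OM S L o o') : NM S L (.inn o i) (.inn o' i)

variable {S S' : List ((Fin m → Bool) × (Fin m → Bool))} {L L' : List (Pt m n × Pt m n)}
  {A A' : Fin m → Bool}

theorem OM.mono {o o' : Obj m n} (h : OM S L o o') (hS : S ⊆ S') (hL : L ⊆ L') :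
    OM S' L' o o' := by
  cases h with
  | x p hp => exact .x p (hL hp)
  | k h p hh hp => exact .k h p (hL hh) (hL hp)
  | s b hb => exact .s b (hS hb)
  | c b p hb hp => exact .c b p (hS hb) (hL hp)
  | t b h p hb hh hp => exact .t b h p (hS hb) (hL hh) (hL hp)

theorem NM.mono {o o' : Node (Obj m n)} (h : NM S L o o') (hS : S ⊆ S') (hL : L ⊆ L') :
    NM S' L' o o' := by
  cases h with
  | top => exact .top
  | obj o o' h => exact .obj o o' (h.mono hS hL)
  | out o o' i h => exact .out o o' i (h.mono hS hL)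
  | inn o o' i h => exact .inn o o' i (h.mono hS hL)

theorem OM.swap {o o' : Obj m n} (h : OM S L o o') :
    OM (S.map Prod.swap) (L.map Prod.swap) o' o := by
  cases h with
  | x p hp => exact .x p.swap (List.mem_map_of_mem hp)
  | k h p hh hp => exact .k h.swap p.swap (List.mem_map_of_mem hh) (List.mem_map_of_mem hp)
  | s b hb => exact .s b.swap (List.mem_map_of_mem hb)
  | c b p hb hp => exact .c b.swap p.swap (List.mem_map_of_mem hb) (List.mem_map_of_mem hp)
  | t b h p hb hh hp =>
    exact .t b.swap h.swap p.swap (List.mem_map_of_mem hb) (List.mem_map_of_mem hh)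
      (List.mem_map_of_mem hp)

theorem NM.swap {o o' : Node (Obj m n)} (h : NM S L o o') :
    NM (S.map Prod.swap) (L.map Prod.swap) o' o := by
  cases h with
  | top => exact .top
  | obj o o' h => exact .obj o' o h.swap
  | out o o' i h => exact .out o' o i h.swap
  | inn o o' i h => exact .inn o' o i h.swap

theorem OM.lab (F : CFacts m n A A' S L) {o o' : Obj m n} (h : OM S L o o') :
    (comb m n A).lab o = (comb m n A').lab o' := by
  cases h with
  | x p hp => exact F.olab p hp _ _
  | k h p hh hp =>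
    show Pt.olab A .K p.1 (Pt.lt p.1 h.1) = Pt.olab A' .K p.2 (Pt.lt p.2 h.2)
    rw [F.lt p hp h hh]
    exact F.olab p hp _ _
  | s b hb => rfl
  | c b p hb hp =>
    show Pt.olab A .C p.1 (Pt.isA A p.1 && b.1 p.1.1) =
      Pt.olab A' .C p.2 (Pt.isA A' p.2 && b.2 p.2.1)
    rw [F.bit p hp b hb]
    exact F.olab p hp _ _
  | t b h p hb hh hp => exact F.olab p hp _ _

theorem OM.eq_iff (F : CFacts m n A A' S L) {o1 o1' o2 o2' : Obj m n} (h1 : OM S L o1 o1')
    (h2 : OM S L o2 o2') : o1 = o2 ↔ o1' = o2' := by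
  cases h1 with
  | x p hp =>
    cases h2 with
    | x q hq => rw [Obj.x.injEq, Obj.x.injEq]; exact F.eq p hp q hq
    | k h q hh hq => simp
    | s d hd => simp
    | c d q hd hq => simp
    | t d h q hd hh hq => simp
  | k g p hg hp =>
    cases h2 with
    | x q hq => simp
    | k h q hh hq => rw [Obj.k.injEq, Obj.k.injEq, F.eq p hp q hq, F.eq g hg h hh]
    | s d hd => simp
    | c d q hd hq => simp
    | t d h q hd hh hq => simp
  | s b hb =>
    cases h2 with
    | x q hq => simp
    | k h q hh hq => simp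
    | s d hd => rw [Obj.s.injEq, Obj.s.injEq]; exact F.seq b hb d hd
    | c d q hd hq => simp
    | t d h q hd hh hq => simp
  | c b p hb hp =>
    cases h2 with
    | x q hq => simp
    | k h q hh hq => simp
    | s d hd => simp
    | c d q hd hq => rw [Obj.c.injEq, Obj.c.injEq, F.seq b hb d hd, F.eq p hp q hq]
    | t d h q hd hh hq => simp
  | t b g p hb hg hp =>
    cases h2 with
    | x q hq => simp
    | k h q hh hq => simp
    | s d hd => simp
    | c d q hd hq => simp
    | t d h q hd hh hq =>
      rw [Obj.t.injEq, Obj.t.injEq, F.seq b hb d hd, F.eq p hp q hq, F.eq g hg h hh]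

theorem OM.ptr_iff (F : CFacts m n A A' S L) {o1 o1' o2 o2' : Obj m n} (i : Ptr)
    (h1 : OM S L o1 o1') (h2 : OM S L o2 o2') :
    (comb m n A).ptr i o1 = o2 ↔ (comb m n A').ptr i o1' = o2' := by
  have hE := OM.eq_iff F h1 h2
  cases h1 with
  | x p hp =>
    cases i with
    | par =>
      show Obj.x p.1.par = o2 ↔ Obj.x p.2.par = o2'
      cases h2 with
      | x q hq => rw [Obj.x.injEq, Obj.x.injEq]; exact F.par p hp q hq
      | k h q hh hq => simp
      | s d hd => simp
      | c d q hd hq => simp
      | t d h q hd hh hq => simp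
    | dn =>
      show Obj.x p.1.dn = o2 ↔ Obj.x p.2.dn = o2'
      cases h2 with
      | x q hq => rw [Obj.x.injEq, Obj.x.injEq]; exact F.dn p hp q hq
      | k h q hh hq => simp
      | s d hd => simp
      | c d q hd hq => simp
      | t d h q hd hh hq => simp
    | rt =>
      show Obj.x p.1.rt = o2 ↔ Obj.x p.2.rt = o2'
      cases h2 with
      | x q hq => rw [Obj.x.injEq, Obj.x.injEq]; exact F.rt p hp q hq
      | k h q hh hq => simp
      | s d hd => simp
      | c d q hd hq => simp
      | t d h q hd hh hq => simp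
    | hub => exact hE
    | pos => exact hE
    | qa => exact hE
    | qb => exact hE
  | k g p hg hp =>
    cases i with
    | par =>
      show Obj.k g.1 p.1.par = o2 ↔ Obj.k g.2 p.2.par = o2'
      cases h2 with
      | x q hq => simp
      | k h q hh hq => rw [Obj.k.injEq, Obj.k.injEq, F.par p hp q hq, F.eq g hg h hh]
      | s d hd => simp
      | c d q hd hq => simp
      | t d h q hd hh hq => simp
    | dn =>
      show Obj.k g.1 p.1.dn = o2 ↔ Obj.k g.2 p.2.dn = o2'
      cases h2 with
      | x q hq => simp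
      | k h q hh hq => rw [Obj.k.injEq, Obj.k.injEq, F.dn p hp q hq, F.eq g hg h hh]
      | s d hd => simp
      | c d q hd hq => simp
      | t d h q hd hh hq => simp
    | rt =>
      show Obj.k g.1 p.1.rt = o2 ↔ Obj.k g.2 p.2.rt = o2'
      cases h2 with
      | x q hq => simp
      | k h q hh hq => rw [Obj.k.injEq, Obj.k.injEq, F.rt p hp q hq, F.eq g hg h hh]
      | s d hd => simp
      | c d q hd hq => simp
      | t d h q hd hh hq => simp
    | hub => exact OM.eq_iff F (.x g hg) h2
    | pos => exact OM.eq_iff F (.x p hp) h2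
    | qa => exact hE
    | qb => exact hE
  | s b hb =>
    cases i <;> exact hE
  | c b p hb hp =>
    cases i with
    | par =>
      show Obj.c b.1 p.1.par = o2 ↔ Obj.c b.2 p.2.par = o2'
      cases h2 with
      | x q hq => simp
      | k h q hh hq => simp
      | s d hd => simp
      | c d q hd hq => rw [Obj.c.injEq, Obj.c.injEq, F.par p hp q hq, F.seq b hb d hd]
      | t d h q hd hh hq => simp
    | dn =>
      show Obj.c b.1 p.1.dn = o2 ↔ Obj.c b.2 p.2.dn = o2'
      cases h2 with
      | x q hq => simp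
      | k h q hh hq => simp
      | s d hd => simp
      | c d q hd hq => rw [Obj.c.injEq, Obj.c.injEq, F.dn p hp q hq, F.seq b hb d hd]
      | t d h q hd hh hq => simp
    | rt =>
      show Obj.c b.1 p.1.rt = o2 ↔ Obj.c b.2 p.2.rt = o2'
      cases h2 with
      | x q hq => simp
      | k h q hh hq => simp
      | s d hd => simp
      | c d q hd hq => rw [Obj.c.injEq, Obj.c.injEq, F.rt p hp q hq, F.seq b hb d hd]
      | t d h q hd hh hq => simp
    | hub => exact OM.eq_iff F (.s b hb) h2
    | pos => exact OM.eq_iff F (.x p hp) h2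
    | qa =>
      show Obj.c (Pt.flip A b.1 p.1) p.1 = o2 ↔ Obj.c (Pt.flip A' b.2 p.2) p.2 = o2'
      cases h2 with
      | x q hq => simp
      | k h q hh hq => simp
      | s d hd => simp
      | c d q hd hq => rw [Obj.c.injEq, Obj.c.injEq, F.eq p hp q hq, F.flip b hb d hd p hp]
      | t d h q hd hh hq => simp
    | qb => exact hE
  | t b g p hb hg hp =>
    cases i with
    | par =>
      show Obj.t b.1 g.1 p.1.par = o2 ↔ Obj.t b.2 g.2 p.2.par = o2'
      cases h2 with
      | x q hq => simp
      | k h q hh hq => simp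
      | s d hd => simp
      | c d q hd hq => simp
      | t d h q hd hh hq =>
        rw [Obj.t.injEq, Obj.t.injEq, F.par p hp q hq, F.seq b hb d hd, F.eq g hg h hh]
    | dn =>
      show Obj.t b.1 g.1 p.1.dn = o2 ↔ Obj.t b.2 g.2 p.2.dn = o2'
      cases h2 with
      | x q hq => simp
      | k h q hh hq => simp
      | s d hd => simp
      | c d q hd hq => simp
      | t d h q hd hh hq =>
        rw [Obj.t.injEq, Obj.t.injEq, F.dn p hp q hq, F.seq b hb d hd, F.eq g hg h hh]
    | rt =>
      show Obj.t b.1 g.1 p.1.rt = o2 ↔ Obj.t b.2 g.2 p.2.rt = o2'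
      cases h2 with
      | x q hq => simp
      | k h q hh hq => simp
      | s d hd => simp
      | c d q hd hq => simp
      | t d h q hd hh hq =>
        rw [Obj.t.injEq, Obj.t.injEq, F.rt p hp q hq, F.seq b hb d hd, F.eq g hg h hh]
    | hub => exact OM.eq_iff F (.c b g hb hg) h2
    | pos => exact OM.eq_iff F (.x p hp) h2
    | qa => exact OM.eq_iff F (.c b p hb hp) h2
    | qb =>
      show Obj.c (Pt.flip A b.1 g.1) p.1 = o2 ↔ Obj.c (Pt.flip A' b.2 g.2) p.2 = o2'
      cases h2 with
      | x q hq => simp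
      | k h q hh hq => simp
      | s d hd => simp
      | c d q hd hq => rw [Obj.c.injEq, Obj.c.injEq, F.eq p hp q hq, F.flip b hb d hd g hg]
      | t d h q hd hh hq => simp

theorem NM.eq_iff (F : CFacts m n A A' S L) {a a' b b' : Node (Obj m n)} (h1 : NM S L a a')
    (h2 : NM S L b b') : a = b ↔ a' = b' := by
  cases h1 with
  | top => cases h2 <;> simp
  | obj o o' h =>
    cases h2 with
    | obj d d' g => rw [Node.obj.injEq, Node.obj.injEq]; exact OM.eq_iff F h g
    | _ => simp
  | out o o' i h =>
    cases h2 with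
    | out d d' j g => rw [Node.out.injEq, Node.out.injEq, OM.eq_iff F h g]
    | _ => simp
  | inn o o' i h =>
    cases h2 with
    | inn d d' j g => rw [Node.inn.injEq, Node.inn.injEq, OM.eq_iff F h g]
    | _ => simp

theorem NM.edge (F : CFacts m n A A' S L) {a a' b b' : Node (Obj m n)} (h1 : NM S L a a')
    (h2 : NM S L b b') (h : (comb m n A).Edge a b) : (comb m n A').Edge a' b' := by
  cases h with
  | top_obj o => cases h1; cases h2; exact .top_obj _
  | top_out o i => cases h1; cases h2; exact .top_out _ _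
  | top_inn o i => cases h1; cases h2; exact .top_inn _ _
  | obj_out o i =>
    cases h1 with
    | obj _ o' h1 =>
      cases h2 with
      | out _ o'' _ h2 =>
        have := (OM.eq_iff F h1 h2).1 rfl
        subst this
        exact .obj_out _ _
  | out_inn o i =>
    cases h1 with
    | out _ o' _ h1 =>
      cases h2 with
      | inn _ o'' _ h2 =>
        have := (OM.eq_iff F h1 h2).1 rfl
        subst this
        exact .out_inn _ _
  | inn_obj o i =>
    cases h1 with
    | inn _ o' _ h1 =>
      cases h2 with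
      | obj _ o'' h2 =>
        have := (OM.ptr_iff F i h1 h2).1 rfl
        subst this
        exact .inn_obj _ _

theorem NM.edge' (F : CFacts m n A A' S L) {a a' b b' : Node (Obj m n)} (h1 : NM S L a a')
    (h2 : NM S L b b') (h : (comb m n A').Edge a' b') : (comb m n A).Edge a b := by
  cases h with
  | top_obj o => cases h1; cases h2; exact .top_obj _
  | top_out o i => cases h1; cases h2; exact .top_out _ _
  | top_inn o i => cases h1; cases h2; exact .top_inn _ _
  | obj_out o i =>
    cases h1 with
    | obj o' _ h1 =>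
      cases h2 with
      | out o'' _ _ h2 =>
        have := (OM.eq_iff F h1 h2).2 rfl
        subst this
        exact .obj_out _ _
  | out_inn o i =>
    cases h1 with
    | out o' _ _ h1 =>
      cases h2 with
      | inn o'' _ _ h2 =>
        have := (OM.eq_iff F h1 h2).2 rfl
        subst this
        exact .out_inn _ _
  | inn_obj o i =>
    cases h1 with
    | inn o' _ _ h1 =>
      cases h2 with
      | obj o'' _ h2 =>
        have := (OM.ptr_iff F i h1 h2).2 rfl
        subst this
        exact .inn_obj _ _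

theorem NM.nlab (F : CFacts m n A A' S L) {a a' : Node (Obj m n)} (h : NM S L a a') :
    (comb m n A).nlab a = (comb m n A').nlab a' := by
  cases h with
  | top => rfl
  | obj o o' h => exact congrArg NLab.obj (OM.lab F h)
  | out o o' i h => rfl
  | inn o o' i h => rfl

theorem piso_of_facts (F : CFacts m n A A' S L) {N : List (Node (Obj m n) × Node (Obj m n))}
    (hN : ∀ a ∈ N, NM S L a.1 a.2) : PIso (comb m n A).graph (comb m n A').graph N := by
  refine ⟨fun a ha b hb => ⟨NM.eq_iff F (hN a ha) (hN b hb), ?_⟩, fun a ha p => ?_⟩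
  · constructor
    · rintro (h | h)
      · exact Or.inl (NM.edge F (hN a ha) (hN b hb) h)
      · exact Or.inr (NM.edge F (hN b hb) (hN a ha) h)
    · rintro (h | h)
      · exact Or.inl (NM.edge' F (hN a ha) (hN b hb) h)
      · exact Or.inr (NM.edge' F (hN b hb) (hN a ha) h)
  · show p = (comb m n A).nlab a.1 ↔ p = (comb m n A').nlab a.2
    rw [NM.nlab F (hN a ha)]

/-- Answer to a move of an object. -/
theorem CGame.obj {r : ℕ} (h : CGame m n A A' (r + 3) S L) (o : Obj m n) :
    ∃ (o' : Obj m n) (S' : List ((Fin m → Bool) × (Fin m → Bool)))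
      (L' : List (Pt m n × Pt m n)), CGame m n A A' r S' L' ∧ S ⊆ S' ∧ L ⊆ L' ∧
        OM S' L' o o' := by
  cases o with
  | x p =>
    obtain ⟨p', h1⟩ := h.point p
    exact ⟨.x p', S, _, h1.pred.pred, List.Subset.refl _, List.subset_cons_self _ _,
      .x (p, p') List.mem_cons_self⟩
  | k g p =>
    obtain ⟨p', h1⟩ := h.point p
    obtain ⟨g', h2⟩ := h1.point g
    exact ⟨.k g' p', S, _, h2.pred, List.Subset.refl _,
      List.Subset.trans (List.subset_cons_self _ _) (List.subset_cons_self _ _),
      .k (g, g') (p, p') List.mem_cons_self (List.mem_cons_of_mem _ List.mem_cons_self)⟩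
  | s b =>
    obtain ⟨b', h1⟩ := h.set b
    exact ⟨.s b', _, L, h1.pred.pred, List.subset_cons_self _ _, List.Subset.refl _,
      .s (b, b') List.mem_cons_self⟩
  | c b p =>
    obtain ⟨p', h1⟩ := h.point p
    obtain ⟨b', h2⟩ := h1.set b
    exact ⟨.c b' p', _, _, h2.pred, List.subset_cons_self _ _, List.subset_cons_self _ _,
      .c (b, b') (p, p') List.mem_cons_self List.mem_cons_self⟩
  | t b g p =>
    obtain ⟨p', h1⟩ := h.point p
    obtain ⟨g', h2⟩ := h1.point g
    obtain ⟨b', h3⟩ := h2.set b
    exact ⟨.t b' g' p', _, _, h3, List.subset_cons_self _ _,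
      List.Subset.trans (List.subset_cons_self _ _) (List.subset_cons_self _ _),
      .t (b, b') (g, g') (p, p') List.mem_cons_self List.mem_cons_self
        (List.mem_cons_of_mem _ List.mem_cons_self)⟩

/-- Answer to a move of a node. -/
theorem CGame.node {r : ℕ} (h : CGame m n A A' (r + 3) S L) (v : Node (Obj m n)) :
    ∃ (v' : Node (Obj m n)) (S' : List ((Fin m → Bool) × (Fin m → Bool)))
      (L' : List (Pt m n × Pt m n)), CGame m n A A' r S' L' ∧ S ⊆ S' ∧ L ⊆ L' ∧
        NM S' L' v v' := by
  cases v with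
  | top => exact ⟨.top, S, L, h.pred.pred.pred, List.Subset.refl _, List.Subset.refl _, .top⟩
  | obj o =>
    obtain ⟨o', S', L', h1, h2, h3, h4⟩ := h.obj o
    exact ⟨.obj o', S', L', h1, h2, h3, .obj _ _ h4⟩
  | out o i =>
    obtain ⟨o', S', L', h1, h2, h3, h4⟩ := h.obj o
    exact ⟨.out o' i, S', L', h1, h2, h3, .out _ _ _ h4⟩
  | inn o i =>
    obtain ⟨o', S', L', h1, h2, h3, h4⟩ := h.obj o
    exact ⟨.inn o' i, S', L', h1, h2, h3, .inn _ _ _ h4⟩

theorem subset_map_swap {α β : Type} {l : List (α × β)} {l' : List (β × α)}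
    (h : l.map Prod.swap ⊆ l') : l ⊆ l'.map Prod.swap := by
  intro a ha
  have := List.mem_map_of_mem (f := Prod.swap) (h (List.mem_map_of_mem (f := Prod.swap) ha))
  rwa [Prod.swap_swap] at this

/-- Answer to a move of a node in the second comb. -/
theorem CGame.node' {r : ℕ} (h : CGame m n A A' (r + 3) S L) (v : Node (Obj m n)) :
    ∃ (v' : Node (Obj m n)) (S' : List ((Fin m → Bool) × (Fin m → Bool)))
      (L' : List (Pt m n × Pt m n)), CGame m n A A' r S' L' ∧ S ⊆ S' ∧ L ⊆ L' ∧
        NM S' L' v' v := by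
  obtain ⟨v', S', L', h1, h2, h3, h4⟩ := h.symm.node v
  exact ⟨v', _, _, h1.symm, subset_map_swap h2, subset_map_swap h3, h4.swap⟩

theorem eqv_of_game (q : ℕ) : ∀ (S : List ((Fin m → Bool) × (Fin m → Bool)))
    (L : List (Pt m n × Pt m n)) (N : List (Node (Obj m n) × Node (Obj m n))),
    CGame m n A A' (3 * q) S L → (∀ a ∈ N, NM S L a.1 a.2) →
      Eqv (comb m n A).graph (comb m n A').graph q N := by
  induction q with
  | zero =>
    intro S L N h hN
    exact piso_of_facts h.facts hN
  | succ q ih =>
    intro S L N h hN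
    refine ⟨piso_of_facts h.facts hN, fun v => ?_, fun v => ?_⟩
    · obtain ⟨v', S', L', h1, h2, h3, h4⟩ := CGame.node (r := 3 * q) h v
      refine ⟨v', ih S' L' _ h1 ?_⟩
      intro a ha
      rcases List.mem_cons.1 ha with rfl | ha
      · exact h4
      · exact (hN a ha).mono h2 h3
    · obtain ⟨v', S', L', h1, h2, h3, h4⟩ := CGame.node' (r := 3 * q) h v
      refine ⟨v', ih S' L' _ h1 ?_⟩
      intro a ha
      rcases List.mem_cons.1 ha with rfl | ha
      · exact h4
      · exact (hN a ha).mono h2 h3

end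

/-- The invariant of the game on graphs of combs implies a winning strategy. -/
theorem comb_eqv (q : ℕ) : ∃ (m n : ℕ) (A A' : Fin m → Bool), 0 < m ∧ 0 < n ∧
    Even (Finset.univ.filter fun j => A j = true).card ∧
    ¬ Even (Finset.univ.filter fun j => A' j = true).card ∧
    Eqv (comb m n A).graph (comb m n A').graph q [(.top, .top)] := by
  obtain ⟨m, n, A, A', hm, hn, h1, h2, h3⟩ := CGame.init (3 * q)
  refine ⟨m, n, A, A', hm, hn, h1, h2, eqv_of_game q [] [] _ h3 ?_⟩
  intro a ha
  rw [List.mem_singleton] at ha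
  subst ha
  exact .top

end Pool.Agent.Lib.MP_0edfa1_lc
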