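import Mathlib

/-!
# LocalMax GNNs with keys, key-invariance, first-order definability

Definitions for the question whether every node query expressed by a key-invariant LocalMax GNN
is definable in first-order logic.
-/

set_option autoImplicit false

namespace Pool.Agent.Lib.MP_0edfa1_lc

open FirstOrder

/-- A graph on the set `V` with edge relation `adj` and a label vector in `{0,1}^P` at each node. -/
structure LGraph (P V : Type) where
  adj : V → V → Prop
  lab : V → P → Prop

/-- Feature expressions of LocalMax GNNs: atoms `p`, the key `val`, arbitrary combination
functions `f : ℝ^n → ℝ`, and `LocalMax`. -/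
inductive Expr (P : Type) : Type
  | atom (p : P) : Expr P
  | val : Expr P
  | comb (n : ℕ) (f : (Fin n → ℝ) → ℝ) (F : Fin n → Expr P) : Expr P
  | localMax (F : Expr P) : Expr P

open Classical in
/-- The value of a feature expression at the node `u` of a graph with keys. For `LocalMax` the
value is the supremum over all `v` with `(u,v)` an edge; for finite graphs this is the maximum,
and it is `0` when there is no such `v`. -/
noncomputable def Expr.eval {P V : Type} (G : LGraph P V) (key : V → ℝ) : Expr P → V → ℝ
  | .atom p, u => if G.lab u p then 1 else 0
  | .val, u => key u
  | .comb _ f F, u => f fun i => (F i).eval G key u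
  | .localMax F, u => ⨆ v : {v : V // G.adj u v}, F.eval G key v

/-- The classifier `e` is key-invariant on the class `C` of finite labelled graphs: for every
pointed graph `G^u` with `G` in `C`, acceptance (positive value at `u`) does not depend on which
injective key map is chosen. -/
def KeyInvariant {P : Type} (e : Expr P) (C : (V : Type) → LGraph P V → Prop) : Prop :=
  ∀ (V : Type) [Finite V] (G : LGraph P V), C V G → ∀ (u : V) (key key' : V → ℝ),
    Function.Injective key → Function.Injective key' →
      (0 < e.eval G key u ↔ 0 < e.eval G key' u)

/-- Relation symbols: a unary symbol for each label and a binary symbol for the edge relation. -/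
inductive GRel (P : Type) : ℕ → Type
  | lab (p : P) : GRel P 1
  | adj : GRel P 2

/-- The signature of labelled graphs. -/
def lang (P : Type) : Language where
  Functions := fun _ => Empty
  Relations := GRel P

/-- A labelled graph as a first-order structure. -/
def LGraph.str {P V : Type} (G : LGraph P V) : (lang P).Structure V where
  funMap := fun f => Empty.elim f
  RelMap := fun {_} r =>
    match r with
    | .lab p => fun xs => G.lab (xs 0) p
    | .adj => fun xs => G.adj (xs 0) (xs 1)

/-- Truth of the first-order formula `φ(x)` at the node `u` of `G`. -/
def LGraph.Sat {P V : Type} (G : LGraph P V) (φ : (lang P).Formula (Fin 1)) (u : V) : Prop :=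
  @Language.Formula.Realize (lang P) V G.str (Fin 1) φ fun _ => u

/-- On the class `C` of finite labelled graphs the node query expressed by `e` is defined by a
first-order formula `φ(x)` over the edge relation and the labels. -/
def FODefinable {P : Type} (e : Expr P) (C : (V : Type) → LGraph P V → Prop) : Prop :=
  ∃ φ : (lang P).Formula (Fin 1), ∀ (V : Type) [Finite V] (G : LGraph P V), C V G →
    ∀ (u : V) (key : V → ℝ), Function.Injective key → (0 < e.eval G key u ↔ G.Sat φ u)

/-- The graph is undirected (loops allowed). -/
def LGraph.Undirected {P V : Type} (G : LGraph P V) : Prop :=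
  ∀ a b, G.adj a b → G.adj b a

/-- The graph is undirected and has no loops. -/
def LGraph.Simple {P V : Type} (G : LGraph P V) : Prop :=
  G.Undirected ∧ ∀ a, ¬ G.adj a a

/-- The class `C` is closed under subgraphs (deleting nodes and deleting edges). -/
def ClosedUnderSubgraphs {P : Type} (C : (V : Type) → LGraph P V → Prop) : Prop :=
  ∀ (V W : Type) (G : LGraph P V) (H : LGraph P W) (f : W → V), Function.Injective f →
    (∀ a b, H.adj a b → G.adj (f a) (f b)) → (∀ a p, H.lab a p ↔ G.lab (f a) p) → C V G → C W H

end Pool.Agent.Lib.MP_0edfa1_lc
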