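import Pool.Agent.Lib.MP_0edfa1_lc.DirDefs

/-!
# Values of expressions on a restricted graph
-/

set_option autoImplicit false

namespace Pool.Agent.Lib.MP_0edfa1_lc

/-- The supremum over a nonempty index type is attained at a maximum. -/
theorem iSup_eq_of_best {ι : Type} (g : ι → ℝ) (i : ι) (h : ∀ j, g j ≤ g i) : (⨆ j, g j) = g i :=
  haveI : Nonempty ι := ⟨i⟩
  le_antisymm (ciSup_le h) (le_ciSup (f := g) ⟨g i, by rintro _ ⟨j, rfl⟩; exact h j⟩ i)

/-- If `H` is obtained from `G` by keeping only edges from level `< d` to the next level or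
below, and for each node of level `< d` and each `F ∈ T` a best out-neighbour is kept, then the
values of expressions of small depth do not change. -/
theorem eval_restrict {P V W : Type} [Finite V] (G : LGraph P V) (H : LGraph P W) (f : W → V)
    (key : V → ℝ) (ℓ : W → ℕ) (d : ℕ) (T : Set (Expr P))
    (hlab : ∀ w p, H.lab w p ↔ G.lab (f w) p)
    (hadj : ∀ w w', H.adj w w' ↔ G.adj (f w) (f w') ∧ ℓ w < d ∧ ℓ w' ≤ ℓ w + 1)
    (hbest : ∀ w, ℓ w < d → ∀ F ∈ T, (∃ v, G.adj (f w) v) → ∃ w', ℓ w' ≤ ℓ w + 1 ∧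
      G.adj (f w) (f w') ∧ ∀ v, G.adj (f w) v → F.eval G key v ≤ F.eval G key (f w'))
    (e : Expr P) (he : e.args ⊆ T) (w : W) (hw : e.depth + ℓ w ≤ d) :
    e.eval H (key ∘ f) w = e.eval G key (f w) := by
  induction e generalizing w with
  | atom p =>
    simp only [Expr.eval]
    by_cases h : G.lab (f w) p
    · rw [if_pos h, if_pos ((hlab w p).mpr h)]
    · rw [if_neg h, if_neg fun h' => h ((hlab w p).mp h')]
  | val => rfl
  | comb n g F ih =>
    simp only [Expr.eval]
    congr 1
    funext i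
    refine ih i ?_ w ?_
    · intro x hx
      exact he (Set.mem_iUnion.mpr ⟨i, hx⟩)
    · have h1 : (F i).depth ≤ (Expr.comb n g F).depth :=
        Finset.le_sup (f := fun i => (F i).depth) (Finset.mem_univ i)
      omega
  | localMax F ih =>
    have hF : F ∈ T := he (Set.mem_insert _ _)
    have hFs : F.args ⊆ T := fun x hx => he (Set.mem_insert_of_mem _ hx)
    have hd : (Expr.localMax F).depth = F.depth + 1 := rfl
    have hl : ℓ w < d := by omega
    have key1 : ∀ w', H.adj w w' → F.eval H (key ∘ f) w' = F.eval G key (f w') := by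
      intro w' h
      rw [hadj] at h
      exact ih hFs w' (by omega)
    simp only [Expr.eval]
    by_cases hex : ∃ v, G.adj (f w) v
    · obtain ⟨w0, h1, h2, h3⟩ := hbest w hl F hF hex
      have h4 : H.adj w w0 := (hadj w w0).mpr ⟨h2, hl, h1⟩
      rw [iSup_eq_of_best (fun w' : {w' : W // H.adj w w'} => F.eval H (key ∘ f) w') ⟨w0, h4⟩ ?_,
        iSup_eq_of_best (fun v : {v : V // G.adj (f w) v} => F.eval G key v) ⟨f w0, h2⟩ ?_]
      · exact key1 w0 h4
      · exact fun v => h3 v v.2
      · intro w'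
        change F.eval H (key ∘ f) w' ≤ F.eval H (key ∘ f) w0
        rw [key1 w' w'.2, key1 w0 h4]
        exact h3 _ ((hadj w w').mp w'.2).1
    · have : IsEmpty {v : V // G.adj (f w) v} := ⟨fun v => hex ⟨v, v.2⟩⟩
      have : IsEmpty {w' : W // H.adj w w'} := ⟨fun w' => hex ⟨f w', ((hadj w w').mp w'.2).1⟩⟩
      rw [Real.iSup_of_isEmpty, Real.iSup_of_isEmpty]

end Pool.Agent.Lib.MP_0edfa1_lc
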