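import Pool.Agent.Lib.MP_0edfa1_lc.DirDefs

/-!
# Adding best out-neighbours in the game
-/

set_option autoImplicit false

namespace Pool.Agent.Lib.MP_0edfa1_lc

/-- The left request of the node `b.1` for the argument `F` is answered in `M`. -/
def BestL {P V V' : Type} (G : LGraph P V) (key : V → ℝ) (F : Expr P) (b : V × V')
    (M : List (V × V')) : Prop :=
  (∃ v, G.adj b.1 v) → ∃ c ∈ M, G.adj b.1 c.1 ∧
    ∀ v, G.adj b.1 v → F.eval G key v ≤ F.eval G key c.1

/-- The right request of the node `b.2` for the argument `F` is answered in `M`. -/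
def BestR {P V V' : Type} (G' : LGraph P V') (key' : V' → ℝ) (F : Expr P) (b : V × V')
    (M : List (V × V')) : Prop :=
  (∃ v, G'.adj b.2 v) → ∃ c ∈ M, G'.adj b.2 c.2 ∧
    ∀ v, G'.adj b.2 v → F.eval G' key' v ≤ F.eval G' key' c.2

theorem BestL.mono {P V V' : Type} {G : LGraph P V} {key : V → ℝ} {F : Expr P} {b : V × V'}
    {M N : List (V × V')} (h : BestL G key F b M) (hMN : M ⊆ N) : BestL G key F b N := by
  intro hex
  obtain ⟨c, hc, h1⟩ := h hex
  exact ⟨c, hMN hc, h1⟩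

theorem BestR.mono {P V V' : Type} {G' : LGraph P V'} {key' : V' → ℝ} {F : Expr P} {b : V × V'}
    {M N : List (V × V')} (h : BestR G' key' F b M) (hMN : M ⊆ N) : BestR G' key' F b N := by
  intro hex
  obtain ⟨c, hc, h1⟩ := h hex
  exact ⟨c, hMN hc, h1⟩

/-- One request on each side costs two moves. -/
theorem exists_step {P V V' : Type} [Finite V] [Finite V'] (G : LGraph P V) (G' : LGraph P V')
    (key : V → ℝ) (key' : V' → ℝ) (F : Expr P) (b : V × V') (q : ℕ) (L : List (V × V'))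
    (h : Eqv G G' (q + 2) L) :
    ∃ M : List (V × V'), L ⊆ M ∧ M.length ≤ L.length + 2 ∧ Eqv G G' q M ∧
      BestL G key F b M ∧ BestR G' key' F b M := by
  obtain ⟨M1, h1, h2, h3, h4⟩ : ∃ M : List (V × V'), L ⊆ M ∧ M.length ≤ L.length + 1 ∧
      Eqv G G' (q + 1) M ∧ BestL G key F b M := by
    by_cases hex : ∃ v, G.adj b.1 v
    · obtain ⟨v0, hv0⟩ := hex
      have : Nonempty {v : V // G.adj b.1 v} := ⟨⟨v0, hv0⟩⟩
      obtain ⟨x, hx⟩ := Finite.exists_max fun v : {v : V // G.adj b.1 v} => F.eval G key v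
      obtain ⟨v', hv'⟩ := h.2.1 x
      exact ⟨_, List.subset_cons_self _ _, by simp, hv', fun _ =>
        ⟨(x, v'), List.mem_cons_self, x.2, fun v hv => hx ⟨v, hv⟩⟩⟩
    · exact ⟨L, fun _ hx => hx, by omega, h.pred, fun h => (hex h).elim⟩
  obtain ⟨M2, h5, h6, h7, h8⟩ : ∃ M : List (V × V'), M1 ⊆ M ∧ M.length ≤ M1.length + 1 ∧
      Eqv G G' q M ∧ BestR G' key' F b M := by
    by_cases hex : ∃ v, G'.adj b.2 v
    · obtain ⟨v0, hv0⟩ := hex
      have : Nonempty {v : V' // G'.adj b.2 v} := ⟨⟨v0, hv0⟩⟩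
      obtain ⟨x, hx⟩ := Finite.exists_max fun v : {v : V' // G'.adj b.2 v} => F.eval G' key' v
      obtain ⟨v, hv⟩ := h3.2.2 x
      exact ⟨_, List.subset_cons_self _ _, by simp, hv, fun _ =>
        ⟨(v, x), List.mem_cons_self, x.2, fun v hv => hx ⟨v, hv⟩⟩⟩
    · exact ⟨M1, fun _ hx => hx, by omega, h3.pred, fun h => (hex h).elim⟩
  exact ⟨M2, fun _ hx => h5 (h1 hx), by omega, h7, h4.mono h5, h8⟩

/-- All requests of a list of pairs (node, argument). -/
theorem exists_steps {P V V' : Type} [Finite V] [Finite V'] (G : LGraph P V) (G' : LGraph P V')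
    (key : V → ℝ) (key' : V' → ℝ) (R : List (Expr P × (V × V'))) (q : ℕ) (L : List (V × V'))
    (h : Eqv G G' (q + 2 * R.length) L) :
    ∃ M : List (V × V'), L ⊆ M ∧ M.length ≤ L.length + 2 * R.length ∧ Eqv G G' q M ∧
      ∀ r ∈ R, BestL G key r.1 r.2 M ∧ BestR G' key' r.1 r.2 M := by
  induction R generalizing L with
  | nil => exact ⟨L, fun _ hx => hx, by omega, h, by simp⟩
  | cons r R ih =>
    have h0 : q + 2 * (r :: R).length = (q + 2 * R.length) + 2 := by
      rw [List.length_cons]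
      ring
    rw [h0] at h
    obtain ⟨M1, h1, h2, h3, h4, h5⟩ := exists_step G G' key key' r.1 r.2 _ L h
    obtain ⟨M2, h6, h7, h8, h9⟩ := ih M1 h3
    refine ⟨M2, fun _ hx => h6 (h1 hx), ?_, h8, ?_⟩
    · rw [List.length_cons]
      omega
    · intro s hs
      rcases List.mem_cons.mp hs with rfl | hs
      · exact ⟨h4.mono h6, h5.mono h6⟩
      · exact h9 s hs

/-- One level. -/
theorem exists_level {P V V' : Type} [Finite V] [Finite V'] (G : LGraph P V) (G' : LGraph P V')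
    (key : V → ℝ) (key' : V' → ℝ) (T : List (Expr P)) (n q : ℕ) (L : List (V × V'))
    (hn : L.length ≤ n) (h : Eqv G G' (q + 2 * (T.length * n)) L) :
    ∃ M : List (V × V'), L ⊆ M ∧ M.length ≤ n + 2 * (T.length * n) ∧ Eqv G G' q M ∧
      ∀ b ∈ L, ∀ F ∈ T, BestL G key F b M ∧ BestR G' key' F b M := by
  have hlen : (T ×ˢ L).length ≤ T.length * n := by
    rw [List.length_product]
    exact Nat.mul_le_mul_left _ hn
  obtain ⟨M, h1, h2, h3, h4⟩ := exists_steps G G' key key' (T ×ˢ L) q L (h.mono (by omega))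
  exact ⟨M, h1, by omega, h3, fun b hb F hF => h4 (F, b) (List.mem_product.mpr ⟨hF, hb⟩)⟩

/-- The chain, with the number of rounds depending on the length of the initial list. -/
theorem exists_chain_aux {P : Type} (T : List (Expr P)) (d : ℕ) : ∀ n : ℕ,
    ∃ q : ℕ, ∀ (V V' : Type) [Finite V] [Finite V'] (G : LGraph P V) (G' : LGraph P V')
      (key : V → ℝ) (key' : V' → ℝ) (L : List (V × V')), L.length ≤ n → Eqv G G' q L →
      ∃ Ls : ℕ → List (V × V'), Ls 0 = L ∧ (∀ i, Ls i ⊆ Ls (i + 1)) ∧ PIso G G' (Ls d) ∧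
        ∀ i < d, ∀ b ∈ Ls i, ∀ F ∈ T, BestL G key F b (Ls (i + 1)) ∧
          BestR G' key' F b (Ls (i + 1)) := by
  induction d with
  | zero =>
    intro n
    refine ⟨0, fun V V' _ _ G G' key key' L _ h => ⟨fun _ => L, rfl, fun _ _ hx => hx, h, ?_⟩⟩
    intro i hi
    omega
  | succ d ih =>
    intro n
    obtain ⟨q, hq⟩ := ih (n + 2 * (T.length * n))
    refine ⟨q + 2 * (T.length * n), fun V V' _ _ G G' key key' L hL h => ?_⟩
    obtain ⟨M, h1, h2, h3, h4⟩ := exists_level G G' key key' T n q L hL h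
    obtain ⟨Ls, h5, h6, h7, h8⟩ := hq V V' G G' key key' M h2 h3
    refine ⟨fun i => i.casesOn L Ls, rfl, ?_, h7, ?_⟩
    · intro i
      cases i with
      | zero =>
        change L ⊆ Ls 0
        rw [h5]
        exact h1
      | succ i => exact h6 i
    · intro i hi
      cases i with
      | zero =>
        change ∀ b ∈ L, ∀ F ∈ T, BestL G key F b (Ls 0) ∧ BestR G' key' F b (Ls 0)
        rw [h5]
        exact h4
      | succ i => exact h8 i (by omega)

/-- In the game one can add, level by level, best out-neighbours on both sides. -/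
theorem exists_chain {P : Type} (T : Set (Expr P)) (hT : T.Finite) (d : ℕ) :
    ∃ q : ℕ, ∀ (V V' : Type) [Finite V] [Finite V'] (G : LGraph P V) (G' : LGraph P V')
      (key : V → ℝ) (key' : V' → ℝ) (a : V × V'), Eqv G G' q [a] →
      ∃ Ls : ℕ → List (V × V'), Ls 0 = [a] ∧ (∀ i, Ls i ⊆ Ls (i + 1)) ∧ PIso G G' (Ls d) ∧
        ∀ i < d, ∀ b ∈ Ls i, ∀ F ∈ T,
          ((∃ v, G.adj b.1 v) → ∃ c ∈ Ls (i + 1), G.adj b.1 c.1 ∧
            ∀ v, G.adj b.1 v → F.eval G key v ≤ F.eval G key c.1) ∧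
          ((∃ v, G'.adj b.2 v) → ∃ c ∈ Ls (i + 1), G'.adj b.2 c.2 ∧
            ∀ v, G'.adj b.2 v → F.eval G' key' v ≤ F.eval G' key' c.2) := by
  obtain ⟨q, hq⟩ := exists_chain_aux hT.toFinset.toList d 1
  refine ⟨q, fun V V' _ _ G G' key key' a h => ?_⟩
  obtain ⟨Ls, h1, h2, h3, h4⟩ := hq V V' G G' key key' [a] le_rfl h
  refine ⟨Ls, h1, h2, h3, fun i hi b hb F hF => ?_⟩
  exact h4 i hi b hb F (by simpa using hF)

end Pool.Agent.Lib.MP_0edfa1_lc
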