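import Pool.Agent.Lib.MP_0edfa1_lc.EF

/-!
# Arguments of `localMax` and depth of expressions
-/

set_option autoImplicit false

namespace Pool.Agent.Lib.MP_0edfa1_lc

/-- `F` is a subexpression of `e` under a `localMax` (i.e. `localMax F` is a subexpression). -/
def Expr.args {P : Type} : Expr P → Set (Expr P)
  | .atom _ => ∅
  | .val => ∅
  | .comb _ _ F => ⋃ i, (F i).args
  | .localMax F => insert F F.args

/-- Nesting depth of `localMax`. -/
def Expr.depth {P : Type} : Expr P → ℕ
  | .atom _ => 0
  | .val => 0
  | .comb _ _ F => Finset.univ.sup fun i => (F i).depth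
  | .localMax F => F.depth + 1

theorem Expr.args_finite {P : Type} (e : Expr P) : e.args.Finite := by
  induction e with
  | atom p => exact Set.finite_empty
  | val => exact Set.finite_empty
  | comb n f F ih => exact Set.finite_iUnion ih
  | localMax F ih => exact ih.insert F

end Pool.Agent.Lib.MP_0edfa1_lc
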