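import Pool.Agent.Lib.MP_0edfa1_lc.EF

/-!
# Rank `q` types are definable
-/

set_option autoImplicit false

namespace Pool.Agent.Lib.MP_0edfa1_lc

open FirstOrder Language

namespace EFT

/-- Atomic types of `k`-tuples. -/
abbrev T0 (P : Type) (k : ℕ) : Type :=
  (Fin k → Fin k → Prop) × (Fin k → Fin k → Prop) × (Fin k → P → Prop)

/-- Rank `q` types of `k`-tuples. -/
def Ty (P : Type) : ℕ → ℕ → Type
  | 0, k => T0 P k
  | q + 1, k => T0 P k × Set (Ty P q (k + 1))

theorem finite_ty (P : Type) [Finite P] : ∀ q k, Finite (Ty P q k)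
  | 0, k => inferInstanceAs (Finite (T0 P k))
  | q + 1, k => by
    have := finite_ty P q (k + 1)
    exact inferInstanceAs (Finite (T0 P k × Set (Ty P q (k + 1))))

/-- The atomic type of a tuple. -/
def tp0 {P V : Type} {k : ℕ} (G : LGraph P V) (xs : Fin k → V) : T0 P k :=
  (fun i j => xs i = xs j, fun i j => G.adj (xs i) (xs j), fun i p => G.lab (xs i) p)

/-- The rank `q` type of a tuple. -/
def tp {P V : Type} (G : LGraph P V) : (q : ℕ) → {k : ℕ} → (Fin k → V) → Ty P q k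
  | 0, _, xs => tp0 G xs
  | q + 1, k, xs => (tp0 G xs, {t | ∃ v, tp G q (Fin.snoc xs v : Fin (k + 1) → V) = t})

theorem piso_of_tp0 {P V V' : Type} {G : LGraph P V} {G' : LGraph P V'} {k : ℕ} {xs : Fin k → V}
    {xs' : Fin k → V'} (h : tp0 G xs = tp0 G' xs') {L : List (V × V')}
    (hL : ∀ a ∈ L, ∃ i, a = (xs i, xs' i)) : PIso G G' L := by
  unfold tp0 at h
  rw [Prod.mk.injEq, Prod.mk.injEq] at h
  obtain ⟨h1, h2, h3⟩ := h
  constructor
  · intro a ha b hb
    obtain ⟨i, rfl⟩ := hL a ha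
    obtain ⟨j, rfl⟩ := hL b hb
    exact ⟨iff_of_eq (congrFun (congrFun h1 i) j), iff_of_eq (congrFun (congrFun h2 i) j)⟩
  · intro a ha p
    obtain ⟨i, rfl⟩ := hL a ha
    exact iff_of_eq (congrFun (congrFun h3 i) p)

theorem eqv_of_tp {P V V' : Type} {G : LGraph P V} {G' : LGraph P V'} (q : ℕ) :
    ∀ {k : ℕ} {xs : Fin k → V} {xs' : Fin k → V'}, tp G q xs = tp G' q xs' →
      ∀ {L : List (V × V')}, (∀ a ∈ L, ∃ i, a = (xs i, xs' i)) → Eqv G G' q L := by
  induction q with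
  | zero => intro k xs xs' h L hL; exact piso_of_tp0 h hL
  | succ q ih =>
    intro k xs xs' h L hL
    have h' : (tp0 G xs, {t | ∃ v, tp G q (Fin.snoc xs v : Fin (k + 1) → V) = t}) =
      (tp0 G' xs', {t | ∃ v, tp G' q (Fin.snoc xs' v : Fin (k + 1) → V') = t}) := h
    rw [Prod.mk.injEq] at h'
    have hL' : ∀ v v', ∀ a ∈ (v, v') :: L, ∃ i : Fin (k + 1),
        a = ((Fin.snoc xs v : Fin (k + 1) → V) i, (Fin.snoc xs' v' : Fin (k + 1) → V') i) := by
      intro v v' a ha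
      rcases List.mem_cons.1 ha with rfl | ha
      · exact ⟨Fin.last k, by simp⟩
      · obtain ⟨i, rfl⟩ := hL a ha
        exact ⟨i.castSucc, by simp⟩
    refine ⟨piso_of_tp0 h'.1 hL, fun v => ?_, fun v' => ?_⟩
    · have hv : tp G q (Fin.snoc xs v : Fin (k + 1) → V) ∈
          {t | ∃ v, tp G q (Fin.snoc xs v : Fin (k + 1) → V) = t} := ⟨v, rfl⟩
      rw [h'.2] at hv
      obtain ⟨v', hv'⟩ := hv
      exact ⟨v', ih hv'.symm (hL' v v')⟩
    · have hv : tp G' q (Fin.snoc xs' v' : Fin (k + 1) → V') ∈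
          {t | ∃ v, tp G' q (Fin.snoc xs' v : Fin (k + 1) → V') = t} := ⟨v', rfl⟩
      rw [← h'.2] at hv
      obtain ⟨v, hv'⟩ := hv
      exact ⟨v, ih hv' (hL' v v')⟩

/-- `ψ` holds exactly for the tuples satisfying `R`. -/
def Def {P : Type} {k : ℕ} (R : (V : Type) → LGraph P V → (Fin k → V) → Prop) : Prop :=
  ∃ ψ : (lang P).BoundedFormula Empty k, ∀ (V : Type) (G : LGraph P V) (xs : Fin k → V),
    @BoundedFormula.Realize (lang P) V G.str Empty k ψ default xs ↔ R V G xs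

theorem Def.congr {P : Type} {k : ℕ} {R R' : (V : Type) → LGraph P V → (Fin k → V) → Prop}
    (h : Def R) (hR : ∀ V G xs, R V G xs ↔ R' V G xs) : Def R' := by
  obtain ⟨ψ, hψ⟩ := h
  exact ⟨ψ, fun V G xs => (hψ V G xs).trans (hR V G xs)⟩

theorem def_eq {P : Type} {k : ℕ} (i j : Fin k) :
    Def (P := P) (k := k) (fun _ _ xs => xs i = xs j) := by
  refine ⟨Term.bdEqual (.var (Sum.inr i)) (.var (Sum.inr j)), fun V G xs => ?_⟩
  let _ := G.str
  simp

theorem def_adj {P : Type} {k : ℕ} (i j : Fin k) :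
    Def (P := P) (k := k) (fun _ G xs => G.adj (xs i) (xs j)) := by
  refine ⟨BoundedFormula.rel (n := k) (l := 2) (GRel.adj : (lang P).Relations 2)
    ![.var (Sum.inr i), .var (Sum.inr j)], fun V G xs => ?_⟩
  rfl

theorem def_lab {P : Type} {k : ℕ} (i : Fin k) (p : P) :
    Def (P := P) (k := k) (fun _ G xs => G.lab (xs i) p) := by
  refine ⟨BoundedFormula.rel (n := k) (l := 1) (GRel.lab p : (lang P).Relations 1)
    ![.var (Sum.inr i)], fun V G xs => ?_⟩
  rfl

theorem Def.not {P : Type} {k : ℕ} {R : (V : Type) → LGraph P V → (Fin k → V) → Prop}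
    (h : Def R) : Def (fun V G xs => ¬ R V G xs) := by
  obtain ⟨ψ, hψ⟩ := h
  refine ⟨ψ.not, fun V G xs => ?_⟩
  let _ := G.str
  rw [BoundedFormula.realize_not, hψ]

theorem Def.and {P : Type} {k : ℕ} {R R' : (V : Type) → LGraph P V → (Fin k → V) → Prop}
    (h : Def R) (h' : Def R') : Def (fun V G xs => R V G xs ∧ R' V G xs) := by
  obtain ⟨ψ, hψ⟩ := h
  obtain ⟨ψ', hψ'⟩ := h'
  refine ⟨ψ ⊓ ψ', fun V G xs => ?_⟩
  let _ := G.str
  rw [BoundedFormula.realize_inf, hψ, hψ']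

theorem Def.ex {P : Type} {k : ℕ} {R : (V : Type) → LGraph P V → (Fin (k + 1) → V) → Prop}
    (h : Def R) : Def (fun V G xs => ∃ v, R V G (Fin.snoc xs v : Fin (k + 1) → V)) := by
  obtain ⟨ψ, hψ⟩ := h
  refine ⟨ψ.ex, fun V G xs => ?_⟩
  let _ := G.str
  rw [BoundedFormula.realize_ex]
  exact exists_congr fun v => hψ V G _

theorem Def.all {P : Type} {k : ℕ} {ι : Type} [Finite ι]
    {R : ι → (V : Type) → LGraph P V → (Fin k → V) → Prop}
    (h : ∀ i, Def (R i)) : Def (fun V G xs => ∀ i, R i V G xs) := by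
  choose ψ hψ using h
  refine ⟨BoundedFormula.iInf ψ, fun V G xs => ?_⟩
  let _ := G.str
  rw [BoundedFormula.realize_iInf]
  exact forall_congr' fun i => hψ i V G xs

theorem Def.some {P : Type} {k : ℕ} {ι : Type} [Finite ι]
    {R : ι → (V : Type) → LGraph P V → (Fin k → V) → Prop}
    (h : ∀ i, Def (R i)) : Def (fun V G xs => ∃ i, R i V G xs) := by
  choose ψ hψ using h
  refine ⟨BoundedFormula.iSup ψ, fun V G xs => ?_⟩
  let _ := G.str
  rw [BoundedFormula.realize_iSup]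
  exact exists_congr fun i => hψ i V G xs

theorem Def.iffc {P : Type} {k : ℕ} {R : (V : Type) → LGraph P V → (Fin k → V) → Prop}
    (h : Def R) (c : Prop) : Def (fun V G xs => (R V G xs ↔ c)) := by
  by_cases hc : c
  · exact h.congr fun V G xs => by simp [hc]
  · exact h.not.congr fun V G xs => by simp [hc]

theorem def_tp0 {P : Type} [Finite P] {k : ℕ} (t : T0 P k) :
    Def (P := P) (k := k) (fun _ G xs => tp0 G xs = t) := by
  have h1 : Def (P := P) (k := k) (fun _ _ xs => ∀ i j, (xs i = xs j ↔ t.1 i j)) :=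
    Def.all fun i => Def.all fun j => (def_eq i j).iffc _
  have h2 : Def (P := P) (k := k) (fun _ G xs => ∀ i j, (G.adj (xs i) (xs j) ↔ t.2.1 i j)) :=
    Def.all fun i => Def.all fun j => (def_adj i j).iffc _
  have h3 : Def (P := P) (k := k) (fun _ G xs => ∀ i p, (G.lab (xs i) p ↔ t.2.2 i p)) :=
    Def.all fun i => Def.all fun p => (def_lab i p).iffc _
  refine (h1.and (h2.and h3)).congr fun V G xs => ?_
  obtain ⟨t1, t2, t3⟩ := t
  constructor
  · rintro ⟨g1, g2, g3⟩
    unfold tp0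
    rw [Prod.mk.injEq, Prod.mk.injEq]
    exact ⟨funext fun i => funext fun j => propext (g1 i j),
      funext fun i => funext fun j => propext (g2 i j),
      funext fun i => funext fun p => propext (g3 i p)⟩
  · intro g
    unfold tp0 at g
    rw [Prod.mk.injEq, Prod.mk.injEq] at g
    obtain ⟨g1, g2, g3⟩ := g
    subst g1 g2 g3
    exact ⟨fun _ _ => Iff.rfl, fun _ _ => Iff.rfl, fun _ _ => Iff.rfl⟩

theorem def_tp {P : Type} [Finite P] (q : ℕ) : ∀ {k : ℕ} (t : Ty P q k),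
    Def (P := P) (k := k) (fun _ G xs => tp G q xs = t) := by
  induction q with
  | zero => intro k t; exact def_tp0 t
  | succ q ih =>
    intro k t
    obtain ⟨t0, S⟩ := (t : T0 P k × Set (Ty P q (k + 1)))
    have := finite_ty P q (k + 1)
    have h1 : Def (P := P) (k := k) (fun V G xs => ∀ s : Ty P q (k + 1),
        ((∃ v, tp G q (Fin.snoc xs v : Fin (k + 1) → V) = s) ↔ s ∈ S)) :=
      Def.all fun s => (ih s).ex.iffc _
    refine ((def_tp0 t0).and h1).congr fun V G xs => ?_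
    constructor
    · rintro ⟨g1, g2⟩
      exact Prod.ext g1 (Set.ext g2)
    · intro g
      have g' : (tp0 G xs, {t | ∃ v, tp G q (Fin.snoc xs v : Fin (k + 1) → V) = t}) = (t0, S) := g
      rw [Prod.mk.injEq] at g'
      exact ⟨g'.1, fun s => by rw [← g'.2]; rfl⟩

end EFT

open EFT in
theorem exists_formula_of_eqv {P : Type} [Finite P] (C : (V : Type) → LGraph P V → Prop)
    (Q : (V : Type) → LGraph P V → V → Prop) (q : ℕ)
    (hQ : ∀ (V V' : Type) [Finite V] [Finite V'] (G : LGraph P V) (G' : LGraph P V') (u : V)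
      (u' : V'), C V G → C V' G' → Eqv G G' q [(u, u')] → (Q V G u ↔ Q V' G' u')) :
    ∃ φ : (lang P).Formula (Fin 1), ∀ (V : Type) [Finite V] (G : LGraph P V), C V G →
      ∀ u : V, (Q V G u ↔ G.Sat φ u) := by
  have := finite_ty P q 1
  let I : Type := {t : Ty P q 1 // ∃ (V : Type) (_ : Finite V) (G : LGraph P V) (u : V),
    C V G ∧ Q V G u ∧ tp G q (fun _ : Fin 1 => u) = t}
  have : Finite I := Subtype.finite
  obtain ⟨ψ, hψ⟩ : Def (P := P) (k := 1) (fun _ G xs => ∃ t : I, tp G q xs = t.1) :=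
    Def.some fun t => def_tp q t.1
  refine ⟨ψ.toFormula.relabel (Sum.elim Empty.elim id), fun V _ G hC u => ?_⟩
  have hs : G.Sat (ψ.toFormula.relabel (Sum.elim Empty.elim id)) u ↔
      @BoundedFormula.Realize (lang P) V G.str Empty 1 ψ default (fun _ => u) := by
    let _ := G.str
    show Formula.Realize _ _ ↔ _
    rw [Formula.realize_relabel, BoundedFormula.realize_toFormula]
    have h2 : ((fun _ : Fin 1 => u) ∘ (Sum.elim Empty.elim id : Empty ⊕ Fin 1 → Fin 1)) ∘
        Sum.inl = default := Subsingleton.elim _ _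
    rw [h2]
    rfl
  rw [hs, hψ]
  constructor
  · intro h
    exact ⟨⟨_, V, ‹_›, G, u, hC, h, rfl⟩, rfl⟩
  · rintro ⟨⟨t, V0, _, G0, u0, hC0, hQ0, ht0⟩, ht⟩
    have he : Eqv G0 G q [(u0, u)] := by
      refine eqv_of_tp q (xs := fun _ : Fin 1 => u0) (xs' := fun _ : Fin 1 => u)
        (ht0.trans ht.symm) ?_
      intro a ha
      rw [List.mem_singleton] at ha
      exact ⟨0, ha⟩
    exact (hQ V0 V G0 G u0 u hC0 hC he).1 hQ0

end Pool.Agent.Lib.MP_0edfa1_lc
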