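import Pool.Agent.Lib.MP_0edfa1_lc.DirA
import Pool.Agent.Lib.MP_0edfa1_lc.DirB
import Pool.Agent.Lib.MP_0edfa1_lc.EF2

/-!
# Key-invariant LocalMax GNNs on classes closed under subgraphs are first-order
-/

set_option autoImplicit false

namespace Pool.Agent.Lib.MP_0edfa1_lc

theorem exists_injective_key (V : Type) [Finite V] : ∃ key : V → ℝ, Function.Injective key := by
  obtain ⟨n, ⟨g⟩⟩ := Finite.exists_equiv_fin V
  exact ⟨fun v => ((g v : ℕ) : ℝ),
    fun a b h => g.injective (Fin.ext (Nat.cast_injective h))⟩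

open Classical in
theorem directed_aux {P : Type} (e : Expr P) (C : (V : Type) → LGraph P V → Prop)
    (hC : ClosedUnderSubgraphs C) (he : KeyInvariant e C) {V V' : Type} [Finite V] [Finite V']
    (G : LGraph P V) (G' : LGraph P V') (u : V) (u' : V') (hG : C V G)
    (key : V → ℝ) (key' : V' → ℝ) (hk : Function.Injective key) (hk' : Function.Injective key')
    (Ls : ℕ → List (V × V')) (h0 : Ls 0 = [(u, u')]) (hs : ∀ i, Ls i ⊆ Ls (i + 1))
    (hp : PIso G G' (Ls e.depth))
    (hb : ∀ i < e.depth, ∀ b ∈ Ls i, ∀ F ∈ e.args,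
          ((∃ v, G.adj b.1 v) → ∃ c ∈ Ls (i + 1), G.adj b.1 c.1 ∧
            ∀ v, G.adj b.1 v → F.eval G key v ≤ F.eval G key c.1) ∧
          ((∃ v, G'.adj b.2 v) → ∃ c ∈ Ls (i + 1), G'.adj b.2 c.2 ∧
            ∀ v, G'.adj b.2 v → F.eval G' key' v ≤ F.eval G' key' c.2)) :
    0 < e.eval G key u ↔ 0 < e.eval G' key' u' := by
  have hmono : ∀ i j, i ≤ j → Ls i ⊆ Ls j := by
    intro i j hij
    induction j, hij using Nat.le_induction with
    | base => exact fun _ h => h
    | succ j _ ih => exact fun _ h => hs j (ih h)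
  let W : Type := {w : V × V' // w ∈ Ls e.depth}
  have hex : ∀ w : W, ∃ i, w.1 ∈ Ls i := fun w => ⟨_, w.2⟩
  let l : W → ℕ := fun w => Nat.find (hex w)
  have hl : ∀ w : W, w.1 ∈ Ls (l w) := fun w => Nat.find_spec (hex w)
  have hl' : ∀ (w : W) i, w.1 ∈ Ls i → l w ≤ i := fun w i h => Nat.find_min' (hex w) h
  let f : W → V := fun w => w.1.1
  let f' : W → V' := fun w => w.1.2
  have hf : Function.Injective f := fun w w' h =>
    Subtype.ext (Prod.ext h (((hp.1 w.1 w.2 w'.1 w'.2).1).1 h))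
  have hf' : Function.Injective f' := fun w w' h =>
    Subtype.ext (Prod.ext (((hp.1 w.1 w.2 w'.1 w'.2).1).2 h) h)
  let H : LGraph P W := {
    adj := fun w w' => G.adj (f w) (f w') ∧ l w < e.depth ∧ l w' ≤ l w + 1
    lab := fun w p => G.lab (f w) p }
  have hw0 : (u, u') ∈ Ls e.depth := hmono 0 _ (Nat.zero_le _) (by rw [h0]; simp)
  let w0 : W := ⟨(u, u'), hw0⟩
  have hl0 : l w0 = 0 := Nat.le_zero.1 (hl' w0 0 (by rw [h0]; exact List.mem_singleton.2 rfl))
  have e1 : e.eval H (key ∘ f) w0 = e.eval G key (f w0) := by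
    refine eval_restrict G H f key l e.depth e.args (fun _ _ => Iff.rfl) (fun _ _ => Iff.rfl) ?_
      e (fun _ h => h) w0 (by rw [hl0, Nat.add_zero])
    intro w hw F hF hv
    obtain ⟨c, hc, hc1, hc2⟩ := (hb (l w) hw w.1 (hl w) F hF).1 hv
    exact ⟨⟨c, hmono _ _ hw hc⟩, hl' _ _ hc, hc1, hc2⟩
  have e2 : e.eval H (key' ∘ f') w0 = e.eval G' key' (f' w0) := by
    refine eval_restrict G' H f' key' l e.depth e.args (fun w p => hp.2 w.1 w.2 p)
      (fun w w' => and_congr_left' (hp.1 w.1 w.2 w'.1 w'.2).2) ?_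
      e (fun _ h => h) w0 (by rw [hl0, Nat.add_zero])
    intro w hw F hF hv
    obtain ⟨c, hc, hc1, hc2⟩ := (hb (l w) hw w.1 (hl w) F hF).2 hv
    exact ⟨⟨c, hmono _ _ hw hc⟩, hl' _ _ hc, hc1, hc2⟩
  have hCH : C W H := hC V W G H f hf (fun _ _ h => h.1) (fun _ _ => Iff.rfl) hG
  have hfin : Finite W := Subtype.finite
  have h1 := he W H hCH w0 (key ∘ f) (key' ∘ f') (hk.comp hf) (hk'.comp hf')
  rw [e1, e2] at h1
  exact h1

theorem directed {P : Type} [Finite P] (e : Expr P) (C : (V : Type) → LGraph P V → Prop)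
    (hC : ClosedUnderSubgraphs C) (he : KeyInvariant e C) : FODefinable e C := by
  obtain ⟨q, hq⟩ := exists_chain e.args e.args_finite e.depth
  obtain ⟨φ, hφ⟩ := exists_formula_of_eqv C
    (fun V G u => ∃ key : V → ℝ, Function.Injective key ∧ 0 < e.eval G key u) q (by
      intro V V' _ _ G G' u u' hG hG' hE
      have key : ∀ (key : V → ℝ) (key' : V' → ℝ), Function.Injective key →
          Function.Injective key' → (0 < e.eval G key u ↔ 0 < e.eval G' key' u') := by
        intro key key' hk hk'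
        obtain ⟨Ls, h0, hs, hp, hb⟩ := hq V V' G G' key key' (u, u') hE
        exact directed_aux e C hC he G G' u u' hG key key' hk hk' Ls h0 hs hp hb
      constructor
      · rintro ⟨k, hk, h⟩
        obtain ⟨k', hk'⟩ := exists_injective_key V'
        exact ⟨k', hk', (key k k' hk hk').1 h⟩
      · rintro ⟨k', hk', h⟩
        obtain ⟨k, hk⟩ := exists_injective_key V
        exact ⟨k, hk, (key k k' hk hk').2 h⟩)
  refine ⟨φ, fun V _ G hG u key hk => ?_⟩
  rw [← hφ V G hG u]
  constructor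
  · intro h
    exact ⟨key, hk, h⟩
  · rintro ⟨key', hk', h⟩
    exact (he V G hG u key' key hk' hk).1 h

end Pool.Agent.Lib.MP_0edfa1_lc
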