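import Pool.Agent.Lib.MP_0edfa1_lc.Defs

/-!
# The Ehrenfeucht–Fraïssé game for labelled graphs
-/

set_option autoImplicit false

namespace Pool.Agent.Lib.MP_0edfa1_lc

/-- The pairs in `L` form a partial isomorphism. -/
def PIso {P V V' : Type} (G : LGraph P V) (G' : LGraph P V') (L : List (V × V')) : Prop :=
  (∀ a ∈ L, ∀ b ∈ L, (a.1 = b.1 ↔ a.2 = b.2) ∧ (G.adj a.1 b.1 ↔ G'.adj a.2 b.2)) ∧
    ∀ a ∈ L, ∀ p, G.lab a.1 p ↔ G'.lab a.2 p

/-- The second player wins the game with `q` rounds from the position `L`. -/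
def Eqv {P V V' : Type} (G : LGraph P V) (G' : LGraph P V') : ℕ → List (V × V') → Prop
  | 0, L => PIso G G' L
  | q + 1, L => PIso G G' L ∧ (∀ v, ∃ v', Eqv G G' q ((v, v') :: L)) ∧
      (∀ v', ∃ v, Eqv G G' q ((v, v') :: L))

theorem PIso.anti {P V V' : Type} {G : LGraph P V} {G' : LGraph P V'} {L M : List (V × V')}
    (h : PIso G G' M) (hL : L ⊆ M) : PIso G G' L :=
  ⟨fun a ha b hb => h.1 a (hL ha) b (hL hb), fun a ha => h.2 a (hL ha)⟩

theorem Eqv.piso {P V V' : Type} {G : LGraph P V} {G' : LGraph P V'} {q : ℕ}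
    {L : List (V × V')} (h : Eqv G G' q L) : PIso G G' L := by
  cases q with
  | zero => exact h
  | succ q => exact h.1

theorem Eqv.anti {P V V' : Type} {G : LGraph P V} {G' : LGraph P V'} {q : ℕ} :
    ∀ {L M : List (V × V')}, Eqv G G' q M → L ⊆ M → Eqv G G' q L := by
  induction q with
  | zero => intro L M h hL; exact PIso.anti h hL
  | succ q ih =>
    intro L M h hL
    refine ⟨h.1.anti hL, fun v => ?_, fun v' => ?_⟩
    · obtain ⟨v', hv⟩ := h.2.1 v
      exact ⟨v', ih hv (List.cons_subset_cons _ hL)⟩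
    · obtain ⟨v, hv⟩ := h.2.2 v'
      exact ⟨v, ih hv (List.cons_subset_cons _ hL)⟩

theorem Eqv.pred {P V V' : Type} {G : LGraph P V} {G' : LGraph P V'} {q : ℕ} :
    ∀ {L : List (V × V')}, Eqv G G' (q + 1) L → Eqv G G' q L := by
  induction q with
  | zero => intro L h; exact h.piso
  | succ q ih =>
    intro L h
    refine ⟨h.1, fun v => ?_, fun v' => ?_⟩
    · obtain ⟨v', hv⟩ := h.2.1 v
      exact ⟨v', ih hv⟩
    · obtain ⟨v, hv⟩ := h.2.2 v'
      exact ⟨v, ih hv⟩

theorem Eqv.mono {P V V' : Type} {G : LGraph P V} {G' : LGraph P V'} {q r : ℕ} (hqr : q ≤ r)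
    {L : List (V × V')} (h : Eqv G G' r L) : Eqv G G' q L := by
  induction r, hqr using Nat.le_induction with
  | base => exact h
  | succ r _ ih => exact ih h.pred

end Pool.Agent.Lib.MP_0edfa1_lc
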