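import Pool.Agent.Lib.MP_0edfa1_lc.EF

/-!
# First-order formulas are preserved by the game
-/

set_option autoImplicit false

namespace Pool.Agent.Lib.MP_0edfa1_lc

open FirstOrder Language

theorem realize_term_mem {P V V' : Type} (G : LGraph P V) (G' : LGraph P V') {n : ℕ} (u : V)
    (u' : V') (xs : Fin n → V) (xs' : Fin n → V') (L : List (V × V')) (hu : (u, u') ∈ L)
    (hx : ∀ i, (xs i, xs' i) ∈ L) (t : (lang P).Term (Fin 1 ⊕ Fin n)) :
    (@Term.realize (lang P) V G.str _ (Sum.elim (fun _ => u) xs) t,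
      @Term.realize (lang P) V' G'.str _ (Sum.elim (fun _ => u') xs') t) ∈ L := by
  cases t with
  | var a =>
    rcases a with a | i
    · exact hu
    · exact hx i
  | func f _ => exact Empty.elim f

theorem realize_iff_of_eqv {P : Type} {n : ℕ} (φ : (lang P).BoundedFormula (Fin 1) n) :
    ∃ q : ℕ, ∀ (V V' : Type) (G : LGraph P V) (G' : LGraph P V') (u : V) (u' : V')
      (xs : Fin n → V) (xs' : Fin n → V') (L : List (V × V')), (u, u') ∈ L →
      (∀ i, (xs i, xs' i) ∈ L) → Eqv G G' q L →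
      (@BoundedFormula.Realize (lang P) V G.str (Fin 1) n φ (fun _ => u) xs ↔
        @BoundedFormula.Realize (lang P) V' G'.str (Fin 1) n φ (fun _ => u') xs') := by
  induction φ with
  | falsum => exact ⟨0, fun _ _ _ _ _ _ _ _ _ _ _ _ => Iff.rfl⟩
  | equal t₁ t₂ =>
    refine ⟨0, fun V V' G G' u u' xs xs' L hu hx h => ?_⟩
    exact (h.1 _ (realize_term_mem G G' u u' xs xs' L hu hx t₁) _
      (realize_term_mem G G' u u' xs xs' L hu hx t₂)).1
  | rel R ts =>
    refine ⟨0, fun V V' G G' u u' xs xs' L hu hx h => ?_⟩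
    cases R with
    | lab p => exact h.2 _ (realize_term_mem G G' u u' xs xs' L hu hx (ts 0)) p
    | adj =>
      exact (h.1 _ (realize_term_mem G G' u u' xs xs' L hu hx (ts 0)) _
        (realize_term_mem G G' u u' xs xs' L hu hx (ts 1))).2
  | imp f₁ f₂ ih₁ ih₂ =>
    obtain ⟨q₁, h₁⟩ := ih₁
    obtain ⟨q₂, h₂⟩ := ih₂
    refine ⟨max q₁ q₂, fun V V' G G' u u' xs xs' L hu hx h => ?_⟩
    exact imp_congr (h₁ V V' G G' u u' xs xs' L hu hx (h.mono (le_max_left _ _)))
      (h₂ V V' G G' u u' xs xs' L hu hx (h.mono (le_max_right _ _)))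
  | all f ih =>
    obtain ⟨q, hq⟩ := ih
    refine ⟨q + 1, fun V V' G G' u u' xs xs' L hu hx h => ?_⟩
    have key : ∀ (v : V) (v' : V'), Eqv G G' q ((v, v') :: L) →
        (@BoundedFormula.Realize (lang P) V G.str (Fin 1) _ f (fun _ => u) (Fin.snoc xs v) ↔
          @BoundedFormula.Realize (lang P) V' G'.str (Fin 1) _ f (fun _ => u')
            (Fin.snoc xs' v')) := by
      intro v v' hv
      refine hq V V' G G' u u' _ _ _ (List.mem_cons_of_mem _ hu) (fun i => ?_) hv
      induction i using Fin.lastCases with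
      | last => rw [Fin.snoc_last, Fin.snoc_last]; exact List.mem_cons_self
      | cast i => rw [Fin.snoc_castSucc, Fin.snoc_castSucc]; exact List.mem_cons_of_mem _ (hx i)
    constructor
    · intro h1 v'
      obtain ⟨v, hv⟩ := h.2.2 v'
      exact (key v v' hv).1 (h1 v)
    · intro h1 v
      obtain ⟨v', hv⟩ := h.2.1 v
      exact (key v v' hv).2 (h1 v')

theorem sat_iff_of_eqv {P : Type} (φ : (lang P).Formula (Fin 1)) :
    ∃ q : ℕ, ∀ (V V' : Type) (G : LGraph P V) (G' : LGraph P V') (u : V) (u' : V'),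
      Eqv G G' q [(u, u')] → (G.Sat φ u ↔ G'.Sat φ u') := by
  obtain ⟨q, hq⟩ := realize_iff_of_eqv φ
  refine ⟨q, fun V V' G G' u u' h => ?_⟩
  exact hq V V' G G' u u' default default _ List.mem_cons_self (fun i => i.elim0) h

end Pool.Agent.Lib.MP_0edfa1_lc
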