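import Pool.Agent.Lib.MP_0edfa1_lc.Check

/-!
# Validity and alternation are computable
-/

set_option autoImplicit false

namespace Pool.Agent.Lib.MP_0edfa1_lc

theorem localOKv_congr {α β : Type} {lab lab' : List Ptr → OLab} {pt : List Ptr → α}
    {pt' : List Ptr → β} (hl : ∀ w : List Ptr, w.length ≤ 3 → lab w = lab' w)
    (hp : ∀ w w' : List Ptr, w.length ≤ 3 → w'.length ≤ 3 → (pt w = pt w' ↔ pt' w = pt' w')) :
    LocalOKv lab pt ↔ LocalOKv lab' pt' := by
  have hl0 := hl [] (by simp)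
  have hl1 : ∀ i, lab [i] = lab' [i] := fun i => hl [i] (by simp)
  unfold LocalOKv LocalOKv.RowOK
  rw [hl0]
  simp only [hl1]
  have e : ∀ w w' : List Ptr, w.length ≤ 3 → w'.length ≤ 3 →
      (pt w = pt w') = (pt' w = pt' w') := fun w w' h h' => propext (hp w w' h h')
  simp (disch := decide) only [e, Ne]

/-- The key. -/
abbrev keyF : Feat ℝ := fun K v => K.key v

/-- The local condition. -/
def LOK : Feat Prop := fun K v =>
  LocalOKv (fun w => pullwF w olabOfF K v) (fun w => pullwF w keyF K v)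

theorem Cmp.lok : Cmp LOK := by
  have : Finite {w : List Ptr // w.length ≤ 3} := (List.finite_length_le Ptr 3).to_subtype
  have h1 : Cmp fun K v (w : {w : List Ptr // w.length ≤ 3}) =>
      (pullwF w.1 olabOfF K v, pullwF w.1 keyF K v) :=
    Cmp.pi fun w => (Cmp.olabOf.pullw w.1).prod (Cmp.key.pullw w.1)
  refine (h1.map fun d => LocalOKv
    (fun w => if h : w.length ≤ 3 then (d ⟨w, h⟩).1 else default)
    (fun w => if h : w.length ≤ 3 then (d ⟨w, h⟩).2 else 0)).congr fun K v => ?_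
  rw [eq_iff_iff]
  apply localOKv_congr
  · intro w hw
    rw [dif_pos hw]
  · intro w w' hw hw'
    rw [dif_pos hw, dif_pos hw']

section codes

variable {K : KG} {u : K.V} {O : Type} {M : PStr O} {f : O → K.V}

theorem Codes.key_eq (h : Codes K.G u M f) {a b : O} : K.key (f a) = K.key (f b) ↔ a = b :=
  ⟨fun h1 => h.inj (K.inj h1), fun h1 => by rw [h1]⟩

theorem Codes.lok (h : Codes K.G u M f) (o : O) : LOK K (f o) ↔ M.LocalOK o := by
  unfold LOK PStr.LocalOK
  apply localOKv_congr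
  · intro w _
    rw [h.pullw, h.olabOf]
  · intro w w' _ _
    rw [h.pullw, h.pullw]
    exact h.key_eq

/-- Quantification over the objects. -/
theorem Codes.forall (h : Codes K.G u M f) (B : K.V → Prop) :
    (∀ v, K.G.adj u v → K.G.IsObj v → B v) ↔ ∀ o, B (f o) := by
  constructor
  · intro h1 o
    exact h1 _ (h.obj o).1 (h.isObj o)
  · intro h1 v hv hv'
    obtain ⟨o, rfl⟩ := h.surj v hv hv'
    exact h1 o

theorem Codes.exists (h : Codes K.G u M f) (B : K.V → Prop) :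
    (∃ v, K.G.adj u v ∧ K.G.IsObj v ∧ B v) ↔ ∃ o, B (f o) := by
  constructor
  · rintro ⟨v, hv, hv', hB⟩
    obtain ⟨o, rfl⟩ := h.surj v hv hv'
    exact ⟨o, hB⟩
  · rintro ⟨o, ho⟩
    exact ⟨_, (h.obj o).1, h.isObj o, ho⟩

theorem Codes.exists_unique (h : Codes K.G u M f) (B : K.V → Prop) :
    (∃! v, K.G.adj u v ∧ K.G.IsObj v ∧ B v) ↔ ∃! o, B (f o) := by
  constructor
  · rintro ⟨v, ⟨hv, hv', hB⟩, hu⟩
    obtain ⟨o, rfl⟩ := h.surj v hv hv'
    exact ⟨o, hB, fun o' ho' => h.inj (hu _ ⟨(h.obj o').1, h.isObj o', ho'⟩)⟩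
  · rintro ⟨o, ho, hu⟩
    refine ⟨f o, ⟨(h.obj o).1, h.isObj o, ho⟩, ?_⟩
    rintro v ⟨hv, hv', hB⟩
    obtain ⟨o', rfl⟩ := h.surj v hv hv'
    rw [hu o' hB]

end codes

/-- A unique object with property `B` has its pointer `i` at the given object. -/
noncomputable def exuInF (i : Ptr) (B : Feat Prop) : Feat Prop := fun K v =>
  maxInF i B keyF K v ≠ none ∧ maxInF i B keyF K v = minInF i B keyF K v

theorem Cmp.exuIn (i : Ptr) {B : Feat Prop} (hB : Cmp B) : Cmp (exuInF i B) :=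
  ((hB.maxIn i Cmp.key).map fun o => o ≠ none).and
    ((hB.maxIn i Cmp.key).eq (hB.minIn i Cmp.key))

theorem Codes.exuIn {K : KG} {u : K.V} {O : Type} {M : PStr O} {f : O → K.V}
    (h : Codes K.G u M f) (i : Ptr) (B : Feat Prop) (x : O) :
    exuInF i B K (f x) ↔ ∃! o, M.ptr i o = x ∧ B K (f o) := by
  constructor
  · rintro ⟨h1, h2⟩
    obtain ⟨r, hr⟩ := Option.ne_none_iff_exists'.mp h1
    have h3 := hr
    rw [h2] at h3
    rw [h.maxIn_some] at hr
    rw [h.minIn_some] at h3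
    obtain ⟨o, ho1, ho2, ho3, ho4⟩ := hr
    obtain ⟨o', ho1', ho2', ho3', ho4'⟩ := h3
    refine ⟨o, ⟨ho1, ho2⟩, fun y hy => ?_⟩
    rw [← h.key_eq]
    have h5 := ho4 y hy.1 hy.2
    have h6 := ho4' y hy.1 hy.2
    simp only [keyF] at *
    linarith
  · rintro ⟨o, ⟨ho1, ho2⟩, ho3⟩
    have h1 : maxInF i B keyF K (f x) = some (K.key (f o)) := by
      rw [h.maxIn_some]
      exact ⟨o, ho1, ho2, rfl, fun o' h1 h2 => by rw [ho3 o' ⟨h1, h2⟩]⟩
    have h2 : minInF i B keyF K (f x) = some (K.key (f o)) := by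
      rw [h.minIn_some]
      exact ⟨o, ho1, ho2, rfl, fun o' h1 h2 => by rw [ho3 o' ⟨h1, h2⟩]⟩
    unfold exuInF
    rw [h1, h2]
    simp

/-- Validity. -/
def ValidF : Feat Prop := fun K u =>
  (∀ v, K.G.adj u v → K.G.IsObj v → LOK K v) ∧
  (∃! v, K.G.adj u v ∧ K.G.IsObj v ∧ ((olabOfF K v).srt = .X ∧ (olabOfF K v).root = true)) ∧
  (∀ v, K.G.adj u v → K.G.IsObj v → (olabOfF K v).srt = .X →
    exInF .hub (fun K v => (olabOfF K v).srt = .K ∧ pullF .pos keyF K v = pullF .hub keyF K v) K v) ∧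
  (∀ v, K.G.adj u v → K.G.IsObj v → (olabOfF K v).srt = .S →
    exuInF .hub (fun K v => (olabOfF K v).srt = .C ∧ (olabOfF K v).root = true) K v) ∧
  (∀ v, K.G.adj u v → K.G.IsObj v → (olabOfF K v).srt = .C → (olabOfF K v).isA = true →
    exInF .hub (fun K v => (olabOfF K v).srt = .T ∧ (olabOfF K v).root = true) K v)

theorem Cmp.srt (s : Srt) : Cmp fun K v => (olabOfF K v).srt = s :=
  Cmp.olabOf.map fun l => l.srt = s

theorem Cmp.root : Cmp fun K v => (olabOfF K v).root = true :=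
  Cmp.olabOf.map fun l => l.root = true

theorem Cmp.isA : Cmp fun K v => (olabOfF K v).isA = true :=
  Cmp.olabOf.map fun l => l.isA = true

theorem Cmp.validF : Cmp ValidF := by
  have hob := Cmp.isObj
  have h1 : Cmp fun K v => ∀ w, K.G.adj v w → K.G.IsObj w → LOK K w := (hob.imp Cmp.lok).nbr
  have h2 : Cmp fun K v => ∃! w, K.G.adj v w ∧ K.G.IsObj w ∧
      ((olabOfF K w).srt = .X ∧ (olabOfF K w).root = true) :=
    (hob.and ((Cmp.srt .X).and Cmp.root)).exu
  have h3 : Cmp fun K v => ∀ w, K.G.adj v w → K.G.IsObj w → (olabOfF K w).srt = .X →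
      exInF .hub (fun K v => (olabOfF K v).srt = .K ∧
        pullF .pos keyF K v = pullF .hub keyF K v) K w :=
    (hob.imp ((Cmp.srt .X).imp (Cmp.exIn .hub ((Cmp.srt .K).and
      ((Cmp.key.pull .pos).eq (Cmp.key.pull .hub)))))).nbr
  have h4 : Cmp fun K v => ∀ w, K.G.adj v w → K.G.IsObj w → (olabOfF K w).srt = .S →
      exuInF .hub (fun K v => (olabOfF K v).srt = .C ∧ (olabOfF K v).root = true) K w :=
    (hob.imp ((Cmp.srt .S).imp (Cmp.exuIn .hub ((Cmp.srt .C).and Cmp.root)))).nbr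
  have h5 : Cmp fun K v => ∀ w, K.G.adj v w → K.G.IsObj w → (olabOfF K w).srt = .C →
      (olabOfF K w).isA = true →
      exInF .hub (fun K v => (olabOfF K v).srt = .T ∧ (olabOfF K v).root = true) K w :=
    (hob.imp ((Cmp.srt .C).imp (Cmp.isA.imp (Cmp.exIn .hub ((Cmp.srt .T).and Cmp.root))))).nbr
  exact h1.and (h2.and (h3.and (h4.and h5)))

theorem Codes.validF {K : KG} {u : K.V} {O : Type} {M : PStr O} {f : O → K.V}
    (h : Codes K.G u M f) : ValidF K u ↔ M.Valid := by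
  have e1 := h.forall (fun v => LOK K v)
  have e2 := h.exists_unique (fun v => (olabOfF K v).srt = .X ∧ (olabOfF K v).root = true)
  have e3 := h.forall (fun v => (olabOfF K v).srt = .X → exInF .hub
    (fun K v => (olabOfF K v).srt = .K ∧ pullF .pos keyF K v = pullF .hub keyF K v) K v)
  have e4 := h.forall (fun v => (olabOfF K v).srt = .S →
    exuInF .hub (fun K v => (olabOfF K v).srt = .C ∧ (olabOfF K v).root = true) K v)
  have e5 := h.forall (fun v => (olabOfF K v).srt = .C → (olabOfF K v).isA = true →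
    exInF .hub (fun K v => (olabOfF K v).srt = .T ∧ (olabOfF K v).root = true) K v)
  unfold ValidF
  rw [e1, e2, e3, e4, e5]
  simp only [h.lok, h.exIn, h.exuIn, h.olabOf, h.pull, h.key_eq]
  exact ⟨fun ⟨a, b, c, d, e⟩ => ⟨a, b, c, d, e⟩, fun ⟨a, b, c, d, e⟩ => ⟨a, b, c, d, e⟩⟩

/-- The objects over `c` at atoms with larger key. -/
noncomputable def AboveF : Feat Prop := fun K t =>
  (olabOfF K t).srt = .T ∧ (olabOfF K t).isA = true ∧
    pullF .hub (pullF .pos keyF) K t < pullF .pos keyF K t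

/-- The objects over `c` at atoms with smaller key. -/
noncomputable def BelowF : Feat Prop := fun K t =>
  (olabOfF K t).srt = .T ∧ (olabOfF K t).isA = true ∧
    pullF .pos keyF K t < pullF .hub (pullF .pos keyF) K t

/-- The bit of the cell `qa t`. -/
noncomputable def QF (b : Bool) : Feat Prop := fun K t => pullF .qa (fun K v => (olabOfF K v).bit) K t = b

theorem Cmp.aboveF : Cmp AboveF :=
  (Cmp.srt .T).and (Cmp.isA.and (Cmp.map₂ (fun a b : ℝ => a < b)
    ((Cmp.key.pull .pos).pull .hub) (Cmp.key.pull .pos)))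

theorem Cmp.belowF : Cmp BelowF :=
  (Cmp.srt .T).and (Cmp.isA.and (Cmp.map₂ (fun a b : ℝ => a < b)
    (Cmp.key.pull .pos) ((Cmp.key.pull .pos).pull .hub)))

theorem Cmp.qF (b : Bool) : Cmp (QF b) := by
  have h : Cmp fun K v => (olabOfF K v).bit := Cmp.olabOf.map OLab.bit
  exact (h.pull .qa).map fun c => c = b

/-- Smallest key of the position of an object above `c` with bit `b`. -/
noncomputable def mF (b : Bool) : Feat (Option ℝ) :=
  minInF .hub (fun K t => AboveF K t ∧ QF b K t) (pullF .pos keyF)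

theorem Cmp.mF (b : Bool) : Cmp (mF b) :=
  Cmp.minIn .hub (Cmp.aboveF.and (Cmp.qF b)) (Cmp.key.pull .pos)

/-- The condition `GoodC`. -/
def GoodCF : Feat Prop := fun K c =>
  ((olabOfF K c).bit = true → ∃ a, mF false K c = some a ∧ ∀ b, mF true K c = some b → a < b) ∧
  ((olabOfF K c).bit = false → ∀ a, mF false K c = some a → ∃ b, mF true K c = some b ∧ b < a) ∧
  ((olabOfF K c).bit = false → exInF .hub BelowF K c)

theorem Cmp.bit (b : Bool) : Cmp fun K v => (olabOfF K v).bit = b :=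
  Cmp.olabOf.map fun l => l.bit = b

theorem Cmp.goodCF : Cmp GoodCF :=
  ((Cmp.bit true).imp (Cmp.map₂ (fun x y : Option ℝ => ∃ a, x = some a ∧ ∀ b, y = some b → a < b)
    (Cmp.mF false) (Cmp.mF true))).and
  (((Cmp.bit false).imp (Cmp.map₂
    (fun x y : Option ℝ => ∀ a, x = some a → ∃ b, y = some b ∧ b < a)
    (Cmp.mF false) (Cmp.mF true))).and ((Cmp.bit false).imp (Cmp.exIn .hub Cmp.belowF)))

section codes3

variable {K : KG} {u : K.V} {O : Type} {M : PStr O} {f : O → K.V}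

theorem Codes.above (h : Codes K.G u M f) (c t : O) :
    M.ptr .hub t = c ∧ AboveF K (f t) ↔ M.Above (K.key ∘ f) c t := by
  unfold AboveF PStr.Above
  simp only [h.olabOf, h.pull, Function.comp]

theorem Codes.below (h : Codes K.G u M f) (c t : O) :
    M.ptr .hub t = c ∧ BelowF K (f t) ↔ M.Below (K.key ∘ f) c t := by
  unfold BelowF PStr.Below
  simp only [h.olabOf, h.pull, Function.comp]

theorem Codes.qF (h : Codes K.G u M f) (b : Bool) (t : O) :
    QF b K (f t) ↔ (M.lab (M.ptr .qa t)).bit = b := by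
  unfold QF
  rw [h.pull, h.olabOf]

theorem Codes.mF_some (h : Codes K.G u M f) (b : Bool) (c : O) (r : ℝ) :
    mF b K (f c) = some r ↔ ∃ t, M.Above (K.key ∘ f) c t ∧ (M.lab (M.ptr .qa t)).bit = b ∧
      (K.key ∘ f) (M.ptr .pos t) = r ∧ ∀ t', M.Above (K.key ∘ f) c t' →
        (M.lab (M.ptr .qa t')).bit = b → r ≤ (K.key ∘ f) (M.ptr .pos t') := by
  unfold mF
  rw [h.minIn_some]
  simp only [h.pull, h.qF, ← h.above]
  constructor
  · rintro ⟨o, h1, ⟨h2, h3⟩, h4, h5⟩
    exact ⟨o, ⟨h1, h2⟩, h3, h4, fun t' h6 h7 => h5 t' h6.1 ⟨h6.2, h7⟩⟩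
  · rintro ⟨o, ⟨h1, h2⟩, h3, h4, h5⟩
    exact ⟨o, h1, ⟨h2, h3⟩, h4, fun t' h6 h7 => h5 t' ⟨h6, h7.1⟩ h7.2⟩

theorem Codes.mF_of_above (h : Codes K.G u M f) (b : Bool) (c t : O)
    (ht : M.Above (K.key ∘ f) c t) (hb : (M.lab (M.ptr .qa t)).bit = b) :
    ∃ r, mF b K (f c) = some r ∧ r ≤ (K.key ∘ f) (M.ptr .pos t) := by
  rcases hm : mF b K (f c) with _ | r
  · exfalso
    unfold mF at hm
    rw [h.minIn_none] at hm
    rw [← h.above] at ht
    exact hm ⟨t, ht.1, ht.2, (h.qF b t).mpr hb⟩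
  · refine ⟨r, rfl, ?_⟩
    obtain ⟨t', h1, h2, h3, h4⟩ := (h.mF_some b c r).mp hm
    exact h4 t ht hb

theorem Codes.goodCF (h : Codes K.G u M f) (c : O) :
    GoodCF K (f c) ↔ M.GoodC (K.key ∘ f) c := by
  unfold GoodCF PStr.GoodC
  rw [h.olabOf]
  refine and_congr (imp_congr_right fun _ => ?_) (and_congr (imp_congr_right fun _ => ?_)
    (imp_congr_right fun _ => ?_))
  · constructor
    · rintro ⟨a, ha, hb⟩
      obtain ⟨t, h1, h2, h3, h4⟩ := (h.mF_some false c a).mp ha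
      refine ⟨t, h1, h2, fun t' h5 h6 => ?_⟩
      obtain ⟨r, hr, hr'⟩ := h.mF_of_above true c t' h5 h6
      rw [h3]
      exact (hb r hr).trans_le hr'
    · rintro ⟨t, h1, h2, h3⟩
      obtain ⟨r, hr, hr'⟩ := h.mF_of_above false c t h1 h2
      refine ⟨r, hr, fun b hb => ?_⟩
      obtain ⟨t', h4, h5, h6, -⟩ := (h.mF_some true c b).mp hb
      rw [← h6]
      exact hr'.trans_lt (h3 t' h4 h5)
  · constructor
    · intro h1 t h2 h3
      obtain ⟨r, hr, hr'⟩ := h.mF_of_above false c t h2 h3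
      obtain ⟨b, hb, hb'⟩ := h1 r hr
      obtain ⟨t', h4, h5, h6, -⟩ := (h.mF_some true c b).mp hb
      refine ⟨t', h4, h5, ?_⟩
      rw [h6]
      exact hb'.trans_le hr'
    · intro h1 a ha
      obtain ⟨t, h2, h3, h4, -⟩ := (h.mF_some false c a).mp ha
      obtain ⟨t', h5, h6, h7⟩ := h1 t h2 h3
      obtain ⟨r, hr, hr'⟩ := h.mF_of_above true c t' h5 h6
      refine ⟨r, hr, ?_⟩
      rw [← h4]
      exact hr'.trans_lt h7
  · rw [h.exIn]
    simp only [h.below]

end codes3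

/-- The condition `GoodS`. -/
def GoodSF : Feat Prop := fun K s =>
  (olabOfF K s).srt = .S ∧ ¬ exInF .hub (fun K c => (olabOfF K c).srt = .C ∧
    (olabOfF K c).isA = true ∧ ¬ GoodCF K c) K s

theorem Cmp.goodSF : Cmp GoodSF :=
  (Cmp.srt .S).and (Cmp.exIn .hub ((Cmp.srt .C).and (Cmp.isA.and Cmp.goodCF.not))).not

theorem Codes.goodSF {K : KG} {u : K.V} {O : Type} {M : PStr O} {f : O → K.V}
    (h : Codes K.G u M f) (s : O) : GoodSF K (f s) ↔ M.GoodS (K.key ∘ f) s := by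
  unfold GoodSF PStr.GoodS
  rw [h.exIn, h.olabOf]
  refine and_congr_right fun _ => ?_
  simp only [h.olabOf, h.goodCF]
  push Not
  rfl

/-- Acceptance. -/
def AcceptF : Feat Prop := fun K u =>
  PortOK K.G u ∧ ValidF K u ∧ ∃ v, K.G.adj u v ∧ K.G.IsObj v ∧ GoodSF K v

theorem Cmp.acceptF : Cmp AcceptF :=
  Cmp.portOK.and (Cmp.validF.and (Cmp.isObj.and Cmp.goodSF).ex)

theorem Codes.portOK {V O : Type} {G : LGraph NLab V} {u : V} {M : PStr O} {f : O → V}
    (h : Codes G u M f) : PortOK G u := by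
  refine ⟨h.top, h.nbr, h.closed, ?_, h.out_obj, h.out_inn, h.inn_out, h.inn_obj⟩
  intro v i hv hv'
  obtain ⟨o, rfl⟩ := h.surj v hv hv'
  exact h.obj_out o i

theorem exists_gnn' (hport : ∀ (V : Type) (G : LGraph NLab V), G.Undirected → ∀ u : V,
      PortOK G u → ∃ (O : Type) (M : PStr O) (f : O → V), Codes G u M f) :
    ∃ e : Expr NLab, ∀ (V : Type) [Finite V] (G : LGraph NLab V),
    G.Undirected → ∀ (u : V) (key : V → ℝ), Function.Injective key →
      (∀ (O : Type) (M : PStr O) (f : O → V), Codes G u M f →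
        (0 < e.eval G key u ↔ M.Valid ∧ ∃ s, M.GoodS (key ∘ f) s)) ∧
      ((∀ (O : Type) (M : PStr O) (f : O → V), ¬ Codes G u M f) → ¬ 0 < e.eval G key u) := by
  classical
  obtain ⟨e, enc, henc, he⟩ := Cmp.acceptF
  have hTF : enc False ≠ enc True := fun h => by simpa using henc h
  set e' : Expr NLab := .comb 1 (fun x => if x 0 = enc True then 1 else 0) fun _ => e with he'
  have hacc : ∀ (K : KG) (v : K.V), 0 < e'.eval K.G K.key v ↔ AcceptF K v := by
    intro K v
    simp only [he', Expr.eval, he]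
    by_cases h : AcceptF K v
    · simp [h]
    · simp [h, hTF]
  refine ⟨e', fun V hV G hG u key hkey => ?_⟩
  let K : KG := ⟨V, hV, G, hG, key, hkey⟩
  have hK := hacc K u
  refine ⟨fun O M f h => ?_, fun h => ?_⟩
  · have h' : Codes K.G u M f := h
    refine hK.trans ?_
    unfold AcceptF
    rw [h'.validF, h'.exists (fun v => GoodSF K v)]
    simp only [h'.goodSF]
    exact ⟨fun h2 => h2.2, fun h2 => ⟨h.portOK, h2⟩⟩
  · intro h1
    obtain ⟨O, M, f, hc⟩ := hport V G hG u (hK.mp h1).1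
    exact h O M f hc

end Pool.Agent.Lib.MP_0edfa1_lc
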