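import Pool.Agent.Lib.MP_0edfa1_lc.PortCmp

/-!
# Graphs with the port conditions code pointer structures
-/

set_option autoImplicit false

namespace Pool.Agent.Lib.MP_0edfa1_lc

theorem PortOK.adj_of {V : Type} {G : LGraph NLab V} {u : V} (h : PortOK G u) {v w : V} {p : NLab}
    (hv : G.adj u v) (hw : G.adj v w) (hp : G.HasLab w p) (hpt : p ≠ .top) : G.adj u w := by
  rcases h.closed v w hv hw with h1 | h1
  · subst h1
    exact absurd (hp.unique h.top) hpt
  · exact h1

theorem exists_codes {V : Type} (G : LGraph NLab V) (u : V)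
    (h : PortOK G u) : ∃ (O : Type) (M : PStr O) (f : O → V), Codes G u M f := by
  classical
  -- objects
  let O := {v // G.adj u v ∧ G.IsObj v}
  have hout : ∀ (o : O) (i : Ptr), ∃! w, G.adj o.1 w ∧ G.HasLab w (.out i) :=
    fun o i => h.obj_out o.1 i o.2.1 o.2.2
  have hout' : ∀ (o : O) (i : Ptr), G.adj u (hout o i).choose := fun o i =>
    h.adj_of o.2.1 (hout o i).choose_spec.1.1 (hout o i).choose_spec.1.2 (by simp)
  have hinn : ∀ (o : O) (i : Ptr), ∃! w, G.adj (hout o i).choose w ∧ G.HasLab w (.inn i) :=
    fun o i => h.out_inn _ i (hout' o i) (hout o i).choose_spec.1.2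
  have hinn' : ∀ (o : O) (i : Ptr), G.adj u (hinn o i).choose := fun o i =>
    h.adj_of (hout' o i) (hinn o i).choose_spec.1.1 (hinn o i).choose_spec.1.2 (by simp)
  have hobj : ∀ (o : O) (i : Ptr), ∃! w, G.adj (hinn o i).choose w ∧ G.IsObj w :=
    fun o i => h.inn_obj _ i (hinn' o i) (hinn o i).choose_spec.1.2
  have hobj' : ∀ (o : O) (i : Ptr), G.adj u (hobj o i).choose := by
    intro o i
    obtain ⟨l, hl⟩ := (hobj o i).choose_spec.1.2
    exact h.adj_of (hinn' o i) (hobj o i).choose_spec.1.1 hl (by simp)
  let M : PStr O :=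
    { lab := fun o => o.2.2.choose
      ptr := fun i o => ⟨(hobj o i).choose, hobj' o i, (hobj o i).choose_spec.1.2⟩ }
  refine ⟨O, M, Subtype.val, Subtype.val_injective, h.top, h.nbr, h.closed, ?_, ?_, hout,
    h.out_obj, h.out_inn, h.inn_out, h.inn_obj, ?_⟩
  · intro o
    exact ⟨o.2.1, o.2.2.choose_spec⟩
  · intro v hv hv'
    exact ⟨⟨v, hv, hv'⟩, rfl⟩
  · intro o i y z hy1 hy2 hz1 hz2
    have e1 : y = (hout o i).choose := (hout o i).unique ⟨hy1, hy2⟩ (hout o i).choose_spec.1
    subst e1
    have e2 : z = (hinn o i).choose := (hinn o i).unique ⟨hz1, hz2⟩ (hinn o i).choose_spec.1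
    subst e2
    exact (hobj o i).choose_spec.1.1

theorem portOK_iff {V : Type} (G : LGraph NLab V) (u : V) :
    PortOK G u ↔ ∃ (O : Type) (M : PStr O) (f : O → V), Codes G u M f := by
  constructor
  · exact exists_codes G u
  · rintro ⟨O, M, f, h⟩
    refine ⟨h.top, h.nbr, h.closed, ?_, h.out_obj, h.out_inn, h.inn_out, h.inn_obj⟩
    intro v i hv hv'
    obtain ⟨o, rfl⟩ := h.surj v hv hv'
    exact h.obj_out o i

theorem hasLab_graph {O : Type} (M : PStr O) (a : Node O) (p : NLab) :
    M.graph.HasLab a p ↔ M.nlab a = p := by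
  constructor
  · intro h
    exact (h (M.nlab a)).mp rfl
  · rintro rfl p'
    rfl

theorem codes_graph {O : Type} (M : PStr O) : Codes M.graph .top M .obj := by
  have hadj : ∀ a b, M.graph.adj a b ↔ M.Edge a b ∨ M.Edge b a := fun a b => Iff.rfl
  refine ⟨fun a b h => Node.obj.inj h, ?_, ?_, ?_, ?_, ?_, ?_, ?_, ?_, ?_, ?_, ?_⟩
  · rw [hasLab_graph]
    rfl
  · intro v hv
    simp only [hasLab_graph]
    refine ⟨_, ?_, rfl⟩
    rintro h
    rcases hv with hv | hv
    · cases hv <;> cases h
    · cases hv
  · intro v w _ _
    cases w with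
    | top => exact Or.inl rfl
    | obj o => exact Or.inr (Or.inl (.top_obj o))
    | out o i => exact Or.inr (Or.inl (.top_out o i))
    | inn o i => exact Or.inr (Or.inl (.top_inn o i))
  · intro o
    rw [hasLab_graph]
    exact ⟨Or.inl (.top_obj o), rfl⟩
  · rintro v - ⟨l, hl⟩
    rw [hasLab_graph] at hl
    cases v with
    | obj o => exact ⟨o, rfl⟩
    | top => cases hl
    | out o i => cases hl
    | inn o i => cases hl
  · intro o i
    simp only [hasLab_graph]
    refine ⟨.out o i, ⟨Or.inl (.obj_out o i), rfl⟩, ?_⟩
    rintro w ⟨hw1, hw2⟩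
    cases w with
    | top => cases hw2
    | obj o' => cases hw2
    | inn o' i' => cases hw2
    | out o' i' =>
      cases hw2
      rcases hw1 with hw1 | hw1
      · cases hw1
        rfl
      · cases hw1
  · intro v i hv hv'
    rw [hasLab_graph] at hv'
    cases v with
    | top => cases hv'
    | obj o' => cases hv'
    | inn o' i' => cases hv'
    | out o' i' =>
      cases hv'
      refine ⟨.obj o', ⟨Or.inr (.obj_out o' i), _, (hasLab_graph M _ _).mpr rfl⟩, ?_⟩
      rintro w ⟨hw1, l, hw2⟩
      rw [hasLab_graph] at hw2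
      cases w with
      | top => cases hw2
      | out o'' i'' => cases hw2
      | inn o'' i'' => cases hw2
      | obj o'' =>
        rcases hw1 with hw1 | hw1
        · cases hw1
        · cases hw1
          rfl
  · intro v i hv hv'
    rw [hasLab_graph] at hv'
    cases v with
    | top => cases hv'
    | obj o' => cases hv'
    | inn o' i' => cases hv'
    | out o' i' =>
      cases hv'
      refine ⟨.inn o' i, ⟨Or.inl (.out_inn o' i), (hasLab_graph M _ _).mpr rfl⟩, ?_⟩
      rintro w ⟨hw1, hw2⟩
      rw [hasLab_graph] at hw2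
      cases w with
      | top => cases hw2
      | out o'' i'' => cases hw2
      | obj o'' => cases hw2
      | inn o'' i'' =>
        rcases hw1 with hw1 | hw1
        · cases hw1
          rfl
        · cases hw1
  · intro v i hv hv'
    rw [hasLab_graph] at hv'
    cases v with
    | top => cases hv'
    | obj o' => cases hv'
    | out o' i' => cases hv'
    | inn o' i' =>
      cases hv'
      refine ⟨.out o' i, ⟨Or.inr (.out_inn o' i), (hasLab_graph M _ _).mpr rfl⟩, ?_⟩
      rintro w ⟨hw1, hw2⟩
      rw [hasLab_graph] at hw2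
      cases w with
      | top => cases hw2
      | inn o'' i'' => cases hw2
      | obj o'' => cases hw2
      | out o'' i'' =>
        rcases hw1 with hw1 | hw1
        · cases hw1
        · cases hw1
          rfl
  · intro v i hv hv'
    rw [hasLab_graph] at hv'
    cases v with
    | top => cases hv'
    | obj o' => cases hv'
    | out o' i' => cases hv'
    | inn o' i' =>
      cases hv'
      refine ⟨.obj (M.ptr i o'), ⟨Or.inl (.inn_obj o' i), _, (hasLab_graph M _ _).mpr rfl⟩, ?_⟩
      rintro w ⟨hw1, l, hw2⟩
      rw [hasLab_graph] at hw2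
      cases w with
      | top => cases hw2
      | out o'' i'' => cases hw2
      | inn o'' i'' => cases hw2
      | obj o'' =>
        rcases hw1 with hw1 | hw1
        · cases hw1
          rfl
        · cases hw1
  · intro o i y z hy1 hy2 hz1 hz2
    rw [hasLab_graph] at hy2 hz2
    cases y with
    | top => cases hy2
    | obj o' => cases hy2
    | inn o' i' => cases hy2
    | out o' i' =>
      cases hy2
      cases z with
      | top => cases hz2
      | obj o' => cases hz2
      | out o' i' => cases hz2
      | inn o'' i'' =>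
        cases hz2
        have e1 : o' = o := by
          rcases hy1 with h | h
          · cases h
            rfl
          · cases h
        have e2 : o'' = o' := by
          rcases hz1 with h | h
          · cases h
            rfl
          · cases h
        subst e1 e2
        exact Or.inl (.inn_obj _ _)

end Pool.Agent.Lib.MP_0edfa1_lc
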