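import Pool.Agent.Lib.MP_0edfa1_lc.Eval
import Pool.Agent.Lib.MP_0edfa1_lc.Port

/-!
# The expression which recognises valid pointer structures with an alternating set
-/

set_option autoImplicit false

namespace Pool.Agent.Lib.MP_0edfa1_lc

theorem exists_gnn : ∃ e : Expr NLab, ∀ (V : Type) [Finite V] (G : LGraph NLab V),
    G.Undirected → ∀ (u : V) (key : V → ℝ), Function.Injective key →
      (∀ (O : Type) (M : PStr O) (f : O → V), Codes G u M f →
        (0 < e.eval G key u ↔ M.Valid ∧ ∃ s, M.GoodS (key ∘ f) s)) ∧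
      ((∀ (O : Type) (M : PStr O) (f : O → V), ¬ Codes G u M f) → ¬ 0 < e.eval G key u) :=
  exists_gnn' fun _ G _ u h => exists_codes G u h

end Pool.Agent.Lib.MP_0edfa1_lc
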