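import Pool.Agent.Lib.MP_0edfa1_lc.PStr

/-!
# The graph of a pointer structure, and the comb structures
-/

set_option autoImplicit false

namespace Pool.Agent.Lib.MP_0edfa1_lc

/-- Node labels. -/
inductive NLab
  | top
  | obj (l : OLab)
  | out (i : Ptr)
  | inn (i : Ptr)
  deriving DecidableEq

instance : Finite NLab :=
  Finite.of_injective (fun l : NLab => (match l with
    | .top => Sum.inl ()
    | .obj l => Sum.inr (Sum.inl l)
    | .out i => Sum.inr (Sum.inr (Sum.inl i))
    | .inn i => Sum.inr (Sum.inr (Sum.inr i)) : Unit ⊕ OLab ⊕ Ptr ⊕ Ptr))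
    (by intro a b h; cases a <;> cases b <;> simp_all)

/-- Nodes of the graph of a pointer structure: `top`, the objects, and for each object `o` and
pointer `i` the two port nodes `out o i`, `inn o i`. -/
inductive Node (O : Type)
  | top
  | obj (o : O)
  | out (o : O) (i : Ptr)
  | inn (o : O) (i : Ptr)
  deriving DecidableEq

/-- The label of a node. -/
def PStr.nlab {O : Type} (M : PStr O) : Node O → NLab
  | .top => .top
  | .obj o => .obj (M.lab o)
  | .out _ i => .out i
  | .inn _ i => .inn i

/-- The edges, one direction. -/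
inductive PStr.Edge {O : Type} (M : PStr O) : Node O → Node O → Prop
  | top_obj (o : O) : PStr.Edge M .top (.obj o)
  | top_out (o : O) (i : Ptr) : PStr.Edge M .top (.out o i)
  | top_inn (o : O) (i : Ptr) : PStr.Edge M .top (.inn o i)
  | obj_out (o : O) (i : Ptr) : PStr.Edge M (.obj o) (.out o i)
  | out_inn (o : O) (i : Ptr) : PStr.Edge M (.out o i) (.inn o i)
  | inn_obj (o : O) (i : Ptr) : PStr.Edge M (.inn o i) (.obj (M.ptr i o))

/-- The graph of a pointer structure: `top` is adjacent to all other nodes, and there are paths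
`o — out o i — inn o i — ptr i o`. -/
def PStr.graph {O : Type} (M : PStr O) : LGraph NLab (Node O) where
  adj a b := M.Edge a b ∨ M.Edge b a
  lab a p := p = M.nlab a

/-- Base points of the comb: column `j < m` and level `l ≤ n`. -/
abbrev Pt (m n : ℕ) := Fin m × Fin (n + 1)

/-- The parent: one level up in the column; on level `0` the left neighbour. -/
def Pt.par {m n : ℕ} (x : Pt m n) : Pt m n :=
  if x.2.val = 0 then (⟨x.1.val - 1, by omega⟩, x.2) else (x.1, ⟨x.2.val - 1, by omega⟩)

/-- One level down. -/
def Pt.dn {m n : ℕ} (x : Pt m n) : Pt m n :=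
  if h : x.2.val < n then (x.1, ⟨x.2.val + 1, by omega⟩) else x

/-- On level `0` the right neighbour. -/
def Pt.rt {m n : ℕ} (x : Pt m n) : Pt m n :=
  if h : x.2.val = 0 ∧ x.1.val + 1 < m then (⟨x.1.val + 1, h.2⟩, x.2) else x

/-- `p` is on a lower level than `h`, or both are on level `0` and `p` is left of `h`. -/
def Pt.lt {m n : ℕ} (p h : Pt m n) : Bool :=
  p.2.val < h.2.val || (p.2.val = 0 && h.2.val = 0 && p.1.val < h.1.val)

/-- The atoms are the lowest points of the columns in `A`. -/
def Pt.isA {m n : ℕ} (A : Fin m → Bool) (x : Pt m n) : Bool :=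
  x.2.val = n && A x.1

/-- Flip the column of `x` if `x` is an atom. -/
def Pt.flip {m n : ℕ} (A : Fin m → Bool) (b : Fin m → Bool) (x : Pt m n) : Fin m → Bool :=
  fun j => if Pt.isA A x && j = x.1 then !(b j) else b j

/-- Objects of the comb structure. -/
inductive Obj (m n : ℕ)
  | x (p : Pt m n)
  | k (h p : Pt m n)
  | s (b : Fin m → Bool)
  | c (b : Fin m → Bool) (p : Pt m n)
  | t (b : Fin m → Bool) (h p : Pt m n)
  deriving DecidableEq

/-- The label of an object with position `p`. -/
def Pt.olab {m n : ℕ} (A : Fin m → Bool) (srt : Srt) (p : Pt m n) (bit : Bool) : OLab where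
  srt := srt
  root := p.1.val = 0 && p.2.val = 0
  kind := p.2.val = 0
  hasDn := p.2.val < n
  hasRt := p.2.val = 0 && p.1.val + 1 < m
  isA := Pt.isA A p
  bit := bit

/-- The comb structure with columns `j < m`, levels `l ≤ n` and atoms below the columns in `A`. -/
def comb (m n : ℕ) (A : Fin m → Bool) : PStr (Obj m n) where
  lab
    | .x p => Pt.olab A .X p false
    | .k h p => Pt.olab A .K p (Pt.lt p h)
    | .s _ => ⟨.S, false, false, false, false, false, false⟩
    | .c b p => Pt.olab A .C p (Pt.isA A p && b p.1)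
    | .t _ _ p => Pt.olab A .T p false
  ptr
    | .par, .x p => .x p.par
    | .dn, .x p => .x p.dn
    | .rt, .x p => .x p.rt
    | .par, .k h p => .k h p.par
    | .dn, .k h p => .k h p.dn
    | .rt, .k h p => .k h p.rt
    | .hub, .k h _ => .x h
    | .pos, .k _ p => .x p
    | .par, .c b p => .c b p.par
    | .dn, .c b p => .c b p.dn
    | .rt, .c b p => .c b p.rt
    | .hub, .c b _ => .s b
    | .pos, .c _ p => .x p
    | .qa, .c b p => .c (Pt.flip A b p) p
    | .par, .t b h p => .t b h p.par
    | .dn, .t b h p => .t b h p.dn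
    | .rt, .t b h p => .t b h p.rt
    | .hub, .t b h _ => .c b h
    | .pos, .t _ _ p => .x p
    | .qa, .t b _ p => .c b p
    | .qb, .t b h p => .c (Pt.flip A b h) p
    | _, o => o

end Pool.Agent.Lib.MP_0edfa1_lc
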