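import Pool.Agent.Lib.MP_0edfa1_lc.Defs

/-!
# Pointer structures

Finite sets of labelled objects with total unary functions (pointers), and the local conditions
`Valid` which force them to code all subsets of a set of atoms.
-/

set_option autoImplicit false

namespace Pool.Agent.Lib.MP_0edfa1_lc

/-- Sorts of objects: base points `X`, certificates `K` (pairs of base points), sets `S`, cells `C`
(pairs of a set and a base point), cells `T` over cells. -/
inductive Srt
  | X | K | S | C | T
  deriving DecidableEq

instance : Finite Srt :=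
  Finite.of_injective (fun s : Srt => (match s with
    | .X => 0 | .K => 1 | .S => 2 | .C => 3 | .T => 4 : Fin 5))
    (by intro a b h; cases a <;> cases b <;> simp_all)

/-- Labels of objects. `root`, `kind`, `hasDn`, `hasRt`, `isA` are labels of base points, which the
cells copy from their position; `bit` is an additional bit. -/
structure OLab where
  srt : Srt
  root : Bool
  kind : Bool
  hasDn : Bool
  hasRt : Bool
  isA : Bool
  bit : Bool
  deriving DecidableEq

instance : Finite OLab :=
  Finite.of_injective
    (fun l : OLab => (l.srt, l.root, l.kind, l.hasDn, l.hasRt, l.isA, l.bit))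
    (by intro a b h; cases a; cases b; simp_all)

/-- Pointers. -/
inductive Ptr
  | par | dn | rt | hub | pos | qa | qb
  deriving DecidableEq

instance : Finite Ptr :=
  Finite.of_injective (fun s : Ptr => (match s with
    | .par => 0 | .dn => 1 | .rt => 2 | .hub => 3 | .pos => 4 | .qa => 5 | .qb => 6 : Fin 7))
    (by intro a b h; cases a <;> cases b <;> simp_all)

/-- The labels copied by cells agree. -/
def OLab.sameX (a b : OLab) : Prop :=
  a.root = b.root ∧ a.kind = b.kind ∧ a.hasDn = b.hasDn ∧ a.hasRt = b.hasRt ∧ a.isA = b.isA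

/-- Pointer structures on `O`. -/
structure PStr (O : Type) where
  lab : O → OLab
  ptr : Ptr → O → O

/-- Follow the pointers in the list `w`, first entry first. -/
def PStr.walk {O : Type} (M : PStr O) : List Ptr → O → O
  | [], o => o
  | i :: w, o => M.walk w (M.ptr i o)

section local_

open Ptr

/-- The local condition at an object, in terms of the labels and the end points of the paths
of pointers starting there (only equality of end points is used). -/
def LocalOKv {α : Type} (lab : List Ptr → OLab) (pt : List Ptr → α) : Prop :=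
  match (lab []).srt with
  | .X => (lab []).root = false → (lab [par]).srt = .X ∧
      ((lab []).kind = false → pt [par, dn] = pt [] ∧ (lab [par]).hasDn = true) ∧
      ((lab []).kind = true → pt [par, rt] = pt [] ∧ (lab [par]).hasRt = true)
  | .S => True
  | .K => RowOK ∧ (lab [hub]).srt = .X ∧ (pt [pos] = pt [hub] → (lab []).bit = false) ∧
      ((lab []).root = false → (pt [pos] = pt [hub] ∨ (lab []).bit = true) →
        (lab [par]).bit = true)
  | .C => RowOK ∧ (lab [hub]).srt = .S ∧
      ((lab []).isA = true → (lab [qa]).srt = .C ∧ pt [qa, pos] = pt [pos] ∧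
        (lab [qa]).bit ≠ (lab []).bit)
  | .T => RowOK ∧ (lab [hub]).srt = .C ∧
      (lab [qa]).srt = .C ∧ pt [qa, hub] = pt [hub, hub] ∧ pt [qa, pos] = pt [pos] ∧
      (lab [qb]).srt = .C ∧ pt [qb, hub] = pt [hub, qa, hub] ∧ pt [qb, pos] = pt [pos] ∧
      ((lab []).isA = true → pt [pos] ≠ pt [hub, pos] → (lab [qa]).bit = (lab [qb]).bit)
where
  /-- The condition common to all cells. -/
  RowOK : Prop :=
    (lab [pos]).srt = .X ∧ (lab [pos]).sameX (lab []) ∧
    ((lab []).root = false → (lab [par]).srt = (lab []).srt ∧ pt [par, hub] = pt [hub] ∧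
      pt [par, pos] = pt [pos, par] ∧
      ((lab []).kind = false → pt [par, dn] = pt []) ∧
      ((lab []).kind = true → pt [par, rt] = pt [])) ∧
    ((lab []).hasDn = true → (lab [dn]).srt = (lab []).srt ∧ pt [dn, hub] = pt [hub] ∧
      pt [dn, pos] = pt [pos, dn]) ∧
    ((lab []).hasRt = true → (lab [rt]).srt = (lab []).srt ∧ pt [rt, hub] = pt [hub] ∧
      pt [rt, pos] = pt [pos, rt])

end local_

/-- The local condition at an object of a pointer structure. -/
def PStr.LocalOK {O : Type} (M : PStr O) (o : O) : Prop :=
  LocalOKv (fun w => M.lab (M.walk w o)) (fun w => M.walk w o)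

/-- Validity of a pointer structure. -/
structure PStr.Valid {O : Type} (M : PStr O) : Prop where
  loc : ∀ o, M.LocalOK o
  root : ∃! x, (M.lab x).srt = .X ∧ (M.lab x).root = true
  cert : ∀ x, (M.lab x).srt = .X →
    ∃ k, M.ptr .hub k = x ∧ (M.lab k).srt = .K ∧ M.ptr .pos k = M.ptr .hub k
  rowS : ∀ s, (M.lab s).srt = .S →
    ∃! c, M.ptr .hub c = s ∧ (M.lab c).srt = .C ∧ (M.lab c).root = true
  rowC : ∀ c, (M.lab c).srt = .C → (M.lab c).isA = true →
    ∃ t, M.ptr .hub t = c ∧ (M.lab t).srt = .T ∧ (M.lab t).root = true

/-- Atoms: base points with label `isA`. -/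
def PStr.atoms {O : Type} (M : PStr O) : Set O :=
  {x | (M.lab x).srt = .X ∧ (M.lab x).isA = true}

/-- The cells `t` over `c` at an atom with larger key than the atom of `c`. -/
def PStr.Above {O : Type} (M : PStr O) (key : O → ℝ) (c t : O) : Prop :=
  M.ptr .hub t = c ∧ (M.lab t).srt = .T ∧ (M.lab t).isA = true ∧
    key (M.ptr .pos (M.ptr .hub t)) < key (M.ptr .pos t)

/-- The cells `t` over `c` at an atom with smaller key than the atom of `c`. -/
def PStr.Below {O : Type} (M : PStr O) (key : O → ℝ) (c t : O) : Prop :=
  M.ptr .hub t = c ∧ (M.lab t).srt = .T ∧ (M.lab t).isA = true ∧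
    key (M.ptr .pos t) < key (M.ptr .pos (M.ptr .hub t))

/-- The bit at `c` differs from the bit at the next atom; the bit of the last atom is `false`
and the bit of the first atom is `true`. -/
def PStr.GoodC {O : Type} (M : PStr O) (key : O → ℝ) (c : O) : Prop :=
  ((M.lab c).bit = true → ∃ t, M.Above key c t ∧ (M.lab (M.ptr .qa t)).bit = false ∧
    ∀ t', M.Above key c t' → (M.lab (M.ptr .qa t')).bit = true →
      key (M.ptr .pos t) < key (M.ptr .pos t')) ∧
  ((M.lab c).bit = false → ∀ t, M.Above key c t → (M.lab (M.ptr .qa t)).bit = false →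
    ∃ t', M.Above key c t' ∧ (M.lab (M.ptr .qa t')).bit = true ∧
      key (M.ptr .pos t') < key (M.ptr .pos t)) ∧
  ((M.lab c).bit = false → ∃ t, M.Below key c t)

/-- The set `s` alternates along the order of the keys. -/
def PStr.GoodS {O : Type} (M : PStr O) (key : O → ℝ) (s : O) : Prop :=
  (M.lab s).srt = .S ∧ ∀ c, M.ptr .hub c = s → (M.lab c).srt = .C → (M.lab c).isA = true →
    M.GoodC key c

end Pool.Agent.Lib.MP_0edfa1_lc
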