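import Pool.Agent.Lib.MP_0edfa1_lc.Cmp

/-!
# The conditions `PortOK` are computable
-/

set_option autoImplicit false

namespace Pool.Agent.Lib.MP_0edfa1_lc

theorem LGraph.HasLab.unique {V : Type} {G : LGraph NLab V} {v : V} {p q : NLab}
    (h : G.HasLab v p) (h' : G.HasLab v q) : p = q :=
  (h' p).mp ((h p).mpr rfl)

theorem Cmp.hasLab (p : NLab) : Cmp fun K v => K.G.HasLab v p :=
  Cmp.all fun p' => (Cmp.lab p').map fun b => (b ↔ p' = p)

theorem Cmp.isObj : Cmp fun K v => K.G.IsObj v :=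
  Cmp.exi fun l => Cmp.hasLab (.obj l)

theorem Cmp.nbr_eq {α : Type} [Emb α] {B : Feat Prop} {F F' : Feat α} (hB : Cmp B)
    (hF : Cmp F) (hF' : Cmp F') : Cmp fun K v => ∀ w, K.G.adj v w → B K w → F K w = F' K v := by
  obtain ⟨f, hf⟩ := Emb.emb (α := α)
  refine (((hB.maxOf (hF.map f)).eq (Cmp.const none)).or
    (((hB.maxOf (hF.map f)).eq (hF'.map fun a => some (f a))).and
    ((hB.minOf (hF.map f)).eq (hF'.map fun a => some (f a))))).congr fun K v => ?_
  rw [maxOf_eq_none, maxOf_eq_some, minOf_eq_some, eq_iff_iff]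
  constructor
  · rintro (h | ⟨⟨w1, h1, h2, h3, h4⟩, w2, h5, h6, h7, h8⟩) w hw hB
    · exact absurd ⟨w, hw, hB⟩ h
    · exact hf (le_antisymm (h4 w hw hB) (h8 w hw hB))
  · intro h
    by_cases hex : ∃ w, K.G.adj v w ∧ B K w
    · obtain ⟨w, hw, hB⟩ := hex
      refine Or.inr ⟨⟨w, hw, hB, by rw [h w hw hB], fun w' h1 h2 => by rw [h w' h1 h2]⟩,
        ⟨w, hw, hB, by rw [h w hw hB], fun w' h1 h2 => by rw [h w' h1 h2]⟩⟩
    · exact Or.inl hex

/-- The neighbour labelled `top` is unique, and it is the only top-labelled neighbour of each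
other neighbour of `v`. -/
def ClosedAt (K : KG) (v : K.V) : Prop :=
  (∃! t, K.G.adj v t ∧ K.G.HasLab t .top) ∧
  (∀ w, K.G.adj v w → ¬ K.G.HasLab w .top → ∃! t, K.G.adj w t ∧ K.G.HasLab t .top) ∧
  (∀ w, K.G.adj v w → ¬ K.G.HasLab w .top →
    lookF (fun K v => K.G.HasLab v .top) (fun K v => K.key v) K w =
      lookF (fun K v => K.G.HasLab v .top) (fun K v => K.key v) K v)

theorem Cmp.closedAt : Cmp ClosedAt := by
  have ht := Cmp.hasLab .top
  exact ht.exu.and ((ht.not.imp ht.exu).nbr.and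
    (ht.not.nbr_eq (ht.look Cmp.key) (ht.look Cmp.key)))

theorem closedAt_iff (K : KG) (u : K.V) (hu : K.G.HasLab u .top)
    (hn : ∀ v, K.G.adj u v → ∃ p, p ≠ NLab.top ∧ K.G.HasLab v p) :
    (∀ v, K.G.adj u v → ClosedAt K v) ↔
      ∀ v w, K.G.adj u v → K.G.adj v w → w = u ∨ K.G.adj u w := by
  have hnt : ∀ v, K.G.adj u v → ¬ K.G.HasLab v .top := by
    intro v hv h
    obtain ⟨p, hp, hp'⟩ := hn v hv
    exact hp (hp'.unique h)
  constructor
  · intro h v w hv hw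
    obtain ⟨h1, h2, h3⟩ := h v hv
    by_cases hwt : K.G.HasLab w .top
    · exact Or.inl (h1.unique ⟨hw, hwt⟩ ⟨K.symm _ _ hv, hu⟩)
    · right
      have h2 := h2 w hw hwt
      have h3 := h3 w hw hwt
      rw [look_eq h1 (K.symm _ _ hv) hu] at h3
      obtain ⟨t, ⟨ht1, ht2⟩, -⟩ := id h2
      rw [look_eq h2 ht1 ht2] at h3
      have := K.inj h3
      subst this
      exact K.symm _ _ ht1
  · intro h
    have hex : ∀ v, K.G.adj u v → ∃! t, K.G.adj v t ∧ K.G.HasLab t .top := by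
      intro v hv
      refine ⟨u, ⟨K.symm _ _ hv, hu⟩, fun t ht => ?_⟩
      rcases h v t hv ht.1 with h1 | h1
      · exact h1
      · exact absurd ht.2 (hnt t h1)
    have hw : ∀ v w, K.G.adj u v → K.G.adj v w → ¬ K.G.HasLab w .top → K.G.adj u w := by
      intro v w hv hw hwt
      rcases h v w hv hw with h1 | h1
      · subst h1
        exact absurd hu hwt
      · exact h1
    intro v hv
    refine ⟨hex v hv, fun w h1 h2 => hex w (hw v w hv h1 h2), fun w h1 h2 => ?_⟩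
    have h3 := hw v w hv h1 h2
    rw [look_eq (hex v hv) (K.symm _ _ hv) hu, look_eq (hex w h3) (K.symm _ _ h3) hu]

theorem Cmp.portOK : Cmp fun K v => PortOK K.G v := by
  have hob := Cmp.isObj
  have h1 : Cmp fun K v => ∃ p, p ≠ NLab.top ∧ K.G.HasLab v p :=
    Cmp.exi fun p => (Cmp.const (p ≠ NLab.top)).and (Cmp.hasLab p)
  have h2 : Cmp fun K v => ∀ i, K.G.IsObj v → ∃! w, K.G.adj v w ∧ K.G.HasLab w (.out i) :=
    Cmp.all fun i => hob.imp (Cmp.hasLab (.out i)).exu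
  have h3 : Cmp fun K v => ∀ i, K.G.HasLab v (.out i) → ∃! w, K.G.adj v w ∧ K.G.IsObj w :=
    Cmp.all fun i => (Cmp.hasLab (.out i)).imp hob.exu
  have h4 : Cmp fun K v => ∀ i, K.G.HasLab v (.out i) →
      ∃! w, K.G.adj v w ∧ K.G.HasLab w (.inn i) :=
    Cmp.all fun i => (Cmp.hasLab (.out i)).imp (Cmp.hasLab (.inn i)).exu
  have h5 : Cmp fun K v => ∀ i, K.G.HasLab v (.inn i) →
      ∃! w, K.G.adj v w ∧ K.G.HasLab w (.out i) :=
    Cmp.all fun i => (Cmp.hasLab (.inn i)).imp (Cmp.hasLab (.out i)).exu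
  have h6 : Cmp fun K v => ∀ i, K.G.HasLab v (.inn i) → ∃! w, K.G.adj v w ∧ K.G.IsObj w :=
    Cmp.all fun i => (Cmp.hasLab (.inn i)).imp hob.exu
  refine ((Cmp.hasLab .top).and (h1.nbr.and (Cmp.closedAt.nbr.and (h2.nbr.and (h3.nbr.and
    (h4.nbr.and (h5.nbr.and h6.nbr))))))).congr fun K v => ?_
  rw [eq_iff_iff]
  constructor
  · rintro ⟨a1, a2, a3, a4, a5, a6, a7, a8⟩
    exact ⟨a1, a2, (closedAt_iff K v a1 a2).mp a3, fun w i hw => a4 w hw i,
      fun w i hw => a5 w hw i, fun w i hw => a6 w hw i, fun w i hw => a7 w hw i,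
      fun w i hw => a8 w hw i⟩
  · rintro ⟨a1, a2, a3, a4, a5, a6, a7, a8⟩
    exact ⟨a1, a2, (closedAt_iff K v a1 a2).mpr a3, fun w hw i => a4 w i hw,
      fun w hw i => a5 w i hw, fun w hw i => a6 w i hw, fun w hw i => a7 w i hw,
      fun w hw i => a8 w i hw⟩

end Pool.Agent.Lib.MP_0edfa1_lc
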