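import Pool.Agent.Lib.MP_0edfa1_lc.Graph

/-!
# Graphs coding pointer structures
-/

set_option autoImplicit false

namespace Pool.Agent.Lib.MP_0edfa1_lc

/-- The node `v` carries exactly the label `p`. -/
def LGraph.HasLab {V : Type} (G : LGraph NLab V) (v : V) (p : NLab) : Prop :=
  ∀ p', G.lab v p' ↔ p' = p

/-- The node `v` is an object node. -/
def LGraph.IsObj {V : Type} (G : LGraph NLab V) (v : V) : Prop :=
  ∃ l, G.HasLab v (.obj l)

/-- The connected component of `u` in `G` is the graph of the pointer structure `M`. -/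
structure Codes {V O : Type} (G : LGraph NLab V) (u : V) (M : PStr O) (f : O → V) : Prop where
  inj : Function.Injective f
  top : G.HasLab u .top
  nbr : ∀ v, G.adj u v → ∃ p, p ≠ NLab.top ∧ G.HasLab v p
  closed : ∀ v w, G.adj u v → G.adj v w → w = u ∨ G.adj u w
  obj : ∀ o, G.adj u (f o) ∧ G.HasLab (f o) (.obj (M.lab o))
  surj : ∀ v, G.adj u v → G.IsObj v → ∃ o, f o = v
  obj_out : ∀ o i, ∃! w, G.adj (f o) w ∧ G.HasLab w (.out i)
  out_obj : ∀ v i, G.adj u v → G.HasLab v (.out i) → ∃! w, G.adj v w ∧ G.IsObj w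
  out_inn : ∀ v i, G.adj u v → G.HasLab v (.out i) → ∃! w, G.adj v w ∧ G.HasLab w (.inn i)
  inn_out : ∀ v i, G.adj u v → G.HasLab v (.inn i) → ∃! w, G.adj v w ∧ G.HasLab w (.out i)
  inn_obj : ∀ v i, G.adj u v → G.HasLab v (.inn i) → ∃! w, G.adj v w ∧ G.IsObj w
  ptr : ∀ o i y z, G.adj (f o) y → G.HasLab y (.out i) → G.adj y z → G.HasLab z (.inn i) →
    G.adj z (f (M.ptr i o))

/-- The conditions of `Codes` in terms of the graph only. -/
structure PortOK {V : Type} (G : LGraph NLab V) (u : V) : Prop where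
  top : G.HasLab u .top
  nbr : ∀ v, G.adj u v → ∃ p, p ≠ NLab.top ∧ G.HasLab v p
  closed : ∀ v w, G.adj u v → G.adj v w → w = u ∨ G.adj u w
  obj_out : ∀ v i, G.adj u v → G.IsObj v → ∃! w, G.adj v w ∧ G.HasLab w (.out i)
  out_obj : ∀ v i, G.adj u v → G.HasLab v (.out i) → ∃! w, G.adj v w ∧ G.IsObj w
  out_inn : ∀ v i, G.adj u v → G.HasLab v (.out i) → ∃! w, G.adj v w ∧ G.HasLab w (.inn i)
  inn_out : ∀ v i, G.adj u v → G.HasLab v (.inn i) → ∃! w, G.adj v w ∧ G.HasLab w (.out i)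
  inn_obj : ∀ v i, G.adj u v → G.HasLab v (.inn i) → ∃! w, G.adj v w ∧ G.IsObj w

end Pool.Agent.Lib.MP_0edfa1_lc
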