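import Pool.Agent.Lib.MP_0edfa1_lc.PStr

/-!
# Induction along `par`, cells over sets and cells over cells
-/

set_option autoImplicit false

namespace Pool.Agent.Lib.MP_0edfa1_lc

theorem PStr.Valid.unfoldX {O : Type} {M : PStr O} (hM : M.Valid) {x : O}
    (hx : (M.lab x).srt = .X) (hr : (M.lab x).root = false) :
    (M.lab (M.ptr .par x)).srt = .X ∧
      ((M.lab x).kind = false → M.ptr .dn (M.ptr .par x) = x ∧
        (M.lab (M.ptr .par x)).hasDn = true) ∧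
      ((M.lab x).kind = true → M.ptr .rt (M.ptr .par x) = x ∧
        (M.lab (M.ptr .par x)).hasRt = true) := by
  have h := hM.loc x
  unfold PStr.LocalOK LocalOKv at h
  simp only [PStr.walk, hx] at h
  exact h hr

/-- The common condition of cells, unfolded. -/
def PStr.URow {O : Type} (M : PStr O) (o : O) : Prop :=
  (M.lab (M.ptr .pos o)).srt = .X ∧ (M.lab (M.ptr .pos o)).sameX (M.lab o) ∧
    ((M.lab o).root = false → (M.lab (M.ptr .par o)).srt = (M.lab o).srt ∧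
      M.ptr .hub (M.ptr .par o) = M.ptr .hub o ∧
      M.ptr .pos (M.ptr .par o) = M.ptr .par (M.ptr .pos o) ∧
      ((M.lab o).kind = false → M.ptr .dn (M.ptr .par o) = o) ∧
      ((M.lab o).kind = true → M.ptr .rt (M.ptr .par o) = o)) ∧
    ((M.lab o).hasDn = true → (M.lab (M.ptr .dn o)).srt = (M.lab o).srt ∧
      M.ptr .hub (M.ptr .dn o) = M.ptr .hub o ∧
      M.ptr .pos (M.ptr .dn o) = M.ptr .dn (M.ptr .pos o)) ∧
    ((M.lab o).hasRt = true → (M.lab (M.ptr .rt o)).srt = (M.lab o).srt ∧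
      M.ptr .hub (M.ptr .rt o) = M.ptr .hub o ∧
      M.ptr .pos (M.ptr .rt o) = M.ptr .rt (M.ptr .pos o))

theorem PStr.Valid.unfoldK {O : Type} {M : PStr O} (hM : M.Valid) {k : O}
    (hk : (M.lab k).srt = .K) :
    M.URow k ∧ (M.lab (M.ptr .hub k)).srt = .X ∧
      (M.ptr .pos k = M.ptr .hub k → (M.lab k).bit = false) ∧
      ((M.lab k).root = false → (M.ptr .pos k = M.ptr .hub k ∨ (M.lab k).bit = true) →
        (M.lab (M.ptr .par k)).bit = true) := by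
  have h := hM.loc k
  unfold PStr.LocalOK LocalOKv at h
  simp only [PStr.walk, hk] at h
  unfold LocalOKv.RowOK at h
  simp only [PStr.walk] at h
  exact h

theorem PStr.Valid.unfoldC {O : Type} {M : PStr O} (hM : M.Valid) {c : O}
    (hc : (M.lab c).srt = .C) :
    M.URow c ∧ (M.lab (M.ptr .hub c)).srt = .S ∧
      ((M.lab c).isA = true → (M.lab (M.ptr .qa c)).srt = .C ∧
        M.ptr .pos (M.ptr .qa c) = M.ptr .pos c ∧
        (M.lab (M.ptr .qa c)).bit ≠ (M.lab c).bit) := by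
  have h := hM.loc c
  unfold PStr.LocalOK LocalOKv at h
  simp only [PStr.walk, hc] at h
  unfold LocalOKv.RowOK at h
  simp only [PStr.walk] at h
  exact h

theorem PStr.Valid.unfoldT {O : Type} {M : PStr O} (hM : M.Valid) {t : O}
    (ht : (M.lab t).srt = .T) :
    M.URow t ∧ (M.lab (M.ptr .hub t)).srt = .C ∧
      (M.lab (M.ptr .qa t)).srt = .C ∧
      M.ptr .hub (M.ptr .qa t) = M.ptr .hub (M.ptr .hub t) ∧
      M.ptr .pos (M.ptr .qa t) = M.ptr .pos t ∧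
      (M.lab (M.ptr .qb t)).srt = .C ∧
      M.ptr .hub (M.ptr .qb t) = M.ptr .hub (M.ptr .qa (M.ptr .hub t)) ∧
      M.ptr .pos (M.ptr .qb t) = M.ptr .pos t ∧
      ((M.lab t).isA = true → M.ptr .pos t ≠ M.ptr .pos (M.ptr .hub t) →
        (M.lab (M.ptr .qa t)).bit = (M.lab (M.ptr .qb t)).bit) := by
  have h := hM.loc t
  unfold PStr.LocalOK LocalOKv at h
  simp only [PStr.walk, ht] at h
  unfold LocalOKv.RowOK at h
  simp only [PStr.walk] at h
  exact h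

theorem PStr.Valid.induct {O : Type} [Finite O] {M : PStr O} (hM : M.Valid) (Q : O → Prop)
    (h0 : ∀ x, (M.lab x).srt = .X → (M.lab x).root = true → Q x)
    (h1 : ∀ x, (M.lab x).srt = .X → (M.lab x).root = false → Q (M.ptr .par x) → Q x) :
    ∀ x, (M.lab x).srt = .X → Q x := by
  intro x hx
  by_contra hQ
  have hit : ∀ i, (M.lab ((M.ptr .par)^[i] x)).srt = .X ∧ ¬ Q ((M.ptr .par)^[i] x) := by
    intro i
    induction i with
    | zero => exact ⟨hx, hQ⟩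
    | succ i ih =>
      rw [Function.iterate_succ_apply']
      have hr : (M.lab ((M.ptr .par)^[i] x)).root = false := by
        by_contra hr
        exact ih.2 (h0 _ ih.1 (by simpa using hr))
      exact ⟨(hM.unfoldX ih.1 hr).1, fun h => ih.2 (h1 _ ih.1 hr h)⟩
  have hroot : ∀ i, (M.lab ((M.ptr .par)^[i] x)).root = false := by
    intro i
    by_contra hr
    exact (hit i).2 (h0 _ (hit i).1 (by simpa using hr))
  obtain ⟨i, j, hij, he⟩ : ∃ i j, i < j ∧ (M.ptr .par)^[i] x = (M.ptr .par)^[j] x := by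
    obtain ⟨i, j, hne, he⟩ := Finite.exists_ne_map_eq_of_infinite
      (fun i : ℕ => (M.ptr .par)^[i] x)
    rcases lt_or_gt_of_ne hne with h | h
    · exact ⟨i, j, h, he⟩
    · exact ⟨j, i, h, he.symm⟩
  obtain ⟨n, hn⟩ : ∃ n, j = (n + 1) + i := ⟨j - i - 1, by omega⟩
  obtain ⟨k0, hk1, hk2, hk3⟩ := hM.cert _ (hit i).1
  have hk : ∀ m, (M.lab ((M.ptr .par)^[m] k0)).srt = .K ∧
      M.ptr .hub ((M.ptr .par)^[m] k0) = (M.ptr .par)^[i] x ∧
      M.ptr .pos ((M.ptr .par)^[m] k0) = (M.ptr .par)^[m + i] x ∧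
      (m = 0 ∨ (M.lab ((M.ptr .par)^[m] k0)).bit = true) := by
    intro m
    induction m with
    | zero => exact ⟨hk2, hk1, by rw [Nat.zero_add]; exact hk3.trans hk1, Or.inl rfl⟩
    | succ m ih =>
      obtain ⟨a1, a2, a3, a4⟩ := ih
      obtain ⟨hrow, -, -, hb⟩ := hM.unfoldK a1
      obtain ⟨-, hs, hp, -, -⟩ := hrow
      have hr : (M.lab ((M.ptr .par)^[m] k0)).root = false := by
        rw [← hs.1, a3]
        exact hroot _
      obtain ⟨b1, b2, b3, -, -⟩ := hp hr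
      rw [Function.iterate_succ_apply']
      refine ⟨b1.trans a1, b2.trans a2, ?_, Or.inr ?_⟩
      · rw [b3, a3, show m + 1 + i = (m + i) + 1 by omega, Function.iterate_succ_apply']
      · apply hb hr
        rcases a4 with a4 | a4
        · left
          rw [a2, a3, a4, Nat.zero_add]
        · exact Or.inr a4
  obtain ⟨a1, a2, a3, a4⟩ := hk (n + 1)
  have hb := (hM.unfoldK a1).2.2.1 (by rw [a2, a3, ← hn, he])
  rcases a4 with a4 | a4
  · omega
  · rw [hb] at a4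
    exact absurd a4 (by simp)

theorem PStr.Valid.cell {O : Type} [Finite O] {M : PStr O} (hM : M.Valid) (s : O)
    (hs : (M.lab s).srt = .S) (x : O) (hx : (M.lab x).srt = .X) :
    ∃! c, M.ptr .hub c = s ∧ (M.lab c).srt = .C ∧ M.ptr .pos c = x := by
  refine hM.induct (fun x => ∃! c, M.ptr .hub c = s ∧ (M.lab c).srt = .C ∧ M.ptr .pos c = x)
    ?_ ?_ x hx
  · intro x hx hr
    obtain ⟨c0, ⟨h1, h2, h3⟩, hu⟩ := hM.rowS s hs
    obtain ⟨⟨g1, g2, -⟩, -⟩ := hM.unfoldC h2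
    refine ⟨c0, ⟨h1, h2, hM.root.unique ⟨g1, ?_⟩ ⟨hx, hr⟩⟩, ?_⟩
    · rw [g2.1, h3]
    · rintro c ⟨k1, k2, k3⟩
      refine hu c ⟨k1, k2, ?_⟩
      obtain ⟨⟨-, g2, -⟩, -⟩ := hM.unfoldC k2
      rw [← g2.1, k3, hr]
  · intro x hx hr ⟨cp, ⟨h1, h2, h3⟩, hu⟩
    obtain ⟨-, hd, hrt⟩ := hM.unfoldX hx hr
    obtain ⟨⟨-, g2, -, gd, grt⟩, -⟩ := hM.unfoldC h2
    cases hkind : (M.lab x).kind with
    | false =>
      obtain ⟨d1, d2⟩ := hd hkind
      obtain ⟨e1, e2, e3⟩ := gd (by rw [← g2.2.2.1, h3, d2])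
      refine ⟨M.ptr .dn cp, ⟨e2.trans h1, e1.trans h2, by rw [e3, h3, d1]⟩, ?_⟩
      rintro c ⟨k1, k2, k3⟩
      obtain ⟨⟨-, f2, fp, -⟩, -⟩ := hM.unfoldC k2
      obtain ⟨p1, p2, p3, p4, -⟩ := fp (by rw [← f2.1, k3, hr])
      have := hu (M.ptr .par c) ⟨p2.trans k1, p1.trans k2, by rw [p3, k3]⟩
      rw [← this]
      exact (p4 (by rw [← f2.2.1, k3, hkind])).symm
    | true =>
      obtain ⟨d1, d2⟩ := hrt hkind
      obtain ⟨e1, e2, e3⟩ := grt (by rw [← g2.2.2.2.1, h3, d2])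
      refine ⟨M.ptr .rt cp, ⟨e2.trans h1, e1.trans h2, by rw [e3, h3, d1]⟩, ?_⟩
      rintro c ⟨k1, k2, k3⟩
      obtain ⟨⟨-, f2, fp, -⟩, -⟩ := hM.unfoldC k2
      obtain ⟨p1, p2, p3, -, p4⟩ := fp (by rw [← f2.1, k3, hr])
      have := hu (M.ptr .par c) ⟨p2.trans k1, p1.trans k2, by rw [p3, k3]⟩
      rw [← this]
      exact (p4 (by rw [← f2.2.1, k3, hkind])).symm

theorem PStr.Valid.tcell {O : Type} [Finite O] {M : PStr O} (hM : M.Valid) (c : O)
    (hc : (M.lab c).srt = .C) (ha : (M.lab c).isA = true) (x : O) (hx : (M.lab x).srt = .X) :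
    ∃ t, M.ptr .hub t = c ∧ (M.lab t).srt = .T ∧ M.ptr .pos t = x := by
  refine hM.induct (fun x => ∃ t, M.ptr .hub t = c ∧ (M.lab t).srt = .T ∧ M.ptr .pos t = x)
    ?_ ?_ x hx
  · intro x hx hr
    obtain ⟨c0, h1, h2, h3⟩ := hM.rowC c hc ha
    obtain ⟨⟨g1, g2, -⟩, -⟩ := hM.unfoldT h2
    refine ⟨c0, h1, h2, hM.root.unique ⟨g1, ?_⟩ ⟨hx, hr⟩⟩
    rw [g2.1, h3]
  · intro x hx hr ⟨cp, h1, h2, h3⟩
    obtain ⟨-, hd, hrt⟩ := hM.unfoldX hx hr
    obtain ⟨⟨-, g2, -, gd, grt⟩, -⟩ := hM.unfoldT h2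
    cases hkind : (M.lab x).kind with
    | false =>
      obtain ⟨d1, d2⟩ := hd hkind
      obtain ⟨e1, e2, e3⟩ := gd (by rw [← g2.2.2.1, h3, d2])
      exact ⟨M.ptr .dn cp, e2.trans h1, e1.trans h2, by rw [e3, h3, d1]⟩
    | true =>
      obtain ⟨d1, d2⟩ := hrt hkind
      obtain ⟨e1, e2, e3⟩ := grt (by rw [← g2.2.2.2.1, h3, d2])
      exact ⟨M.ptr .rt cp, e2.trans h1, e1.trans h2, by rw [e3, h3, d1]⟩

end Pool.Agent.Lib.MP_0edfa1_lc
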