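import Pool.Agent.Lib.MP_0edfa1_lc.PStr

/-!
# Sets coded by a pointer structure; alternation
-/

set_option autoImplicit false

namespace Pool.Agent.Lib.MP_0edfa1_lc

/-- The set coded by `s`. -/
def PStr.set {O : Type} (M : PStr O) (s : O) : Set O :=
  {x | ∃ c, M.ptr .hub c = s ∧ (M.lab c).srt = .C ∧ M.ptr .pos c = x ∧ (M.lab c).bit = true}

/-- The bits of `a` in `B` and of its neighbours in `A` alternate. -/
def GoodAt {α : Type} (A B : Set α) (key : α → ℝ) (a : α) : Prop :=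
  (a ∈ B → ∃ x ∈ A, key a < key x ∧ x ∉ B ∧ ∀ y ∈ A, key a < key y → y ∈ B → key x < key y) ∧
  (a ∉ B → ∀ x ∈ A, key a < key x → x ∉ B → ∃ y ∈ A, key a < key y ∧ y ∈ B ∧ key y < key x) ∧
  (a ∉ B → ∃ x ∈ A, key x < key a)

end Pool.Agent.Lib.MP_0edfa1_lc
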