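import Pool.Agent.Lib.MP_0edfa1_lc.TheoA
import Pool.Agent.Lib.MP_0edfa1_lc.TheoDefs

/-!
# Every set of atoms is coded; the local conditions `GoodC`
-/

set_option autoImplicit false

namespace Pool.Agent.Lib.MP_0edfa1_lc

/-- The local conditions at a cell over a set. -/
theorem PStr.Valid.locC2 {O : Type} {M : PStr O} (hM : M.Valid) {c : O}
    (hc : (M.lab c).srt = .C) :
    (M.lab (M.ptr .pos c)).srt = .X ∧ (M.lab (M.ptr .pos c)).isA = (M.lab c).isA ∧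
      (M.lab (M.ptr .hub c)).srt = .S ∧
      ((M.lab c).isA = true → (M.lab (M.ptr .qa c)).srt = .C ∧
        M.ptr .pos (M.ptr .qa c) = M.ptr .pos c ∧
        (M.lab (M.ptr .qa c)).bit ≠ (M.lab c).bit) := by
  have h := hM.loc c
  simp only [PStr.LocalOK, LocalOKv, PStr.walk, hc] at h
  obtain ⟨⟨h1, h2, -⟩, h3, h4⟩ := h
  exact ⟨h1, h2.2.2.2.2, h3, h4⟩

/-- The local conditions at a cell over a cell. -/
theorem PStr.Valid.locT2 {O : Type} {M : PStr O} (hM : M.Valid) {t : O}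
    (ht : (M.lab t).srt = .T) :
    (M.lab (M.ptr .pos t)).srt = .X ∧ (M.lab (M.ptr .pos t)).isA = (M.lab t).isA ∧
      (M.lab (M.ptr .hub t)).srt = .C ∧
      (M.lab (M.ptr .qa t)).srt = .C ∧
      M.ptr .hub (M.ptr .qa t) = M.ptr .hub (M.ptr .hub t) ∧
      M.ptr .pos (M.ptr .qa t) = M.ptr .pos t ∧
      (M.lab (M.ptr .qb t)).srt = .C ∧
      M.ptr .hub (M.ptr .qb t) = M.ptr .hub (M.ptr .qa (M.ptr .hub t)) ∧
      M.ptr .pos (M.ptr .qb t) = M.ptr .pos t ∧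
      ((M.lab t).isA = true → M.ptr .pos t ≠ M.ptr .pos (M.ptr .hub t) →
        (M.lab (M.ptr .qa t)).bit = (M.lab (M.ptr .qb t)).bit) := by
  have h := hM.loc t
  simp only [PStr.LocalOK, LocalOKv, PStr.walk, ht] at h
  obtain ⟨⟨h1, h2, -⟩, h3, h4⟩ := h
  exact ⟨h1, h2.2.2.2.2, h3, h4⟩

theorem PStr.Valid.mem_set_iff {O : Type} [Finite O] {M : PStr O} (hM : M.Valid) {c : O}
    (hc : (M.lab c).srt = .C) :
    M.ptr .pos c ∈ M.set (M.ptr .hub c) ↔ (M.lab c).bit = true := by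
  constructor
  · rintro ⟨c', h1, h2, h3, h4⟩
    have h := hM.locC2 hc
    have : c' = c := (hM.cell _ h.2.2.1 _ h.1).unique ⟨h1, h2, h3⟩ ⟨rfl, hc, rfl⟩
    rw [← this, h4]
  · intro h
    exact ⟨c, rfl, hc, rfl, h⟩

theorem PStr.Valid.exists_flip {O : Type} [Finite O] {M : PStr O} (hM : M.Valid) (s : O)
    (hs : (M.lab s).srt = .S) (a : O) (ha : a ∈ M.atoms) :
    ∃ s', (M.lab s').srt = .S ∧ (a ∈ M.set s' ↔ a ∉ M.set s) ∧
      ∀ x ∈ M.atoms, x ≠ a → (x ∈ M.set s' ↔ x ∈ M.set s) := by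
  obtain ⟨c, ⟨hc1, hc2, hc3⟩, -⟩ := hM.cell s hs a ha.1
  have hc := hM.locC2 hc2
  have hcA : (M.lab c).isA = true := by rw [← hc.2.1, hc3]; exact ha.2
  obtain ⟨hq1, hq2, hq3⟩ := hc.2.2.2 hcA
  have hq := hM.locC2 hq1
  refine ⟨M.ptr .hub (M.ptr .qa c), hq.2.2.1, ?_, ?_⟩
  · have e1 := hM.mem_set_iff hq1
    have e2 := hM.mem_set_iff hc2
    rw [hq2, hc3] at e1
    rw [hc3, hc1] at e2
    rw [e1, e2]
    revert hq3
    cases (M.lab (M.ptr .qa c)).bit <;> cases (M.lab c).bit <;> simp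
  · intro x hx hxa
    obtain ⟨t, ht1, ht2, ht3⟩ := hM.tcell c hc2 hcA x hx.1
    obtain ⟨-, h2, h3, h4, h5, h6, h7, h8, h9, h10⟩ := hM.locT2 ht2
    have htA : (M.lab t).isA = true := by rw [← h2, ht3]; exact hx.2
    have h11 := h10 htA (by rw [ht3, ht1, hc3]; exact hxa)
    have e1 := hM.mem_set_iff h4
    have e2 := hM.mem_set_iff h7
    rw [h5, h6, ht3, ht1, hc1] at e1
    rw [h8, h9, ht3, ht1] at e2
    rw [e1, e2, h11]

theorem PStr.Valid.exists_set {O : Type} [Finite O] {M : PStr O} (hM : M.Valid)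
    (hS : ∃ s, (M.lab s).srt = .S) (B : Set O) :
    ∃ s, (M.lab s).srt = .S ∧ ∀ x ∈ M.atoms, (x ∈ M.set s ↔ x ∈ B) := by
  classical
  have key : ∀ D : Finset O, (∀ x ∈ D, x ∈ M.atoms) →
      ∃ s, (M.lab s).srt = .S ∧ ∀ x ∈ D, (x ∈ M.set s ↔ x ∈ B) := by
    intro D
    induction D using Finset.induction_on with
    | empty =>
      intro _
      obtain ⟨s, hs⟩ := hS
      exact ⟨s, hs, by simp⟩
    | insert a D ha ih =>
      intro hD
      obtain ⟨s, hs, h⟩ := ih fun x hx => hD x (Finset.mem_insert_of_mem hx)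
      by_cases hsa : a ∈ M.set s ↔ a ∈ B
      · refine ⟨s, hs, fun x hx => ?_⟩
        rcases Finset.mem_insert.1 hx with rfl | hx
        · exact hsa
        · exact h x hx
      · obtain ⟨s', hs', h1, h2⟩ := hM.exists_flip s hs a (hD a (Finset.mem_insert_self _ _))
        refine ⟨s', hs', fun x hx => ?_⟩
        rcases Finset.mem_insert.1 hx with rfl | hxD
        · rw [h1]
          tauto
        · rw [h2 x (hD x hx) (by rintro rfl; exact ha hxD)]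
          exact h x hxD
  have hfin : (M.atoms).Finite := Set.toFinite _
  obtain ⟨s, hs, h⟩ := key hfin.toFinset (by simp)
  exact ⟨s, hs, by simpa using h⟩

theorem PStr.Valid.goodC_iff {O : Type} [Finite O] {M : PStr O} (hM : M.Valid) (key : O → ℝ)
    {c : O} (hc : (M.lab c).srt = .C) (hcA : (M.lab c).isA = true) :
    M.GoodC key c ↔ GoodAt M.atoms (M.set (M.ptr .hub c)) key (M.ptr .pos c) := by
  have hcell := hM.mem_set_iff hc
  -- cells above and below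
  have hT : ∀ t, M.ptr .hub t = c → (M.lab t).srt = .T → (M.lab t).isA = true →
      M.ptr .pos t ∈ M.atoms ∧
        (M.ptr .pos t ∈ M.set (M.ptr .hub c) ↔ (M.lab (M.ptr .qa t)).bit = true) := by
    intro t h1 h2 h3
    obtain ⟨g1, g2, g3, g4, g5, g6, -⟩ := hM.locT2 h2
    refine ⟨⟨g1, by rw [g2]; exact h3⟩, ?_⟩
    have e := hM.mem_set_iff g4
    rwa [g5, g6, h1] at e
  have hA1 : ∀ t, M.Above key c t → M.ptr .pos t ∈ M.atoms ∧
      key (M.ptr .pos c) < key (M.ptr .pos t) ∧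
      (M.ptr .pos t ∈ M.set (M.ptr .hub c) ↔ (M.lab (M.ptr .qa t)).bit = true) := by
    rintro t ⟨h1, h2, h3, h4⟩
    rw [h1] at h4
    exact ⟨(hT t h1 h2 h3).1, h4, (hT t h1 h2 h3).2⟩
  have hex : ∀ x ∈ M.atoms, ∃ t, M.ptr .hub t = c ∧ (M.lab t).srt = .T ∧
      (M.lab t).isA = true ∧ M.ptr .pos t = x := by
    intro x hx
    obtain ⟨t, h1, h2, h3⟩ := hM.tcell c hc hcA x hx.1
    refine ⟨t, h1, h2, ?_, h3⟩
    rw [← (hM.locT2 h2).2.1, h3]
    exact hx.2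
  have hA2 : ∀ x ∈ M.atoms, key (M.ptr .pos c) < key x → ∃ t, M.Above key c t ∧
      M.ptr .pos t = x := by
    intro x hx hk
    obtain ⟨t, h1, h2, h3, h4⟩ := hex x hx
    exact ⟨t, ⟨h1, h2, h3, by rw [h1, h4]; exact hk⟩, h4⟩
  have hB1 : ∀ t, M.Below key c t → M.ptr .pos t ∈ M.atoms ∧
      key (M.ptr .pos t) < key (M.ptr .pos c) := by
    rintro t ⟨h1, h2, h3, h4⟩
    rw [h1] at h4
    exact ⟨(hT t h1 h2 h3).1, h4⟩
  have hB2 : ∀ x ∈ M.atoms, key x < key (M.ptr .pos c) → ∃ t, M.Below key c t := by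
    intro x hx hk
    obtain ⟨t, h1, h2, h3, h4⟩ := hex x hx
    exact ⟨t, ⟨h1, h2, h3, by rw [h1, h4]; exact hk⟩⟩
  unfold PStr.GoodC GoodAt
  refine and_congr ?_ (and_congr ?_ ?_)
  · refine imp_congr hcell.symm ?_
    constructor
    · rintro ⟨t, ht, hb, h⟩
      obtain ⟨k1, k2, k3⟩ := hA1 t ht
      refine ⟨_, k1, k2, ?_, ?_⟩
      · rw [k3, hb]; simp
      · intro y hy hk hyB
        obtain ⟨t', ht', rfl⟩ := hA2 y hy hk
        exact h t' ht' ((hA1 t' ht').2.2.1 hyB)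
    · rintro ⟨x, hx, hk, hxB, h⟩
      obtain ⟨t, ht, rfl⟩ := hA2 x hx hk
      obtain ⟨k1, k2, k3⟩ := hA1 t ht
      refine ⟨t, ht, ?_, ?_⟩
      · rw [k3] at hxB
        simpa using hxB
      · intro t' ht' hb
        obtain ⟨l1, l2, l3⟩ := hA1 t' ht'
        exact h _ l1 l2 (l3.2 hb)
  · refine imp_congr (by rw [hcell]; simp) ?_
    constructor
    · intro h x hx hk hxB
      obtain ⟨t, ht, rfl⟩ := hA2 x hx hk
      obtain ⟨k1, k2, k3⟩ := hA1 t ht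
      obtain ⟨t', ht', hb, hl⟩ := h t ht (by rw [k3] at hxB; simpa using hxB)
      obtain ⟨l1, l2, l3⟩ := hA1 t' ht'
      exact ⟨_, l1, l2, l3.2 hb, hl⟩
    · intro h t ht hb
      obtain ⟨k1, k2, k3⟩ := hA1 t ht
      obtain ⟨y, hy, hky, hyB, hyl⟩ := h _ k1 k2 (by rw [k3, hb]; simp)
      obtain ⟨t', ht', rfl⟩ := hA2 y hy hky
      exact ⟨t', ht', (hA1 t' ht').2.2.1 hyB, hyl⟩
  · refine imp_congr (by rw [hcell]; simp) ?_
    constructor
    · rintro ⟨t, ht⟩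
      exact ⟨_, hB1 t ht⟩
    · rintro ⟨x, hx, hk⟩
      exact hB2 x hx hk

theorem PStr.Valid.goodS_iff {O : Type} [Finite O] {M : PStr O} (hM : M.Valid) (key : O → ℝ)
    (s : O) (hs : (M.lab s).srt = .S) :
    M.GoodS key s ↔ ∀ a ∈ M.atoms, GoodAt M.atoms (M.set s) key a := by
  constructor
  · rintro ⟨-, h⟩ a ha
    obtain ⟨c, ⟨hc1, hc2, hc3⟩, -⟩ := hM.cell s hs a ha.1
    have hcA : (M.lab c).isA = true := by rw [← (hM.locC2 hc2).2.1, hc3]; exact ha.2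
    have h' := (hM.goodC_iff key hc2 hcA).1 (h c hc1 hc2 hcA)
    rwa [hc1, hc3] at h'
  · intro h
    refine ⟨hs, ?_⟩
    rintro c rfl hc2 hcA
    exact (hM.goodC_iff key hc2 hcA).2
      (h _ ⟨(hM.locC2 hc2).1, by rw [(hM.locC2 hc2).2.1]; exact hcA⟩)

end Pool.Agent.Lib.MP_0edfa1_lc
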