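import Pool.Agent.Lib.MP_0edfa1_lc.TheoDefs

/-!
# Alternation is possible exactly for sets of even size
-/

set_option autoImplicit false

namespace Pool.Agent.Lib.MP_0edfa1_lc

/-- The two largest elements of a set with at least two elements. -/
theorem exists_two_max {α : Type} (A : Finset α) (key : α → ℝ) (hkey : Function.Injective key)
    (hA : 2 ≤ A.card) : ∃ (A' : Finset α) (y z : α), A'.card + 2 = A.card ∧ A' ⊆ A ∧ y ∈ A ∧
      z ∈ A ∧ y ∉ A' ∧ z ∉ A' ∧ key y < key z ∧ (∀ a ∈ A', key a < key y) ∧
      (∀ a ∈ A, a ∈ A' ∨ a = y ∨ a = z) := by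
  classical
  have h1 : A.Nonempty := Finset.card_pos.1 (by omega)
  obtain ⟨z, hz, hzm⟩ := A.exists_max_image key h1
  have h2 : (A.erase z).card = A.card - 1 := Finset.card_erase_of_mem hz
  have h3 : (A.erase z).Nonempty := Finset.card_pos.1 (by omega)
  obtain ⟨y, hy, hym⟩ := (A.erase z).exists_max_image key h3
  have h4 : ((A.erase z).erase y).card = (A.erase z).card - 1 := Finset.card_erase_of_mem hy
  have hy' := Finset.mem_erase.1 hy
  refine ⟨(A.erase z).erase y, y, z, by omega, ?_, hy'.2, hz, ?_, ?_, ?_, ?_, ?_⟩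
  · exact (Finset.erase_subset _ _).trans (Finset.erase_subset _ _)
  · simp
  · simp
  · exact lt_of_le_of_ne (hzm y hy'.2) fun h => hy'.1 (hkey h)
  · intro a ha
    have ha' := Finset.mem_erase.1 ha
    exact lt_of_le_of_ne (hym a ha'.2) fun h => ha'.1 (hkey h)
  · intro a ha
    simp only [Finset.mem_erase]
    tauto

theorem alternate {α : Type} (A : Finset α) (key : α → ℝ) (hkey : Function.Injective key) :
    (∃ B : Set α, ∀ a ∈ A, GoodAt (A : Set α) B key a) ↔ Even A.card := by
  classical
  induction hn : A.card using Nat.strong_induction_on generalizing A with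
  | _ n ih =>
  subst hn
  rcases Nat.lt_or_ge A.card 2 with hc | hc
  · interval_cases h : A.card
    · have h0 : A = ∅ := Finset.card_eq_zero.1 h
      subst h0
      simp
    · obtain ⟨a, rfl⟩ := Finset.card_eq_one.1 h
      simp only [Nat.not_even_one, iff_false, not_exists]
      intro B hB
      obtain ⟨g1, -, g3⟩ := hB a (by simp)
      by_cases ha : a ∈ B
      · obtain ⟨x, hx, hlt, -⟩ := g1 ha
        have : x = a := by simpa using hx
        subst this
        exact lt_irrefl _ hlt
      · obtain ⟨x, hx, hlt⟩ := g3 ha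
        have : x = a := by simpa using hx
        subst this
        exact lt_irrefl _ hlt
  · obtain ⟨A', y, z, hcard, hsub, hy, hz, hyA, hzA, hyz, hlt, hcov⟩ :=
      exists_two_max A key hkey hc
    have hmem : ∀ a ∈ A, key a < key y → a ∈ A' := by
      intro a ha h
      rcases hcov a ha with h' | h' | h'
      · exact h'
      · subst h'; exact absurd h (lt_irrefl _)
      · subst h'; exact absurd (h.trans hyz) (lt_irrefl _)
    have hih := ih A'.card (by omega) A' rfl
    rw [← hcard, Nat.even_add, iff_true_right even_two, ← hih]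
    constructor
    · rintro ⟨B, hB⟩
      have hzB : z ∉ B := by
        intro h
        obtain ⟨x, hx, hlt', -⟩ := (hB z hz).1 h
        rcases hcov x hx with h' | h' | h'
        · exact absurd ((hlt x h').trans (hyz.trans hlt')) (lt_irrefl _)
        · subst h'; exact absurd (hyz.trans hlt') (lt_irrefl _)
        · subst h'; exact absurd hlt' (lt_irrefl _)
      have hyB : y ∈ B := by
        by_contra h
        obtain ⟨x, hx, h1, -, h2⟩ := (hB y hy).2.1 h z hz hyz hzB
        rcases hcov x hx with h' | h' | h'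
        · exact absurd ((hlt x h').trans h1) (lt_irrefl _)
        · subst h'; exact absurd h1 (lt_irrefl _)
        · subst h'; exact absurd h2 (lt_irrefl _)
      refine ⟨B, fun a ha => ?_⟩
      obtain ⟨g1, g2, g3⟩ := hB a (hsub ha)
      refine ⟨fun h => ?_, fun h x hx h1 h2 => ?_, fun h => ?_⟩
      · obtain ⟨x, hx, h1, h2, h3⟩ := g1 h
        have h4 := h3 y hy (hlt a ha) hyB
        exact ⟨x, hmem x hx h4, h1, h2, fun w hw => h3 w (hsub hw)⟩
      · obtain ⟨w, hw, h3, h4, h5⟩ := g2 h x (hsub hx) h1 h2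
        exact ⟨w, hmem w hw (h5.trans (hlt x hx)), h3, h4, h5⟩
      · obtain ⟨x, hx, h1⟩ := g3 h
        exact ⟨x, hmem x hx (h1.trans (hlt a ha)), h1⟩
    · rintro ⟨B, hB⟩
      have hB' : ∀ a ∈ A', (a ∈ (B ∩ A') ∪ {y} ↔ a ∈ B) := by
        intro a ha
        have : a ≠ y := fun h => hyA (h ▸ ha)
        simp [ha, this]
      have hyB' : y ∈ (B ∩ A') ∪ {y} := by simp
      have hzB' : z ∉ (B ∩ A') ∪ {y} := by
        have : z ≠ y := fun h => absurd hyz (by rw [h]; exact lt_irrefl _)
        simp [hzA, this]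
      refine ⟨(B ∩ A') ∪ {y}, fun a ha => ?_⟩
      rcases hcov a ha with h' | h' | h'
      · obtain ⟨g1, g2, g3⟩ := hB a h'
        refine ⟨fun h => ?_, fun h x hx h1 h2 => ?_, fun h => ?_⟩
        · obtain ⟨x, hx, h1, h2, h3⟩ := g1 ((hB' a h').1 h)
          refine ⟨x, hsub hx, h1, fun h4 => h2 ((hB' x hx).1 h4), fun w hw h4 h5 => ?_⟩
          rcases hcov w hw with h6 | h6 | h6
          · exact h3 w h6 h4 ((hB' w h6).1 h5)
          · subst h6; exact hlt x hx
          · subst h6; exact absurd h5 hzB'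
        · have h4 : a ∉ B := fun h5 => h ((hB' a h').2 h5)
          rcases hcov x hx with h6 | h6 | h6
          · obtain ⟨w, hw, h7, h8, h9⟩ := g2 h4 x h6 h1 (fun h5 => h2 ((hB' x h6).2 h5))
            exact ⟨w, hsub hw, h7, (hB' w hw).2 h8, h9⟩
          · subst h6; exact absurd hyB' h2
          · subst h6; exact ⟨y, hy, hlt a h', hyB', hyz⟩
        · obtain ⟨x, hx, h1⟩ := g3 (fun h5 => h ((hB' a h').2 h5))
          exact ⟨x, hsub hx, h1⟩
      · subst h'
        refine ⟨fun _ => ⟨z, hz, hyz, hzB', fun w hw h1 h2 => ?_⟩, fun h => absurd hyB' h,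
          fun h => absurd hyB' h⟩
        rcases hcov w hw with h6 | h6 | h6
        · exact absurd (h1.trans (hlt w h6)) (lt_irrefl _)
        · subst h6; exact absurd h1 (lt_irrefl _)
        · subst h6; exact absurd h2 hzB'
      · subst h'
        refine ⟨fun h => absurd h hzB', fun _ x hx h1 _ => ?_, fun _ => ⟨y, hy, hyz⟩⟩
        rcases hcov x hx with h6 | h6 | h6
        · exact absurd ((hlt x h6).trans (hyz.trans h1)) (lt_irrefl _)
        · subst h6; exact absurd (hyz.trans h1) (lt_irrefl _)
        · subst h6; exact absurd h1 (lt_irrefl _)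

end Pool.Agent.Lib.MP_0edfa1_lc
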