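import Pool.Agent.Lib.MP_0edfa1_lc.TheoB
import Pool.Agent.Lib.MP_0edfa1_lc.TheoC

/-!
# Valid pointer structures: an alternating set exists iff the number of atoms is even
-/

set_option autoImplicit false

namespace Pool.Agent.Lib.MP_0edfa1_lc

theorem exists_goodS_iff {O : Type} [Finite O] (M : PStr O) (hM : M.Valid) (key : O → ℝ)
    (hkey : Function.Injective key) :
    (∃ s, M.GoodS key s) ↔ (∃ s, (M.lab s).srt = .S) ∧ Even M.atoms.ncard := by
  have hfin : M.atoms.Finite := Set.toFinite _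
  have halt := alternate hfin.toFinset key hkey
  rw [hfin.coe_toFinset] at halt
  rw [Set.ncard_eq_toFinset_card _ hfin, ← halt]
  constructor
  · rintro ⟨s, hs⟩
    refine ⟨⟨s, hs.1⟩, M.set s, fun a ha => ?_⟩
    exact (hM.goodS_iff key s hs.1).mp hs a (hfin.mem_toFinset.mp ha)
  · rintro ⟨hS, B, hB⟩
    obtain ⟨s, hs, hsB⟩ := hM.exists_set hS B
    refine ⟨s, (hM.goodS_iff key s hs).mpr fun a ha => ?_⟩
    have h := hB a (hfin.mem_toFinset.mpr ha)
    obtain ⟨h1, h2, h3⟩ := h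
    rw [GoodAt, hsB a ha]
    refine ⟨fun h => ?_, fun h x hx hax hxB => ?_, h3⟩
    · obtain ⟨x, hx, hax, hxB, hall⟩ := h1 h
      exact ⟨x, hx, hax, fun h => hxB ((hsB x hx).mp h),
        fun y hy hay hyB => hall y hy hay ((hsB y hy).mp hyB)⟩
    · obtain ⟨y, hy, hay, hyB, hyx⟩ := h2 h x hx hax fun h => hxB ((hsB x hx).mpr h)
      exact ⟨y, hy, hay, (hsB y hy).mpr hyB, hyx⟩

end Pool.Agent.Lib.MP_0edfa1_lc
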