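import Pool.Agent.Lib.MP_0edfa1_lc.GNN
import Pool.Agent.Lib.MP_0edfa1_lc.Theory
import Pool.Agent.Lib.MP_0edfa1_lc.Comb
import Pool.Agent.Lib.MP_0edfa1_lc.CombEF
import Pool.Agent.Lib.MP_0edfa1_lc.EF1

/-!
# Undirected graphs: a key-invariant LocalMax GNN with a query which is not definable
-/

set_option autoImplicit false

namespace Pool.Agent.Lib.MP_0edfa1_lc

theorem graph_simple {O : Type} (M : PStr O) : M.graph.Simple := by
  constructor
  · intro a b h
    exact h.symm
  · intro a h
    have key : ∀ b c, M.Edge b c → b ≠ c := by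
      intro b c h
      cases h <;> simp
    rcases h with h | h <;> exact key _ _ h rfl

instance finite_node {O : Type} [Finite O] : Finite (Node O) :=
  Finite.of_injective (fun l : Node O => (match l with
    | .top => Sum.inl ()
    | .obj l => Sum.inr (Sum.inl l)
    | .out o i => Sum.inr (Sum.inr (Sum.inl (o, i)))
    | .inn o i => Sum.inr (Sum.inr (Sum.inr (o, i))) : Unit ⊕ O ⊕ (O × Ptr) ⊕ (O × Ptr)))
    (by intro a b h; cases a <;> cases b <;> simp_all)

instance finite_obj {m n : ℕ} : Finite (Obj m n) :=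
  Finite.of_injective (fun l : Obj m n => (match l with
    | .x p => Sum.inl p
    | .k h p => Sum.inr (Sum.inl (h, p))
    | .s b => Sum.inr (Sum.inr (Sum.inl b))
    | .c b p => Sum.inr (Sum.inr (Sum.inr (Sum.inl (b, p))))
    | .t b h p => Sum.inr (Sum.inr (Sum.inr (Sum.inr (b, h, p)))) :
      Pt m n ⊕ (Pt m n × Pt m n) ⊕ (Fin m → Bool) ⊕ ((Fin m → Bool) × Pt m n) ⊕
        ((Fin m → Bool) × Pt m n × Pt m n)))
    (by intro a b h; cases a <;> cases b <;> simp_all)

theorem undirected : ∃ e : Expr NLab, KeyInvariant e (fun _ G => G.Undirected) ∧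
    ¬ FODefinable e (fun _ G => G.Simple) := by
  obtain ⟨e, he⟩ := exists_gnn
  refine ⟨e, ?_, ?_⟩
  · intro V _ G hG u key key' hk hk'
    by_cases h : ∃ (O : Type) (M : PStr O) (f : O → V), Codes G u M f
    · obtain ⟨O, M, f, hc⟩ := h
      have : Finite O := Finite.of_injective f hc.inj
      rw [(he V G hG u key hk).1 O M f hc, (he V G hG u key' hk').1 O M f hc]
      refine and_congr_right fun hM => ?_
      rw [exists_goodS_iff M hM _ (hk.comp hc.inj), exists_goodS_iff M hM _ (hk'.comp hc.inj)]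
    · have h' : ∀ (O : Type) (M : PStr O) (f : O → V), ¬ Codes G u M f :=
        fun O M f hc => h ⟨O, M, f, hc⟩
      exact iff_of_false ((he V G hG u key hk).2 h') ((he V G hG u key' hk').2 h')
  · rintro ⟨φ, hφ⟩
    obtain ⟨q, hq⟩ := sat_iff_of_eqv φ
    obtain ⟨m, n, A, A', hm, hn, hA, hA', hE⟩ := comb_eqv q
    have key : ∀ (B : Fin m → Bool), (comb m n B).graph.Sat φ .top ↔
        Even (Finset.univ.filter fun j => B j = true).card := by
      intro B
      obtain ⟨k, hk⟩ : ∃ k : Node (Obj m n) → ℝ, Function.Injective k := by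
        obtain ⟨n', ⟨g⟩⟩ := Finite.exists_equiv_fin (Node (Obj m n))
        exact ⟨fun v => ((g v : ℕ) : ℝ), fun a b h => g.injective (Fin.ext (Nat.cast_injective h))⟩
      rw [← hφ _ _ (graph_simple _) .top k hk,
        (he _ _ (graph_simple _).1 .top k hk).1 _ _ _ (codes_graph (comb m n B))]
      have hv := comb_valid hm hn B
      rw [exists_goodS_iff _ hv _ (hk.comp (codes_graph (comb m n B)).inj), comb_atoms]
      have hs : ∃ s, ((comb m n B).lab s).srt = .S := ⟨.s fun _ => false, rfl⟩
      tauto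
    have h := hq _ _ _ _ _ _ hE
    rw [key A, key A'] at h
    exact hA' (h.mp hA)

end Pool.Agent.Lib.MP_0edfa1_lc
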